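import Pool.Agent.Prb.Defs
import Pool.Agent.Bdt.Grp

/-!
# A solvable Hall subgroup for the large primes
-/

set_option autoImplicit false

namespace Pool.Agent.Prb

open Pool.Agent.Bdt

-- BEGIN cfq
/-- PROOF. Take preimages `K' = K.comap f`, ..; `S' / K'` is isomorphic to `S / K` (`f` restricted to `S'`, composed with the quotient map: surjective with the kernel `K'.subgroupOf S'`, `QuotientGroup.quotientKerEquivOfSurjective`). -/
theorem Cf.map {N : ℕ} {G H : Type*} [Group G] [Group H] (f : G →* H) (hf : Function.Surjective f) (h : Cf N G) : Cf N H := by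
  intro K S L _ _ hKS hSL hc hs hab q hq hd
  have hsur : Function.Surjective ((QuotientGroup.mk' (K.subgroupOf S)).comp (f.subgroupComap S)) := by
    intro x
    obtain ⟨y, rfl⟩ := QuotientGroup.mk'_surjective _ x
    obtain ⟨z, rfl⟩ := f.subgroupComap_surjective_of_surjective S hf y
    exact ⟨z, rfl⟩
  have hker : ((QuotientGroup.mk' (K.subgroupOf S)).comp (f.subgroupComap S)).ker = (K.comap f).subgroupOf (S.comap f) := by
    ext x
    rw [MonoidHom.mem_ker, MonoidHom.comp_apply, QuotientGroup.mk'_apply, QuotientGroup.eq_one_iff,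
      Subgroup.mem_subgroupOf, Subgroup.mem_subgroupOf, Subgroup.mem_comap]
    rfl
  let e : (S.comap f) ⧸ (K.comap f).subgroupOf (S.comap f) ≃* S ⧸ K.subgroupOf S :=
    (QuotientGroup.quotientMulEquivOfEq hker).symm.trans (QuotientGroup.quotientKerEquivOfSurjective _ hsur)
  refine h (K.comap f) (S.comap f) (L.comap f) (Subgroup.comap_mono hKS) (Subgroup.comap_mono hSL) ?_ ?_ ?_ q hq ?_
  · intro l hl s hs'
    rw [Subgroup.mem_comap, map_mul, map_mul, map_inv]
    exact hc _ hl _ hs'
  · exact e.isSimpleGroup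
  · obtain ⟨a, b, hne⟩ := hab
    refine ⟨e.symm a, e.symm b, fun he => hne ?_⟩
    rw [← map_mul, ← map_mul] at he
    exact e.symm.injective he
  · rw [Nat.card_congr e.toEquiv]
    exact hd
-- END cfq

-- BEGIN cfm
theorem cfm_card_cj {G : Type} [Group G] (g : G) (S : Subgroup G) : Nat.card (cj g S) = Nat.card S :=
  (Nat.card_congr (S.equivMapOfInjective (MulAut.conj g).toMonoidHom (MulAut.conj g).injective).toEquiv).symm

/-- If `q` divides the order of the join of two subgroups, the second one normal, it divides the order of one of them. -/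
theorem cfm_sup {G : Type} [Group G] {T U : Subgroup G} [U.Normal] {q : ℕ} (hq : q.Prime)
    (h : q ∣ Nat.card (T ⊔ U : Subgroup G)) : q ∣ Nat.card T ∨ q ∣ Nat.card U := by
  have h1 : Nat.card U * U.relIndex (T ⊔ U) = Nat.card (T ⊔ U : Subgroup G) := by
    have h2 := (U.subgroupOf (T ⊔ U)).card_mul_index
    rwa [Nat.card_congr (Subgroup.subgroupOfEquivOfLe (le_sup_right : U ≤ T ⊔ U)).toEquiv] at h2
  rw [← h1, Subgroup.relIndex_sup_right] at h
  rcases hq.dvd_mul.mp h with h3 | h3
  · exact Or.inr h3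
  · exact Or.inl (h3.trans (U.relIndex_dvd_card T))

/-- PROOF. `S` with `Fac M S` (`exists_fac`), nonabelian simple (`Fac.simple`), so its prime divisors are at most `N` (`h` with `K = ⊥`, `L = M`; `S ⧸ ⊥ ≃* S`), and so are those of its conjugates. `M` is the join of the conjugates `cj q S` (`Fac.gen`), which are equal or commute elementwise (`Fac.comm`, `Fac.conj`):
by induction over a finite set of pairwise commuting subgroups the order of the join divides the product of the orders (`|S T| ∣ |S| |T|`). So `q ∣ |M|` divides `|cj g S| = |S|` for some `g`. -/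
theorem Cf.minN {N : ℕ} {G : Type} [Group G] [Finite G] (h : Cf N G) {M : Subgroup G} (hM : MinN M)
    (hab : ∃ a ∈ M, ∃ b ∈ M, a * b ≠ b * a) {q : ℕ} (hq : q.Prime) (hd : q ∣ Nat.card M) : q ≤ N := by
  obtain ⟨S, hS⟩ := exists_fac hM
  obtain ⟨hsim, hnab⟩ := Fac.simple hM hab hS
  have hMn : M.Normal := hM.nor
  -- the prime divisors of `|S|`
  have hSN : q ∣ Nat.card S → q ≤ N := by
    intro hqS
    let e : S ⧸ (⊥ : Subgroup G).subgroupOf S ≃* S :=
      (QuotientGroup.quotientMulEquivOfEq (Subgroup.bot_subgroupOf S)).trans QuotientGroup.quotientBot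
    refine h ⊥ S M bot_le hS.le hS.nor e.isSimpleGroup ?_ q hq ?_
    · obtain ⟨a, ha, b, hb, hne⟩ := hnab
      refine ⟨e.symm ⟨a, ha⟩, e.symm ⟨b, hb⟩, fun he => hne ?_⟩
      rw [← map_mul, ← map_mul] at he
      exact congrArg Subtype.val (e.symm.injective he)
    · rw [Nat.card_congr e.toEquiv]
      exact hqS
  by_contra hqN
  have hqS : ¬ q ∣ Nat.card S := fun hh => hqN (hSN hh)
  -- a maximal normal subgroup of `M` of order prime to `q`
  let P : Set (Subgroup M) := {T | T.Normal ∧ ¬ q ∣ Nat.card T}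
  have hPne : P.Nonempty := by
    refine ⟨⊥, inferInstance, ?_⟩
    rw [Subgroup.card_bot]
    intro hh
    exact hq.one_lt.ne' (Nat.dvd_one.mp hh)
  obtain ⟨T, hT⟩ := (Set.toFinite P).exists_maximal hPne
  have hTn : T.Normal := hT.prop.1
  have hle : ∀ g : G, cj g S ≤ T.map M.subtype := by
    intro g
    have hF : Fac M (cj g S) := Fac.conj hMn hS g
    have hUn : ((cj g S).subgroupOf M).Normal := by
      refine ⟨fun n hn m => ?_⟩
      rw [Subgroup.mem_subgroupOf] at hn ⊢
      exact hF.nor _ m.2 _ hn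
    have hUc : Nat.card ((cj g S).subgroupOf M) = Nat.card S := by
      rw [Nat.card_congr (Subgroup.subgroupOfEquivOfLe hF.le).toEquiv, cfm_card_cj]
    have hmem : T ⊔ (cj g S).subgroupOf M ∈ P := by
      refine ⟨Subgroup.sup_normal _ _, fun hh => ?_⟩
      rcases cfm_sup hq hh with h1 | h1
      · exact hT.prop.2 h1
      · exact hqS (hUc ▸ h1)
    have hUT : (cj g S).subgroupOf M ≤ T := le_sup_right.trans (hT.le_of_ge hmem le_sup_left)
    intro x hx
    exact ⟨⟨x, hF.le hx⟩, hUT (Subgroup.mem_subgroupOf.mpr hx), rfl⟩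
  have hMT : M ≤ T.map M.subtype := by
    conv_lhs => rw [Fac.gen hM hS]
    exact iSup_le hle
  have hTtop : T = ⊤ := by
    rw [eq_top_iff]
    intro x _
    obtain ⟨y, hy, hyx⟩ := hMT x.2
    have : y = x := Subtype.ext hyx
    exact this ▸ hy
  apply hT.prop.2
  rw [hTtop, Subgroup.card_top]
  exact hd
-- END cfm

-- BEGIN abe
/-- PROOF. Let `p` be a prime divisor of `|M|`. The elements of `M` with `a ^ p = 1` form a subgroup, normal in `G`, not `⊥` (Cauchy), so it is `M`. -/
theorem minN_elem {G : Type} [Group G] [Finite G] {M : Subgroup G} (hM : MinN M) (hab : ∀ a ∈ M, ∀ b ∈ M, a * b = b * a) :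
    ∃ p : ℕ, p.Prime ∧ p ∣ Nat.card M ∧ ∀ a ∈ M, a ^ p = 1 := by
  have h1 : Nat.card M ≠ 1 := by
    intro h
    exact hM.ne ((Subgroup.card_eq_one).1 h)
  obtain ⟨p, hp, hd⟩ := Nat.exists_prime_and_dvd h1
  have : Fact p.Prime := ⟨hp⟩
  obtain ⟨x, hx⟩ := exists_prime_orderOf_dvd_card' p hd
  let P : Subgroup G :=
    { carrier := {a | a ∈ M ∧ a ^ p = 1}
      one_mem' := ⟨M.one_mem, one_pow p⟩
      mul_mem' := by
        rintro a b ⟨ha, ha1⟩ ⟨hb, hb1⟩
        refine ⟨M.mul_mem ha hb, ?_⟩
        rw [(show Commute a b from hab a ha b hb).mul_pow, ha1, hb1, one_mul]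
      inv_mem' := by
        rintro a ⟨ha, ha1⟩
        refine ⟨M.inv_mem ha, ?_⟩
        rw [inv_pow, ha1, inv_one] }
  have hP : P = M := by
    refine hM.min P ?_ (fun a ha => ha.1) ?_
    · constructor
      rintro a ⟨ha, ha1⟩ g
      refine ⟨hM.nor.conj_mem a ha g, ?_⟩
      rw [conj_pow, ha1, mul_one, mul_inv_cancel]
    · intro hb
      have hxP : (x : G) ∈ P := by
        refine ⟨x.2, ?_⟩
        have h2 : x ^ p = 1 := by rw [← hx]; exact pow_orderOf_eq_one x
        have h3 := congrArg (Subtype.val) h2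
        simpa using h3
      rw [hb, Subgroup.mem_bot] at hxP
      have hx1 : x = 1 := Subtype.ext hxP
      rw [hx1, orderOf_one] at hx
      exact hp.one_lt.ne hx
  refine ⟨p, hp, hd, ?_⟩
  intro a ha
  rw [← hP] at ha
  exact ha.2
-- END abe

-- BEGIN hal
private theorem hal_exp {G : Type} [Group G] [Finite G] {M : Subgroup G} {p : ℕ} (hp : p.Prime)
    (he : ∀ a ∈ M, a ^ p = 1) {q : ℕ} (hq : q.Prime) (hd : q ∣ Nat.card M) : q = p := by
  haveI := Fact.mk hq
  obtain ⟨x, hx⟩ := exists_prime_orderOf_dvd_card' (G := M) q hd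
  have h1 : x ^ p = 1 := by
    have := he x x.2
    exact Subtype.ext (by simpa using this)
  have h2 : q ∣ p := by
    rw [← hx]
    exact orderOf_dvd_of_pow_eq_one h1
  exact (Nat.prime_dvd_prime_iff_eq hq hp).1 h2

/-- PROOF. Strong induction on `|G|`. `G` trivial: `Y = ⊥`. Otherwise `M` minimal normal in `G` (`exists_minN`), `Cf N (G ⧸ M)` (`Cf.map`), let `Y₁ ≤ G ⧸ M` be the subgroup for `G ⧸ M` and `U` its preimage, `|U| = |M| |Y₁|`, `U.index = Y₁.index`. (a) If `M` is abelian and of exponent `p > N` (`minN_elem`): `Y = U`: solvable since `M` and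
`U / M ≃ Y₁` are (`solvable_of_ker_le_range` or so), the prime divisors of `|U|` are `p` or those of `|Y₁|`. (b) Otherwise the prime divisors of `|M|` are at most `N` (`p ≤ N`, or `Cf.minN`), so `|M|` and `|U / M| = |Y₁|` are coprime: Schur - Zassenhaus (`Subgroup.exists_right_complement'_of_coprime` for `M.subgroupOf U`) gives a
complement `Y` of `M` in `U`, `Y ≃ U / M ≃ Y₁` is solvable, `|G : Y| = |G : U| |M|`. -/
theorem exists_hall (N : ℕ) : ∀ (n : ℕ) (G : Type) [Group G] [Finite G], Nat.card G = n → Cf N G →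
    ∃ Y : Subgroup G, Group.IsSolvable Y ∧ (∀ q : ℕ, q.Prime → q ∣ Nat.card Y → N < q) ∧ (∀ q : ℕ, q.Prime → q ∣ Y.index → q ≤ N) := by
  intro n
  induction n using Nat.strong_induction_on with
  | _ n ih =>
  intro G _ _ hn h
  rcases subsingleton_or_nontrivial G with hs | hs
  · refine ⟨⊥, inferInstance, ?_, ?_⟩
    · intro q hq hd
      rw [Subgroup.card_bot] at hd
      exact absurd (Nat.dvd_one.1 hd) hq.one_lt.ne'
    · intro q hq hd
      rw [Subgroup.index_bot, Nat.card_unique] at hd
      exact absurd (Nat.dvd_one.1 hd) hq.one_lt.ne'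
  obtain ⟨M, hM, -⟩ := exists_minN (⊤ : Subgroup G) inferInstance top_ne_bot
  haveI := hM.nor
  have hcM : 1 < Nat.card M := by
    rcases Nat.lt_or_ge 1 (Nat.card M) with h1 | h1
    · exact h1
    · exact absurd ((Subgroup.card_le_one_iff_eq_bot M).1 h1) hM.ne
  have hcard : Nat.card G = Nat.card (G ⧸ M) * Nat.card M :=
    Subgroup.card_eq_card_quotient_mul_card_subgroup M
  have hQpos : 0 < Nat.card (G ⧸ M) := Nat.card_pos
  have hlt : Nat.card (G ⧸ M) < n := by
    rw [← hn, hcard]
    exact lt_mul_of_one_lt_right hQpos hcM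
  have hQ : Cf N (G ⧸ M) := Cf.map (QuotientGroup.mk' M) (QuotientGroup.mk'_surjective M) h
  obtain ⟨Y₁, hsol, hY1, hY2⟩ := ih _ hlt (G ⧸ M) rfl hQ
  haveI := hsol
  set U : Subgroup G := Y₁.comap (QuotientGroup.mk' M) with hU
  have hUi : U.index = Y₁.index :=
    Subgroup.index_comap_of_surjective Y₁ (QuotientGroup.mk'_surjective M)
  have hMU : M ≤ U := by
    intro x hx
    rw [hU, Subgroup.mem_comap]
    have : QuotientGroup.mk' M x = 1 := (QuotientGroup.eq_one_iff x).2 hx
    rw [this]
    exact Y₁.one_mem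
  have hUc : Nat.card U = Nat.card M * Nat.card Y₁ := by
    have h1 : Nat.card U * U.index = Nat.card G := Subgroup.card_mul_index U
    have h2 : Nat.card Y₁ * Y₁.index = Nat.card (G ⧸ M) := Subgroup.card_mul_index Y₁
    have h3 : 0 < U.index := Nat.pos_of_ne_zero Subgroup.index_ne_zero_of_finite
    apply Nat.eq_of_mul_eq_mul_right h3
    rw [h1, hcard, ← h2, hUi]
    ring
  -- the map U → Y₁
  let φ : U →* Y₁ := (QuotientGroup.mk' M).subgroupComap Y₁
  have hφ : ∀ x : U, φ x = 1 ↔ (x : G) ∈ M := by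
    intro x
    rw [← (QuotientGroup.eq_one_iff (x : G)), Subtype.ext_iff]
    rfl
  by_cases hcase : (∀ a ∈ M, ∀ b ∈ M, a * b = b * a) ∧ ∃ p : ℕ, p.Prime ∧ N < p ∧ ∀ a ∈ M, a ^ p = 1
  · obtain ⟨hab, p, hp, hNp, he⟩ := hcase
    refine ⟨U, ?_, ?_, ?_⟩
    · haveI : Group.IsSolvable M := isSolvable_of_comm fun a b => Subtype.ext (hab a a.2 b b.2)
      refine solvable_of_ker_le_range (Subgroup.inclusion hMU) φ ?_
      intro x hx
      exact ⟨⟨x, (hφ x).1 hx⟩, Subtype.ext rfl⟩
    · intro q hq hd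
      rw [hUc] at hd
      rcases (Nat.Prime.dvd_mul hq).1 hd with h1 | h1
      · rw [hal_exp hp he hq h1]
        exact hNp
      · exact hY1 q hq h1
    · intro q hq hd
      rw [hUi] at hd
      exact hY2 q hq hd
  · have hMs : ∀ q : ℕ, q.Prime → q ∣ Nat.card M → q ≤ N := by
      intro q hq hd
      by_cases hab : ∀ a ∈ M, ∀ b ∈ M, a * b = b * a
      · obtain ⟨p, hp, hpd, he⟩ := minN_elem hM hab
        rw [hal_exp hp he hq hd]
        by_contra hlt'
        exact hcase ⟨hab, p, hp, not_le.1 hlt', he⟩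
      · push Not at hab
        exact Cf.minN h hM hab hq hd
    have hcop : Nat.Coprime (Nat.card M) (Nat.card Y₁) := by
      refine Nat.Coprime.symm (Nat.coprime_of_dvd fun q hq h1 h2 => ?_)
      exact absurd (hMs q hq h2) (not_le.2 (hY1 q hq h1))
    haveI : (M.subgroupOf U).Normal := inferInstance
    have hc1 : Nat.card (M.subgroupOf U) = Nat.card M :=
      Nat.card_congr (Subgroup.subgroupOfEquivOfLe hMU).toEquiv
    have hi1 : (M.subgroupOf U).index = Nat.card Y₁ := by
      have h1 : Nat.card (M.subgroupOf U) * (M.subgroupOf U).index = Nat.card U :=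
        Subgroup.card_mul_index _
      rw [hc1, hUc] at h1
      exact Nat.eq_of_mul_eq_mul_left (by omega) h1
    obtain ⟨H, hH⟩ := Subgroup.exists_right_complement'_of_coprime (N := M.subgroupOf U)
      (by rw [hc1, hi1]; exact hcop)
    have hHc : Nat.card H = Nat.card Y₁ := by
      rw [← hi1]
      exact hH.symm.index_eq_card.symm
    let Y : Subgroup G := H.map U.subtype
    have hYc : Nat.card Y = Nat.card H :=
      (Nat.card_congr (H.equivMapOfInjective U.subtype U.subtype_injective).toEquiv).symm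
    refine ⟨Y, ?_, ?_, ?_⟩
    · haveI : Group.IsSolvable H := by
        refine solvable_of_solvable_injective (f := φ.comp H.subtype) ?_
        rw [injective_iff_map_eq_one]
        intro x hx
        have h1 : ((x : U) : G) ∈ M := (hφ x).1 hx
        have h2 : (x : U) ∈ M.subgroupOf U := Subgroup.mem_subgroupOf.2 h1
        have h3 := hH.disjoint
        rw [Subgroup.disjoint_def] at h3
        exact Subtype.ext (h3 h2 x.2)
      refine solvable_of_solvable_injective
        (f := (H.equivMapOfInjective U.subtype U.subtype_injective).symm.toMonoidHom) ?_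
      exact (H.equivMapOfInjective U.subtype U.subtype_injective).symm.injective
    · intro q hq hd
      rw [hYc, hHc] at hd
      exact hY1 q hq hd
    · intro q hq hd
      have h1 : Nat.card Y * Y.index = Nat.card G := Subgroup.card_mul_index Y
      have h2 : Nat.card U * U.index = Nat.card G := Subgroup.card_mul_index U
      have h3 : Y.index = Nat.card M * U.index := by
        have h4 : 0 < Nat.card Y₁ := Nat.card_pos
        apply Nat.eq_of_mul_eq_mul_left h4
        rw [← hHc, ← hYc, h1, ← h2, hUc, hYc, hHc]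
        ring
      rw [h3] at hd
      rcases (Nat.Prime.dvd_mul hq).1 hd with h5 | h5
      · exact hMs q hq h5
      · rw [hUi] at h5
        exact hY2 q hq h5
-- END hal

-- BEGIN top
/-- PROOF. `M` = a normal subgroup of minimal order with `r ∤ M.index` (`⊤` is one); `M ≠ ⊥` since `r ∣ |G|`. `K` = a maximal element of the normal subgroups of `G` which are `< M`. Then `M / K` is a minimal normal subgroup of `G ⧸ K` (`MinN (M.map (mk' K))`), and `r ∣ |M / K|` (otherwise `r ∤ K.index`, `K.index = M.index * |M / K|`,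
contradicting the minimality of `M`). `Cf N (G ⧸ K)` (`Cf.map`), so `M / K` is abelian by `Cf.minN` (`r > N`), and of exponent `p` by `minN_elem`, `p = r`. -/
theorem exists_top {N : ℕ} {G : Type} [Group G] [Finite G] (h : Cf N G) {r : ℕ} (hr : r.Prime) (hN : N < r) (hd : r ∣ Nat.card G) :
    ∃ M K : Subgroup G, M.Normal ∧ K.Normal ∧ K < M ∧ ¬ r ∣ M.index ∧ (∀ a ∈ M, ∀ b ∈ M, a * b * a⁻¹ * b⁻¹ ∈ K) ∧ ∀ a ∈ M, a ^ r ∈ K := by
  classical
  -- the subgroup M
  obtain ⟨M, ⟨hM, hMr⟩, hMmin⟩ := Set.exists_min_image {M : Subgroup G | M.Normal ∧ ¬ r ∣ M.index} (fun M => Nat.card M)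
    (Set.toFinite _) ⟨⊤, inferInstance, by
      rw [Subgroup.index_top]
      exact hr.one_lt.ne' ∘ Nat.dvd_one.1⟩
  have hMb : M ≠ ⊥ := by
    rintro rfl
    rw [Subgroup.index_bot] at hMr
    exact hMr hd
  obtain ⟨K, ⟨hK, hlt⟩, hKmax⟩ := Set.exists_max_image {K : Subgroup G | K.Normal ∧ K < M} (fun K => Nat.card K)
    (Set.toFinite _) ⟨⊥, inferInstance, bot_lt_iff_ne_bot.2 hMb⟩
  have hch : ∀ T : Subgroup G, T.Normal → K ≤ T → T ≤ M → T = K ∨ T = M := by
    intro T hT hKT hTM
    rcases hTM.eq_or_lt with h1 | h1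
    · exact Or.inr h1
    · left
      have h2 : Nat.card T ≤ Nat.card K := hKmax T ⟨hT, h1⟩
      exact (Subgroup.eq_of_le_of_card_ge hKT h2).symm
  have hrK : r ∣ K.index := by
    by_contra hcon
    have h1 : Nat.card M ≤ Nat.card K := hMmin K ⟨hK, hcon⟩
    exact hlt.ne (Subgroup.eq_of_le_of_card_ge hlt.le h1)
  -- the quotient
  have hcard : Nat.card (M.map (QuotientGroup.mk' K)) * M.index = K.index := by
    have h1 : (M.map (QuotientGroup.mk' K)).index = M.index := by
      rw [Subgroup.index_map, QuotientGroup.ker_mk', sup_eq_left.2 hlt.le,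
        MonoidHom.range_eq_top.2 (QuotientGroup.mk'_surjective K), Subgroup.index_top, mul_one]
    rw [← h1, Subgroup.card_mul_index]
    rfl
  have hrM : r ∣ Nat.card (M.map (QuotientGroup.mk' K)) := by
    rw [← hcard] at hrK
    exact (hr.dvd_mul.1 hrK).resolve_right hMr
  have hmin : MinN (M.map (QuotientGroup.mk' K)) := by
    refine ⟨hM.map _ (QuotientGroup.mk'_surjective K), ?_, ?_⟩
    · intro h1
      rw [h1, Subgroup.card_bot] at hrM
      exact hr.one_lt.ne' (Nat.dvd_one.1 hrM)
    · intro T hT hTM hTb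
      have h1 : T.comap (QuotientGroup.mk' K) = K ∨ T.comap (QuotientGroup.mk' K) = M := by
        refine hch _ (hT.comap _) ?_ ?_
        · intro x hx
          rw [Subgroup.mem_comap, QuotientGroup.mk'_apply, (QuotientGroup.eq_one_iff x).2 hx]
          exact T.one_mem
        · have h2 := Subgroup.comap_mono (f := QuotientGroup.mk' K) hTM
          rwa [Subgroup.comap_map_eq, QuotientGroup.ker_mk', sup_eq_left.2 hlt.le] at h2
      have h3 : (T.comap (QuotientGroup.mk' K)).map (QuotientGroup.mk' K) = T :=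
        Subgroup.map_comap_eq_self_of_surjective (QuotientGroup.mk'_surjective K) T
      rcases h1 with h1 | h1
      · exfalso
        apply hTb
        rw [← h3, h1, QuotientGroup.map_mk'_self]
      · rw [← h3, h1]
  have hCf : Cf N (G ⧸ K) := Cf.map (QuotientGroup.mk' K) (QuotientGroup.mk'_surjective K) h
  have hab : ∀ a ∈ M.map (QuotientGroup.mk' K), ∀ b ∈ M.map (QuotientGroup.mk' K), a * b = b * a := by
    by_contra hcon
    push Not at hcon
    have := hCf.minN hmin hcon hr hrM
    omega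
  obtain ⟨p, hp, hpd, hpp⟩ := minN_elem hmin hab
  have hpr : p = r := by
    have h1 : ∃ x : (M.map (QuotientGroup.mk' K)), orderOf x = r := by
      have : Fact r.Prime := ⟨hr⟩
      exact exists_prime_orderOf_dvd_card' r hrM
    obtain ⟨x, hx⟩ := h1
    have h2 : x ^ p = 1 := Subtype.ext (hpp x x.2)
    have h3 := orderOf_dvd_of_pow_eq_one h2
    rw [hx] at h3
    exact ((Nat.prime_dvd_prime_iff_eq hr hp).1 h3).symm
  subst hpr
  refine ⟨M, K, hM, hK, hlt, hMr, ?_, ?_⟩
  · intro a ha b hb
    rw [← QuotientGroup.eq_one_iff]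
    have h1 := hab _ (Subgroup.mem_map_of_mem (QuotientGroup.mk' K) ha) _ (Subgroup.mem_map_of_mem (QuotientGroup.mk' K) hb)
    have h2 : ((a * b * a⁻¹ * b⁻¹ : G) : G ⧸ K) = (a : G ⧸ K) * b * (a : G ⧸ K)⁻¹ * (b : G ⧸ K)⁻¹ := rfl
    rw [h2]
    have h3 : (a : G ⧸ K) * b = b * a := h1
    rw [h3]
    group
  · intro a ha
    rw [← QuotientGroup.eq_one_iff]
    exact hpp _ (Subgroup.mem_map_of_mem (QuotientGroup.mk' K) ha)
-- END top

end Pool.Agent.Prb
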