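import Pool.Agent.Prb.Lin
import Pool.Agent.Prb.Hal
import Pool.Agent.Fah.B

/-!
# The primes are bounded
-/

set_option autoImplicit false

namespace Pool.Agent.Prb

-- BEGIN rtq
/-- PROOF. For `y : H` take `x` with `f x = y`; `orderOf y ∣ orderOf x`; replace `k` by `k' ≡ k` modulo `orderOf y` which is coprime to `orderOf x` (`ZMod.unitsMap_surjective`). -/
theorem Rat.map {G H : Type*} [Group G] [Finite G] [Group H] (f : G →* H) (hf : Function.Surjective f) (h : Rat G) : Rat H := by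
  intro y k hk
  obtain ⟨x, rfl⟩ := hf y
  have hd : orderOf (f x) ∣ orderOf x := orderOf_map_dvd f x
  have hx : 0 < orderOf x := orderOf_pos x
  have : NeZero (orderOf x) := ⟨hx.ne'⟩
  obtain ⟨u, hu⟩ := ZMod.unitsMap_surjective hd (ZMod.unitOfCoprime k hk)
  obtain ⟨g, hg⟩ := h x _ (ZMod.val_coe_unit_coprime u)
  refine ⟨f g, ?_⟩
  have h1 : f g * f x * (f g)⁻¹ = f x ^ (u : ZMod (orderOf x)).val := by
    rw [← map_mul, ← map_inv, ← map_mul, hg, map_pow]
  rw [h1, pow_eq_pow_iff_modEq, ← ZMod.natCast_eq_natCast_iff]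
  have h2 : ((ZMod.unitsMap hd u : (ZMod (orderOf (f x)))ˣ) : ZMod (orderOf (f x))) = (k : ZMod (orderOf (f x))) := by
    rw [hu, ZMod.coe_unitOfCoprime]
  rw [← h2, ZMod.unitsMap_def, Units.coe_map]
  have h3 : ((ZMod.castHom hd (ZMod (orderOf (f x)))) (u : ZMod (orderOf x))) =
      (((u : ZMod (orderOf x)).val : ℕ) : ZMod (orderOf (f x))) := by
    conv_lhs => rw [← ZMod.natCast_zmod_val (u : ZMod (orderOf x))]
    rw [map_natCast]
  exact h3.symm
-- END rtq

-- BEGIN mdl
theorem mdl_coprime {r o j : ℕ} (hr : r.Prime) (ho : 0 < o) (hj : ¬ r ∣ j) : ∃ k : ℕ, k.Coprime o ∧ k ≡ j [MOD r] := by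
  have hjr : j.Coprime r := (hr.coprime_iff_not_dvd.2 hj).symm
  obtain ⟨k, hk1, hk2⟩ := Nat.chineseRemainder (n := r) (m := o / r ^ o.factorization r)
    ((Nat.coprime_ordCompl hr ho.ne').symm.symm) j 1
  refine ⟨k, ?_, hk1⟩
  have h1 : k.Coprime (o / r ^ o.factorization r) := by
    have : k.gcd (o / r ^ o.factorization r) = (1 : ℕ).gcd (o / r ^ o.factorization r) := hk2.gcd_eq
    rw [Nat.Coprime, this, Nat.gcd_one_left]
  have h2 : k.Coprime (r ^ o.factorization r) := by
    refine Nat.Coprime.pow_right _ ?_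
    have : k.gcd r = j.gcd r := hk1.gcd_eq
    rw [Nat.Coprime, this]
    exact hjr
  have h3 := Nat.Coprime.mul_right h2 h1
  rwa [Nat.ordProj_mul_ordCompl_eq_self] at h3

/-- PROOF. `E = Additive (M ⧸ K.subgroupOf M)` (commutative by `hab`), `G` acts on it by conjugation, `θ : G →* AddAut E` (or `(AddMonoid.End E)ˣ`), `H = θ.range`, `f = θ.rangeRestrict`. `E` is not trivial (`K < M`), `r • v = 0` (`hpow`); `M` is in the kernel of `θ` (`hab`), so `|H|` divides `M.index`. For `v` the class of `a ∈ M`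
and `j` prime to `r` there is `j' ≡ j` modulo `r` which is coprime to `orderOf a` (also if `r ∤ orderOf a`; `j' = j + i r`: choose `j'` with `j' ≡ j` modulo `r` and `j' ≡ 1` modulo the part of `orderOf a` prime to `r`); `Rat` gives `g` with `g a g⁻¹ = a ^ j'`, and `θ g v = j' • v = j • v`.
(`Pool.Agent.Fah.exists_sec` of `Pool/Agent/Fah/B.lean` gives `E`, `θ`, `π`, if you want to use it.) -/
theorem exists_mod {G : Type} [Group G] [Finite G] {r : ℕ} (hr : r.Prime) (hG : Rat G) {M K : Subgroup G} (hM : M.Normal)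
    (hK : K.Normal) (hlt : K < M) (hi : ¬ r ∣ M.index) (hab : ∀ a ∈ M, ∀ b ∈ M, a * b * a⁻¹ * b⁻¹ ∈ K) (hpow : ∀ a ∈ M, a ^ r ∈ K) :
    ∃ (H E : Type) (_ : Group H) (_ : Finite H) (_ : AddCommGroup E) (_ : Finite E) (_ : DistribMulAction H E) (f : G →* H),
      Function.Surjective f ∧ Nontrivial E ∧ (∀ v : E, r • v = 0) ∧ (∀ h : H, (∀ v : E, h • v = v) → h = 1) ∧ ¬ r ∣ Nat.card H ∧
      ∀ (v : E) (j : ℕ), ¬ r ∣ j → ∃ h : H, h • v = j • v := by
  obtain ⟨E, _, _, θ, π, hS, hc⟩ := Fah.exists_sec M K hM hK hlt.le hab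
  have hpi : ∀ a ∈ M, ∀ n : ℕ, π (a ^ n) = n • π a := by
    intro a ha n
    induction n with
    | zero =>
        rw [pow_zero, zero_smul]
        exact (hS.ker 1 M.one_mem).2 K.one_mem
    | succ n ih => rw [pow_succ, hS.add _ (M.pow_mem ha n) a ha, ih, succ_nsmul]
  have hrE : ∀ v : E, r • v = 0 := by
    intro v
    obtain ⟨a, ha, rfl⟩ := hS.sur v
    rw [← hpi a ha]
    exact (hS.ker _ (M.pow_mem ha r)).2 (hpow a ha)
  have hfin : Finite θ.range := Finite.of_surjective θ.rangeRestrict θ.rangeRestrict_surjective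
  refine ⟨θ.range, E, inferInstance, hfin, inferInstance, inferInstance, inferInstance, θ.rangeRestrict,
    θ.rangeRestrict_surjective, ?_, hrE, ?_, ?_, ?_⟩
  · rw [← Finite.one_lt_card_iff_nontrivial, hc]
    have h1 : K.relIndex M ≠ 1 := fun h => hlt.not_ge (Subgroup.relIndex_eq_one.1 h)
    have h2 : K.relIndex M ≠ 0 := by
      rw [← hc]
      exact Nat.card_pos.ne'
    omega
  · intro h hh
    apply Subtype.ext
    apply Units.ext
    apply AddMonoidHom.ext
    intro v
    exact hh v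
  · intro hd
    apply hi
    refine hd.trans ?_
    have hker : M ≤ θ.ker := by
      intro m hm
      rw [MonoidHom.mem_ker]
      apply Units.ext
      apply AddMonoidHom.ext
      intro v
      obtain ⟨a, ha, rfl⟩ := hS.sur v
      have h1 : θ m • π a = π (m * a * m⁻¹) := (hS.act m a ha).symm
      have h2 : π (m * a * m⁻¹) = π a := by
        have h3 : m * a * m⁻¹ = (m * a * m⁻¹ * a⁻¹) * a := by group
        have h4 : m * a * m⁻¹ * a⁻¹ ∈ K := hab m hm a ha
        rw [h3, hS.add _ (hlt.le h4) a ha, (hS.ker _ (hlt.le h4)).2 h4, zero_add]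
      rw [h2] at h1
      exact h1
    have h5 : Nat.card θ.range = θ.ker.index := (Subgroup.index_ker θ).symm
    rw [h5]
    exact Subgroup.index_dvd_of_le hker
  · intro v j hj
    obtain ⟨a, ha, rfl⟩ := hS.sur v
    obtain ⟨k, hk1, hk2⟩ := mdl_coprime hr (orderOf_pos a) hj
    obtain ⟨g, hg⟩ := hG a k hk1
    refine ⟨⟨θ g, g, rfl⟩, ?_⟩
    show θ g • π a = j • π a
    rw [← hS.act g a ha, hg, hpi a ha]
    have h6 : ((k : ℤ) - (j : ℤ)) • π a = 0 := by
      obtain ⟨t, ht⟩ := (Nat.modEq_iff_dvd.1 hk2.symm)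
      rw [ht, mul_comm, mul_smul, natCast_zsmul, hrE, smul_zero]
    rw [sub_smul, natCast_zsmul, natCast_zsmul, sub_eq_zero] at h6
    exact h6
-- END mdl

-- BEGIN cou
/-- PROOF. For `h : H` let `P h = {v | h • v = 2 • v}`, `P' h = {v | 2 • (h • v) = v}`, additive subgroups. Every `v` is in some `P h` (`hl` with `j = 2`), so `|E| ≤ ∑ h, |P h|`. `P h ⊓ P' h = ⊥`: `v = 2 • 2 • v`, `3 • v = 0`, `r ≥ 5` is prime to `3`. By `hrat` (`k = orderOf h - 1`, or any `k` with `x ^ k = x⁻¹`) there is `g` with `g h g⁻¹ = h⁻¹`, and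
`v ↦ g • v` maps `P h` into `P' h`: `h⁻¹ • g • v = g • h • v = 2 • g • v`, so `g • v = 2 • h • g • v`. So `|P h| ^ 2 ≤ |P h| |P' h| ≤ |E|` (`(v, w) ↦ v + w` is injective on `P h × P' h`). With `P h` of maximal order `s`: `|E| ≤ |H| s`, `s ^ 2 ≤ |E|`, so `|E| ^ 2 ≤ |H| ^ 2 |E|`. -/
theorem card_le_sq {H E : Type} [Group H] [Finite H] [AddCommGroup E] [Finite E] [DistribMulAction H E] {r : ℕ} (hr : r.Prime)
    (h5 : 5 ≤ r) (hE : ∀ v : E, r • v = 0) (hrat : Rat H) (hl : ∀ (v : E) (j : ℕ), ¬ r ∣ j → ∃ h : H, h • v = j • v) :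
    Nat.card E ≤ Nat.card H ^ 2 := by
  classical
  have : Fintype H := Fintype.ofFinite H
  have : Fintype E := Fintype.ofFinite E
  -- the number of the solutions
  have hzero : ∀ v : E, 3 • v = 0 → v = 0 := by
    intro v hv
    have hc : (3 : ℕ).Coprime r := (Nat.coprime_primes (by norm_num) hr).2 (by omega)
    have h1 : addOrderOf v ∣ 3 := addOrderOf_dvd_of_nsmul_eq_zero hv
    have h2 : addOrderOf v ∣ r := addOrderOf_dvd_of_nsmul_eq_zero (hE v)
    have h3 : addOrderOf v ∣ 1 := by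
      rw [← hc]
      exact Nat.dvd_gcd h1 h2
    exact AddMonoid.addOrderOf_eq_one_iff.1 (Nat.dvd_one.1 h3)
  have hsq : ∀ h : H, Nat.card {v : E // h • v = 2 • v} ^ 2 ≤ Nat.card E := by
    intro h
    obtain ⟨g, hg⟩ := hrat h (orderOf h - 1) (by
      have ho := orderOf_pos h
      have h1 : (orderOf h - 1 + 1) = orderOf h := by omega
      rw [← h1, Nat.add_sub_cancel]
      exact (Nat.coprime_self_add_right).2 (Nat.coprime_one_right _))
    have hinv : h ^ (orderOf h - 1) = h⁻¹ := by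
      have ho := orderOf_pos h
      rw [eq_inv_iff_mul_eq_one, ← pow_succ, Nat.sub_add_cancel ho, pow_orderOf_eq_one]
    rw [hinv] at hg
    rw [sq, ← Nat.card_prod]
    refine Nat.card_le_card_of_injective (fun p : {v : E // h • v = 2 • v} × {v : E // h • v = 2 • v} =>
      (p.1 : E) + g • (p.2 : E)) ?_
    rintro ⟨⟨a, ha⟩, ⟨b, hb⟩⟩ ⟨⟨c, hc⟩, ⟨d, hd⟩⟩ hab
    simp only at hab
    have h1 : ∀ b : E, h • b = 2 • b → 2 • (h • (g • b)) = g • b := by
      intro b hb
      have h2 : h⁻¹ • (g • b) = 2 • (g • b) := by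
        rw [← hg, smul_smul]
        have : g * h * g⁻¹ * g = g * h := by group
        rw [this, mul_smul, hb, smul_comm]
      have h3 : h • (h⁻¹ • (g • b)) = g • b := smul_inv_smul h _
      rw [h2, smul_comm] at h3
      exact h3
    have h2 : a - c = g • (d - b) := by
      rw [smul_sub, sub_eq_sub_iff_add_eq_add, hab, add_comm]
    have h3 : h • (a - c) = 2 • (a - c) := by rw [smul_sub, ha, hc, smul_sub]
    have h4 : 2 • (h • (g • (d - b))) = g • (d - b) := h1 (d - b) (by rw [smul_sub, hb, hd, smul_sub])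
    rw [← h2, h3] at h4
    have h5 : 3 • (a - c) = 0 := by
      have : 2 • 2 • (a - c) - (a - c) = 0 := by rw [h4, sub_self]
      rw [← this]
      module
    have h6 := hzero _ h5
    have h7 : g • (d - b) = 0 := by rw [← h2, h6]
    have h8 : d - b = 0 := (smul_eq_zero_iff_eq g).1 h7
    rw [sub_eq_zero] at h6 h8
    subst h6
    subst h8
    rfl
  have hsum : Nat.card E ≤ ∑ h : H, Nat.card {v : E // h • v = 2 • v} := by
    rw [← Nat.card_sigma]
    refine Nat.card_le_card_of_surjective (fun p : (Σ h : H, {v : E // h • v = 2 • v}) => (p.2 : E)) ?_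
    intro v
    obtain ⟨h, hh⟩ := hl v 2 (fun hd => by
      have := Nat.le_of_dvd (by norm_num) hd
      omega)
    exact ⟨⟨h, v, hh⟩, rfl⟩
  have h1 : Nat.card E ^ 2 ≤ Nat.card H ^ 2 * Nat.card E := by
    calc Nat.card E ^ 2 ≤ (∑ h : H, Nat.card {v : E // h • v = 2 • v}) ^ 2 := Nat.pow_le_pow_left hsum 2
      _ ≤ (Finset.univ : Finset H).card * ∑ h : H, Nat.card {v : E // h • v = 2 • v} ^ 2 := sq_sum_le_card_mul_sum_sq
      _ ≤ (Finset.univ : Finset H).card * ∑ h : H, Nat.card E := Nat.mul_le_mul_left _ (Finset.sum_le_sum fun h _ => hsq h)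
      _ = Nat.card H ^ 2 * Nat.card E := by
        rw [Finset.sum_const, smul_eq_mul, Finset.card_univ, ← Nat.card_eq_fintype_card, sq, mul_assoc]
  have hpos : 0 < Nat.card E := Nat.card_pos
  rw [sq] at h1
  exact Nat.le_of_mul_le_mul_right h1 hpos
-- END cou

-- BEGIN rep
section rep_sec

private theorem rep_map {F V H : Type} [Field F] [AddCommGroup V] [Module F V] [FiniteDimensional F V] [Group H]
    (ρ : H →* Module.End F V) (g h : H) (ζ : F) :
    Module.finrank F (Module.End.eigenspace (ρ h) ζ) ≤ Module.finrank F (Module.End.eigenspace (ρ (g * h * g⁻¹)) ζ) := by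
  have hinj : Function.Injective (ρ g) := by
    intro v w hvw
    have h1 : ∀ v : V, ρ g⁻¹ (ρ g v) = v := by
      intro v
      have : (ρ g⁻¹ * ρ g) v = v := by rw [← map_mul, inv_mul_cancel, map_one]; rfl
      exact this
    rw [← h1 v, ← h1 w, hvw]
  have hle : (Module.End.eigenspace (ρ h) ζ).map (ρ g) ≤ Module.End.eigenspace (ρ (g * h * g⁻¹)) ζ := by
    rintro _ ⟨v, hv, rfl⟩
    have hv' : ρ h v = ζ • v := Module.End.mem_eigenspace_iff.1 hv
    rw [Module.End.mem_eigenspace_iff]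
    have e : (ρ (g * h * g⁻¹)) (ρ g v) = (ρ (g * h * g⁻¹) * ρ g) v := rfl
    rw [e, ← map_mul]
    have e2 : g * h * g⁻¹ * g = g * h := by group
    rw [e2, map_mul]
    show ρ g (ρ h v) = ζ • ρ g v
    rw [hv', map_smul]
  calc Module.finrank F (Module.End.eigenspace (ρ h) ζ)
      = Module.finrank F ((Module.End.eigenspace (ρ h) ζ).map (ρ g)) :=
        ((Module.End.eigenspace (ρ h) ζ).equivMapOfInjective (ρ g) hinj).finrank_eq
    _ ≤ _ := Submodule.finrank_mono hle

private theorem rep_conj {F V H : Type} [Field F] [AddCommGroup V] [Module F V] [FiniteDimensional F V] [Group H]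
    (ρ : H →* Module.End F V) (g h : H) (ζ : F) :
    Module.finrank F (Module.End.eigenspace (ρ (g * h * g⁻¹)) ζ) = Module.finrank F (Module.End.eigenspace (ρ h) ζ) := by
  refine le_antisymm ?_ (rep_map ρ g h ζ)
  have := rep_map ρ g⁻¹ (g * h * g⁻¹) ζ
  have e : g⁻¹ * (g * h * g⁻¹) * g⁻¹⁻¹ = h := by group
  rwa [e] at this

private theorem rep_pow {F V H : Type} [Field F] [AddCommGroup V] [Module F V] [FiniteDimensional F V] [Group H]
    (ρ : H →* Module.End F V) (h : H) (ζ : F) (k : ℕ) :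
    Module.End.eigenspace (ρ h) ζ ≤ Module.End.eigenspace (ρ (h ^ k)) (ζ ^ k) := by
  intro v hv
  have hv' : ρ h v = ζ • v := Module.End.mem_eigenspace_iff.1 hv
  rw [Module.End.mem_eigenspace_iff]
  induction k with
  | zero => rw [pow_zero, pow_zero, map_one, one_smul]; rfl
  | succ k ih =>
    rw [pow_succ, map_mul]
    show ρ (h ^ k) (ρ h v) = _
    rw [hv', map_smul, ih, smul_smul, pow_succ, mul_comm]

private theorem rep_gal {F V H : Type} [Field F] [AddCommGroup V] [Module F V] [FiniteDimensional F V] [Group H] [Finite H]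
    (ρ : H →* Module.End F V) (hrat : Rat H) : Gal ρ := by
  have key : ∀ (h : H) (k : ℕ), k.Coprime (orderOf h) → ∀ ζ : F,
      Module.finrank F (Module.End.eigenspace (ρ h) ζ) ≤ Module.finrank F (Module.End.eigenspace (ρ h) (ζ ^ k)) := by
    intro h k hk ζ
    obtain ⟨g, hg⟩ := hrat h k hk
    rw [← rep_conj ρ g h (ζ ^ k), hg]
    exact Submodule.finrank_mono (rep_pow ρ h ζ k)
  intro h k hk ζ hζ
  refine le_antisymm ?_ (key h k hk ζ)
  have hpos : 0 < orderOf h := orderOf_pos h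
  have ht : 0 < Nat.totient (orderOf h) := Nat.totient_pos.2 hpos
  have h2 := key h (k ^ (Nat.totient (orderOf h) - 1)) (Nat.Coprime.pow_left _ hk) (ζ ^ k)
  have e : (ζ ^ k) ^ (k ^ (Nat.totient (orderOf h) - 1)) = ζ := by
    rw [← pow_mul]
    have e1 : k * k ^ (Nat.totient (orderOf h) - 1) = k ^ Nat.totient (orderOf h) := by
      rw [← pow_succ']
      congr 1
      omega
    rw [e1]
    have hm : k ^ Nat.totient (orderOf h) ≡ 1 [MOD orderOf h] := Nat.ModEq.pow_totient hk
    have := pow_eq_pow_of_modEq hm hζ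
    rw [this, pow_one]
  rwa [e] at h2

/-- PROOF. `E` is a vector space over `ZMod r` (`AddCommGroup.zmodModule`), `F = AlgebraicClosure (ZMod r)`, `V = F ⊗ E` (`TensorProduct (ZMod r) F E`, `finrank F V = finrank (ZMod r) E`, `|E| = r ^ finrank`), `ρ h` = the base change of `v ↦ h • v` (`LinearMap.baseChange`), injective (`hf`; `v ↦ 1 ⊗ v` is injective).
`Gal`: for `k` coprime to `orderOf h` `Rat` gives `g` with `g h g⁻¹ = h ^ k`, `ρ g` maps the eigenspace of `ρ h` for `ζ` onto that of `ρ (h ^ k)` for `ζ`; and the eigenspace of `ρ h` for `ζ` is inside the eigenspace of `ρ (h ^ k)` for `ζ ^ k`: the inequality `finrank (eig h ζ) ≤ finrank (eig (h ^ k) (ζ ^ k)) = finrank (eig h (ζ ^ k))`;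
the other inequality by the same with `k'`, `k k' ≡ 1` modulo `orderOf h`, for `ζ ^ k` (`ζ ^ (k k') = ζ` since `ζ ^ orderOf h = 1`). -/
theorem exists_rep {H E : Type} [Group H] [Finite H] [AddCommGroup E] [Finite E] [DistribMulAction H E]
    (hf : ∀ h : H, (∀ v : E, h • v = v) → h = 1) {r : ℕ} (hr : r.Prime) (hE : ∀ v : E, r • v = 0) (hrat : Rat H)
    (hrH : ¬ r ∣ Nat.card H) :
    ∃ (F V : Type) (_ : Field F) (_ : IsAlgClosed F) (_ : AddCommGroup V) (_ : Module F V) (_ : FiniteDimensional F V)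
      (ρ : H →* Module.End F V), Function.Injective ρ ∧ (Nat.card H : F) ≠ 0 ∧ Gal ρ ∧ Nat.card E = r ^ Module.finrank F V := by
  have : Fact r.Prime := ⟨hr⟩
  obtain ⟨inst⟩ : Nonempty (Module (ZMod r) E) := ⟨AddCommGroup.zmodModule hE⟩
  have : Module.Finite (ZMod r) E := Module.Finite.of_finite
  let lin : H → (E →ₗ[ZMod r] E) := fun h => AddMonoidHom.toZModLinearMap r (DistribSMul.toAddMonoidHom E h)
  have hlin : ∀ (h : H) (v : E), lin h v = h • v := fun h v => rfl
  let F := AlgebraicClosure (ZMod r)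
  let ρ : H →* Module.End F (TensorProduct (ZMod r) F E) :=
    { toFun := fun h => (lin h).baseChange F
      map_one' := by
        have : lin 1 = LinearMap.id := by
          ext v
          rw [hlin, one_smul]; rfl
        rw [this, LinearMap.baseChange_id]; rfl
      map_mul' := by
        intro a b
        have : lin (a * b) = (lin a).comp (lin b) := by
          ext v
          rw [LinearMap.comp_apply, hlin, hlin, hlin, mul_smul]
        rw [this, LinearMap.baseChange_comp]; rfl }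
  refine ⟨F, TensorProduct (ZMod r) F E, inferInstance, inferInstance, inferInstance, inferInstance, inferInstance, ρ,
    ?_, ?_, rep_gal ρ hrat, ?_⟩
  · rw [injective_iff_map_eq_one]
    intro h hh
    refine hf h fun v => ?_
    have h1 : ρ h ((1 : F) ⊗ₜ[ZMod r] v) = (1 : F) ⊗ₜ[ZMod r] v := by rw [hh]; rfl
    have h2 : ρ h ((1 : F) ⊗ₜ[ZMod r] v) = (1 : F) ⊗ₜ[ZMod r] (h • v) := by
      show (lin h).baseChange F ((1 : F) ⊗ₜ[ZMod r] v) = _
      rw [LinearMap.baseChange_tmul, hlin]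
    rw [h2] at h1
    exact Module.FaithfullyFlat.tensorProduct_mk_injective (A := ZMod r) (B := F) E h1
  · intro h0
    have : CharP F r := inferInstance
    exact hrH ((CharP.cast_eq_zero_iff F r (Nat.card H)).1 h0)
  · rw [Module.finrank_baseChange, Module.natCard_eq_pow_finrank (K := ZMod r) (V := E), Nat.card_zmod]

end rep_sec
-- END rep

section

variable {F V H : Type} [Field F] [IsAlgClosed F] [AddCommGroup V] [Module F V] [FiniteDimensional F V] [Group H] [Finite H]

-- BEGIN sub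
/-- PROOF. `order_bound` for `ρ.comp Y.subtype` (`Gal.sub`; `|Y| ∣ |H|`). -/
theorem sub_bound (ρ : H →* Module.End F V) (hinj : Function.Injective ρ) (hF : (Nat.card H : F) ≠ 0) (hG : Gal ρ) (Y : Subgroup H)
    (hY : Group.IsSolvable Y) : Nat.card Y ≤ (2 ^ 14) ^ Module.finrank F V := by
  have := hY
  refine order_bound (ρ.comp Y.subtype) (hinj.comp Y.subtype_injective) ?_ (hG.sub Y)
  intro h0
  apply hF
  obtain ⟨c, hc⟩ := Y.card_subgroup_dvd_card
  rw [hc, Nat.cast_mul, h0, zero_mul]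
-- END sub

-- BEGIN idx
/-- PROOF. `m = ∏ q ∈ m.primeFactors, q ^ m.factorization q`, at most `N` factors (`q ≤ N`), and `q ^ m.factorization q ∣ q ^ n.factorization q`. -/
theorem le_of_primes {m n N b : ℕ} (hn : 0 < n) (hmn : m ∣ n) (hm : ∀ q : ℕ, q.Prime → q ∣ m → q ≤ N)
    (hb : ∀ q : ℕ, q.Prime → q ^ n.factorization q ≤ b) : m ≤ b ^ N := by
  have hm0 : m ≠ 0 := by
    rintro rfl
    exact hn.ne' (Nat.eq_zero_of_zero_dvd hmn)
  have hb1 : 1 ≤ b := (Nat.one_le_iff_ne_zero.2 (pow_ne_zero _ two_ne_zero)).trans (hb 2 Nat.prime_two)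
  have h1 : ∏ q ∈ m.primeFactors, q ^ m.factorization q = m := by
    rw [← Nat.support_factorization]
    exact Nat.prod_factorization_pow_eq_self hm0
  have hcard : m.primeFactors.card ≤ N := by
    have hsub : m.primeFactors ⊆ Finset.Icc 1 N := by
      intro q hq
      have hq1 := Nat.prime_of_mem_primeFactors hq
      exact Finset.mem_Icc.2 ⟨hq1.one_lt.le, hm q hq1 (Nat.dvd_of_mem_primeFactors hq)⟩
    have h2 := Finset.card_le_card hsub
    rwa [Nat.card_Icc, Nat.add_sub_cancel] at h2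
  calc m = ∏ q ∈ m.primeFactors, q ^ m.factorization q := h1.symm
    _ ≤ ∏ _q ∈ m.primeFactors, b := by
        refine Finset.prod_le_prod (fun _ _ => Nat.zero_le _) fun q hq => ?_
        have hq1 := Nat.prime_of_mem_primeFactors hq
        refine (Nat.pow_le_pow_right hq1.one_lt.le ?_).trans (hb q hq1)
        exact (Nat.factorization_le_iff_dvd hm0 hn.ne').2 hmn q
    _ = b ^ m.primeFactors.card := by rw [Finset.prod_const]
    _ ≤ b ^ N := Nat.pow_le_pow_right hb1 hcard
-- END idx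

-- BEGIN cle
/-- PROOF. `Y` from `exists_hall`: `|Y| ≤ b = (2 ^ 14) ^ finrank` (`sub_bound`), `Y.index ≤ b ^ N` (`le_of_primes` with `n = |H|`; for a Sylow `q`-subgroup `Q` (`Sylow.card_eq_multiplicity`) `q ^ factorization = |Q| ≤ b` by `sub_bound`, `Q` is nilpotent, so solvable). -/
theorem card_le (ρ : H →* Module.End F V) (hinj : Function.Injective ρ) (hF : (Nat.card H : F) ≠ 0) (hG : Gal ρ) {N : ℕ}
    (hN : Cf N H) : Nat.card H ≤ ((2 ^ 14) ^ Module.finrank F V) ^ (N + 1) := by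
  obtain ⟨Y, hY, -, hYi⟩ := exists_hall N (Nat.card H) H rfl hN
  have h1 : Nat.card Y ≤ (2 ^ 14) ^ Module.finrank F V := sub_bound ρ hinj hF hG Y hY
  have h2 : Y.index ≤ ((2 ^ 14) ^ Module.finrank F V) ^ N := by
    refine le_of_primes (n := Nat.card H) Nat.card_pos Y.index_dvd_card hYi ?_
    intro q hq
    haveI : Fact q.Prime := ⟨hq⟩
    obtain ⟨Q⟩ : Nonempty (Sylow q H) := inferInstance
    haveI : Group.IsNilpotent (Q : Subgroup H) := IsPGroup.isNilpotent Q.isPGroup'
    have h3 : Group.IsSolvable (Q : Subgroup H) := inferInstance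
    have h4 := sub_bound ρ hinj hF hG (Q : Subgroup H) h3
    rwa [Sylow.card_eq_multiplicity] at h4
  calc Nat.card H = Nat.card Y * Y.index := (Y.card_mul_index).symm
    _ ≤ (2 ^ 14) ^ Module.finrank F V * ((2 ^ 14) ^ Module.finrank F V) ^ N := Nat.mul_le_mul h1 h2
    _ = ((2 ^ 14) ^ Module.finrank F V) ^ (N + 1) := (pow_succ' _ _).symm
-- END cle

end

-- BEGIN thp
/-- THEOREM P. PROOF. `r ≤ N`: clear. Otherwise `exists_top`, `exists_mod`: `H = f G` is rational (`Rat.map`) with `Cf N H` (`Cf.map`), `exists_rep`; `n = finrank V > 0` as `E` is nontrivial; `r ^ n = |E| ≤ |H| ^ 2 ≤ (2 ^ (14 n (N + 1))) ^ 2 = (2 ^ (28 (N + 1))) ^ n`. -/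
theorem prime_bound {G : Type} [Group G] [Finite G] (hG : Rat G) {N : ℕ} (hN : 5 ≤ N) (h : Cf N G) {r : ℕ} (hr : r.Prime)
    (hd : r ∣ Nat.card G) : r ≤ 2 ^ (28 * (N + 1)) := by
  rcases Nat.lt_or_ge N r with hNr | hNr
  swap
  · calc r ≤ N := hNr
      _ ≤ 28 * (N + 1) := by omega
      _ ≤ 2 ^ (28 * (N + 1)) := Nat.lt_two_pow_self.le
  obtain ⟨M, K, hM, hK, hlt, hi, hab, hpow⟩ := exists_top h hr hNr hd
  obtain ⟨H, E, _, _, _, _, _, f, hf, hE, hrE, hfa, hrH, hl⟩ := exists_mod hr hG hM hK hlt hi hab hpow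
  have hHr : Rat H := Rat.map f hf hG
  have hHc : Cf N H := Cf.map f hf h
  obtain ⟨F, V, _, _, _, _, _, ρ, hinj, hF, hGal, hcard⟩ := exists_rep hfa hr hrE hHr hrH
  have h1 := card_le ρ hinj hF hGal hHc
  have h2 := card_le_sq hr (by omega) hrE hHr hl
  have hn : Module.finrank F V ≠ 0 := by
    intro h0
    rw [h0, pow_zero] at hcard
    have := Finite.one_lt_card_iff_nontrivial.2 hE
    omega
  have h3 : r ^ Module.finrank F V ≤ (2 ^ (28 * (N + 1))) ^ Module.finrank F V := by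
    calc r ^ Module.finrank F V = Nat.card E := hcard.symm
      _ ≤ Nat.card H ^ 2 := h2
      _ ≤ (((2 ^ 14) ^ Module.finrank F V) ^ (N + 1)) ^ 2 := Nat.pow_le_pow_left h1 2
      _ = (2 ^ (28 * (N + 1))) ^ Module.finrank F V := by
        rw [← pow_mul, ← pow_mul, ← pow_mul, ← pow_mul]
        congr 1
        ring
  by_contra hcon
  push Not at hcon
  exact absurd (Nat.pow_lt_pow_left hcon hn) (not_lt.2 h3)
-- END thp

end Pool.Agent.Prb
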