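import Pool.Agent.Prb.Num

/-!
# Abelian groups
-/

set_option autoImplicit false

namespace Pool.Agent.Prb

section

variable {F V A : Type} [Field F] [AddCommGroup V] [Module F V] [Group A]

-- BEGIN wsi
/-- PROOF. Common eigenspaces with different eigenvalue functions are independent (induction on a finite set of characters: if `∑ v_θ = 0`, apply `ρ a - θ₁ a`), or `Module.End.independent_iInf_eigenspace` (a similar name) for the family `ρ`. -/
theorem ws_indep (ρ : A →* Module.End F V) : iSupIndep (fun θ : A →* Fˣ => ws ρ θ) := by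
  classical
  rw [iSupIndep_iff_finsetSum_eq_zero_imp_eq_zero]
  intro s
  induction s using Finset.induction_on with
  | empty => intro v _ _ i hi; simp at hi
  | insert θ₀ s h0 ih =>
    intro v hv hsum
    have key : ∀ θ ∈ s, v θ = 0 := by
      intro θ hθ
      have hne : θ ≠ θ₀ := fun e => h0 (e ▸ hθ)
      obtain ⟨a, ha⟩ : ∃ a, θ a ≠ θ₀ a := by
        by_contra hcon
        push Not at hcon
        exact hne (MonoidHom.ext hcon)
      have e : ∑ χ ∈ insert θ₀ s, ((χ a : F) - (θ₀ a : F)) • v χ = 0 := by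
        have e1 : ∀ χ ∈ insert θ₀ s, ((χ a : F) - (θ₀ a : F)) • v χ = ρ a (v χ) - (θ₀ a : F) • v χ := by
          intro χ hχ
          rw [sub_smul, (mem_ws.mp (hv χ hχ)) a]
        rw [Finset.sum_congr rfl e1, Finset.sum_sub_distrib, ← map_sum, ← Finset.smul_sum, hsum,
          map_zero, smul_zero, sub_zero]
      rw [Finset.sum_insert h0, sub_self, zero_smul, zero_add] at e
      have := ih (fun χ => ((χ a : F) - (θ₀ a : F)) • v χ)
        (fun χ hχ => (ws ρ χ).smul_mem _ (hv χ (Finset.mem_insert_of_mem hχ))) e θ hθ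
      rcases smul_eq_zero.mp this with h | h
      · exact absurd (Units.ext (sub_eq_zero.mp h)) ha
      · exact h
    intro θ hθ
    rcases Finset.mem_insert.mp hθ with rfl | h
    · rw [Finset.sum_insert h0, Finset.sum_eq_zero key, add_zero] at hsum
      exact hsum
    · exact key θ h
-- END wsi

-- BEGIN wst
private theorem wst_semi [IsAlgClosed F] [FiniteDimensional F V] [Finite A] (ρ : A →* Module.End F V)
    (hF : (Nat.card A : F) ≠ 0) (a : A) : (ρ a).IsSemisimple := by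
  apply Module.End.isSemisimple_of_squarefree_aeval_eq_zero (p := Polynomial.X ^ Nat.card A - 1)
  · exact (Polynomial.X_pow_sub_one_separable_iff.2 hF).squarefree
  · rw [map_sub, map_pow, Polynomial.aeval_X, ← map_pow, pow_card_eq_one', map_one, map_one, sub_self]

private theorem wst_char (ρ : A →* Module.End F V) (χ : A → F) (v : V) (hv : v ≠ 0)
    (h : ∀ a, ρ a v = χ a • v) : ∃ θ : A →* Fˣ, ∀ a, (θ a : F) = χ a := by
  have hinj : ∀ x y : F, x • v = y • v → x = y := by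
    intro x y hxy
    exact smul_left_injective F hv hxy
  let f : A →* F :=
    { toFun := χ
      map_one' := by
        apply hinj
        rw [← h 1, map_one, one_smul, Module.End.one_apply]
      map_mul' := by
        intro a b
        apply hinj
        rw [← h (a * b), map_mul, Module.End.mul_apply, h b, map_smul, h a, smul_smul, mul_comm] }
  refine ⟨f.toHomUnits, fun a => ?_⟩
  rw [MonoidHom.coe_toHomUnits]
  rfl

/-- PROOF. Every `ρ a` satisfies `X ^ |A| - 1`, which is separable and splits, so `ρ a` is semisimple (diagonalizable), and the `ρ a` commute: `Module.End.iSup_iInf_maxGenEigenspace_eq_top_of_forall_mapsTo` / `LinearMap.iSup_iInf_eq_top_of_commute` or a direct induction;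
a nonzero common eigenvector `v` gives the character `θ` with `ρ a v = θ a • v` (`θ a ≠ 0` since `ρ a` is invertible). Or: the idempotents `(1 / |A|) ∑ a, θ a⁻¹ • ρ a`, whose sum over all the characters is `1` (Mathlib: duality for finite commutative groups,
`CommGroup.exists_apply_ne_one_of_hasEnoughRootsOfUnity`). -/
theorem ws_top [IsAlgClosed F] [FiniteDimensional F V] [Finite A] (hc : ∀ a b : A, a * b = b * a) (ρ : A →* Module.End F V)
    (hF : (Nat.card A : F) ≠ 0) : ⨆ θ : A →* Fˣ, ws ρ θ = ⊤ := by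
  have h1 := Module.End.iSup_iInf_maxGenEigenspace_eq_top_of_iSup_maxGenEigenspace_eq_top_of_commute
    (fun a : A => ρ a) (fun a b _ => by
      show ρ a * ρ b = ρ b * ρ a
      rw [← map_mul, ← map_mul, hc]) (fun a => Module.End.iSup_maxGenEigenspace_eq_top (ρ a))
  rw [eq_top_iff, ← h1]
  apply iSup_le
  intro χ v hv
  rcases eq_or_ne v 0 with rfl | hv0
  · exact zero_mem _
  have h2 : ∀ a, ρ a v = χ a • v := by
    intro a
    have h3 := (Submodule.mem_iInf _).1 hv a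
    rw [(wst_semi ρ hF a).isFinitelySemisimple.maxGenEigenspace_eq_eigenspace] at h3
    exact Module.End.mem_eigenspace_iff.1 h3
  obtain ⟨θ, hθ⟩ := wst_char ρ χ v hv0 h2
  apply Submodule.mem_iSup_of_mem θ
  intro a
  rw [h2 a, hθ a]
-- END wst

-- BEGIN wts
private theorem wts_gen {ι : Type} [DecidableEq ι] (p : ι → Submodule F V) [FiniteDimensional F V] (hp : iSupIndep p) (S : Finset ι) :
    Module.finrank F (⨆ i ∈ S, p i : Submodule F V) = ∑ i ∈ S, Module.finrank F (p i) := by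
  induction S using Finset.induction_on with
  | empty => simp
  | insert i S hi ih =>
    rw [Finset.iSup_insert, Finset.sum_insert hi, ← ih]
    have h1 : Disjoint (p i) (⨆ j ∈ S, p j) := by
      refine (hp i).mono_right ?_
      refine iSup₂_le ?_
      intro j hj
      exact le_iSup₂_of_le j (fun h => hi (h ▸ hj)) le_rfl
    have h2 := Submodule.finrank_sup_add_finrank_inf_eq (p i) (⨆ j ∈ S, p j)
    rw [h1.eq_bot, finrank_bot, add_zero] at h2
    exact h2

open Classical in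
private theorem wts_eig (ρ : A →* Module.End F V) (Θ : Finset (A →* Fˣ)) (hΘ : (⨆ θ ∈ Θ, ws ρ θ : Submodule F V) = ⊤)
    (a : A) (ζ : F) : Module.End.eigenspace (ρ a) ζ = ⨆ θ ∈ Θ.filter (fun θ => (θ a : F) = ζ), ws ρ θ := by
  have hle : ∀ θ : A →* Fˣ, ws ρ θ ≤ Module.End.eigenspace (ρ a) (θ a : F) := by
    intro θ v hv
    exact Module.End.mem_eigenspace_iff.2 (hv a)
  have hge : (⨆ θ ∈ Θ.filter (fun θ => (θ a : F) = ζ), ws ρ θ) ≤ Module.End.eigenspace (ρ a) ζ := by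
    refine iSup₂_le ?_
    intro θ hθ
    have h1 := (Finset.mem_filter.1 hθ).2
    have h2 := hle θ
    rwa [h1] at h2
  refine le_antisymm ?_ hge
  intro v hv
  have h1 : v ∈ (⨆ θ ∈ Θ.filter (fun θ => (θ a : F) = ζ), ws ρ θ) ⊔ (⨆ θ ∈ Θ.filter (fun θ => ¬ (θ a : F) = ζ), ws ρ θ) := by
    have h2 : (⊤ : Submodule F V) ≤ (⨆ θ ∈ Θ.filter (fun θ => (θ a : F) = ζ), ws ρ θ) ⊔ (⨆ θ ∈ Θ.filter (fun θ => ¬ (θ a : F) = ζ), ws ρ θ) := by
      rw [← hΘ]
      refine iSup₂_le ?_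
      intro θ hθ
      by_cases h : (θ a : F) = ζ
      · exact le_sup_of_le_left (le_iSup₂_of_le θ (Finset.mem_filter.2 ⟨hθ, h⟩) le_rfl)
      · exact le_sup_of_le_right (le_iSup₂_of_le θ (Finset.mem_filter.2 ⟨hθ, h⟩) le_rfl)
    exact h2 Submodule.mem_top
  obtain ⟨x, hx, y, hy, hxy⟩ := Submodule.mem_sup.1 h1
  have h3 : y ∈ Module.End.eigenspace (ρ a) ζ := by
    have h4 : y = v - x := by rw [← hxy]; abel
    rw [h4]
    exact Submodule.sub_mem _ hv (hge hx)
  have h5 : (⨆ θ ∈ Θ.filter (fun θ => ¬ (θ a : F) = ζ), ws ρ θ) ≤ ⨆ μ, ⨆ (_ : μ ≠ ζ), Module.End.eigenspace (ρ a) μ := by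
    refine iSup₂_le ?_
    intro θ hθ
    exact le_iSup₂_of_le (θ a : F) (Finset.mem_filter.1 hθ).2 (hle θ)
  have h6 : y = 0 := by
    have h7 := (Submodule.disjoint_def.1 (Module.End.eigenspaces_iSupIndep (ρ a) ζ)) y h3 (h5 hy)
    exact h7
  rw [← hxy, h6, add_zero]
  exact hx

open Classical in
/-- PROOF. `ws_indep`, `ws_top`: only finitely many `ws ρ θ` are not `⊥` (`WellFoundedGT.finite_ne_bot_of_iSupIndep`), `DirectSum.IsInternal`, `Submodule.finrank..`; the eigenspace of `ρ a` for `ζ` is the sum of the `ws ρ θ` with `θ a = ζ`. -/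
theorem exists_wts [IsAlgClosed F] [FiniteDimensional F V] [Finite A] (hc : ∀ a b : A, a * b = b * a) (ρ : A →* Module.End F V)
    (hF : (Nat.card A : F) ≠ 0) : ∃ Θ : Finset (A →* Fˣ), (∀ θ, θ ∈ Θ ↔ ws ρ θ ≠ ⊥) ∧
      ∑ θ ∈ Θ, Module.finrank F (ws ρ θ) = Module.finrank F V ∧
      ∀ (a : A) (ζ : F), Module.finrank F (Module.End.eigenspace (ρ a) ζ) =
        ∑ θ ∈ Θ, if (θ a : F) = ζ then Module.finrank F (ws ρ θ) else 0 := by
  have hfin := WellFoundedGT.finite_ne_bot_of_iSupIndep (ws_indep ρ)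
  have hmem : ∀ θ, θ ∈ hfin.toFinset ↔ ws ρ θ ≠ ⊥ := by
    intro θ
    exact hfin.mem_toFinset
  have htop : (⨆ θ ∈ hfin.toFinset, ws ρ θ : Submodule F V) = ⊤ := by
    rw [eq_top_iff, ← ws_top hc ρ hF]
    refine iSup_le ?_
    intro θ
    by_cases h : ws ρ θ = ⊥
    · rw [h]; exact bot_le
    · exact le_iSup₂_of_le θ ((hmem θ).2 h) le_rfl
  refine ⟨hfin.toFinset, hmem, ?_, ?_⟩
  · rw [← wts_gen _ (ws_indep ρ), htop, finrank_top]
  · intro a ζ
    rw [wts_eig ρ _ htop a ζ, wts_gen _ (ws_indep ρ), Finset.sum_filter]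
-- END wts

-- BEGIN wfa
/-- PROOF. `ρ a` is the identity on every `ws ρ θ`, and they span `V` (`ws_top`). -/
theorem ws_faithful [IsAlgClosed F] [FiniteDimensional F V] [Finite A] (hc : ∀ a b : A, a * b = b * a) (ρ : A →* Module.End F V)
    (hF : (Nat.card A : F) ≠ 0) (a : A) (h : ∀ θ : A →* Fˣ, ws ρ θ ≠ ⊥ → θ a = 1) : ρ a = 1 := by
  have h1 : (⊤ : Submodule F V) ≤ LinearMap.ker (ρ a - 1) := by
    rw [← ws_top hc ρ hF, iSup_le_iff]
    intro θ v hv
    rw [LinearMap.mem_ker, LinearMap.sub_apply, Module.End.one_apply, sub_eq_zero]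
    by_cases hb : ws ρ θ = ⊥
    · rw [hb, Submodule.mem_bot] at hv
      rw [hv, map_zero]
    · rw [mem_ws.1 hv a, h θ hb, Units.val_one, one_smul]
  refine LinearMap.ext fun v => ?_
  have h2 := h1 (Submodule.mem_top (x := v))
  rw [LinearMap.mem_ker, LinearMap.sub_apply, sub_eq_zero] at h2
  exact h2
-- END wfa

-- BEGIN iot
/-- PROOF. Both groups are cyclic; a cyclic group of order `d ∣ m` embeds in the cyclic group `rootsOfUnity m ℂ` of order `m`. -/
theorem exists_lift (F : Type) [Field F] (m : ℕ) (hm : 0 < m) : ∃ ι : rootsOfUnity m F →* ℂˣ, Function.Injective ι := by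
  have : NeZero m := ⟨hm.ne'⟩
  have h1 : IsCyclic (rootsOfUnity m F) := inferInstance
  have h2 : Finite (rootsOfUnity m F) := inferInstance
  have hd : 0 < Nat.card (rootsOfUnity m F) := Nat.card_pos
  have : NeZero (Nat.card (rootsOfUnity m F)) := ⟨hd.ne'⟩
  have h3 : Nat.card (rootsOfUnity m F) =
      Nat.card (rootsOfUnity (Nat.card (rootsOfUnity m F)) ℂ) := by
    exact (HasEnoughRootsOfUnity.natCard_rootsOfUnity ℂ _).symm
  let e : rootsOfUnity m F ≃* rootsOfUnity (Nat.card (rootsOfUnity m F)) ℂ :=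
    mulEquivOfCyclicCardEq h3
  refine ⟨(rootsOfUnity (Nat.card (rootsOfUnity m F)) ℂ).subtype.comp e.toMonoidHom, ?_⟩
  intro x y hxy
  exact e.injective (Subtype.ext hxy)
-- END iot

-- BEGIN gcl
private theorem gcl_inj {G : Type*} [Group G] {m k : ℕ} (hk : k.Coprime m) {x : G} (h1 : x ^ m = 1) (h2 : x ^ k = 1) :
    x = 1 := by
  have h3 : orderOf x ∣ Nat.gcd k m := Nat.dvd_gcd (orderOf_dvd_of_pow_eq_one h2) (orderOf_dvd_of_pow_eq_one h1)
  rw [Nat.Coprime] at hk
  rw [hk] at h3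
  exact orderOf_eq_one_iff.1 (Nat.dvd_one.1 h3)

private theorem gcl_sum {F V A : Type} [Field F] [AddCommGroup V] [Module F V] [Group A] [IsAlgClosed F] [FiniteDimensional F V] [Finite A]
    (ρ : A →* Module.End F V) (hG : Gal ρ) {k : ℕ} (hk : k.Coprime (Nat.card A))
    (hroot : ∀ (θ : A →* Fˣ) (a : A), θ a ∈ rootsOfUnity (Nat.card A) F)
    (ι : rootsOfUnity (Nat.card A) F →* ℂˣ) (Θ : Finset (A →* Fˣ)) (a : A)
    (hE : ∀ ζ : F, Module.finrank F (Module.End.eigenspace (ρ a) ζ) =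
        ∑ θ ∈ Θ, open Classical in if (θ a : F) = ζ then Module.finrank F (ws ρ θ) else 0) :
    ∑ θ ∈ Θ, (Module.finrank F (ws ρ θ) : ℂ) * ((ι ⟨θ a, hroot θ a⟩ : ℂˣ) : ℂ) =
      ∑ θ ∈ Θ, (Module.finrank F (ws ρ θ) : ℂ) * ((ι ⟨θ a, hroot θ a⟩ : ℂˣ) : ℂ) ^ k := by
  classical
  have hm0 : 0 < Nat.card A := Nat.card_pos
  have : NeZero (Nat.card A) := ⟨hm0.ne'⟩
  letI : Fintype (rootsOfUnity (Nat.card A) F) := Fintype.ofFinite _
  let n : rootsOfUnity (Nat.card A) F → ℕ := fun ζ =>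
    Module.finrank F (Module.End.eigenspace (ρ a) ((ζ : Fˣ) : F))
  have key : ∀ f : rootsOfUnity (Nat.card A) F → ℂ,
      ∑ θ ∈ Θ, (Module.finrank F (ws ρ θ) : ℂ) * f ⟨θ a, hroot θ a⟩ = ∑ ζ, (n ζ : ℂ) * f ζ := by
    intro f
    have h1 : ∀ ζ : rootsOfUnity (Nat.card A) F, (n ζ : ℂ) * f ζ =
        ∑ θ ∈ Θ, if (⟨θ a, hroot θ a⟩ : rootsOfUnity (Nat.card A) F) = ζ then
          (Module.finrank F (ws ρ θ) : ℂ) * f ζ else 0 := by
      intro ζ
      show ((Module.finrank F (Module.End.eigenspace (ρ a) ((ζ : Fˣ) : F)) : ℕ) : ℂ) * f ζ = _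
      rw [hE, Nat.cast_sum, Finset.sum_mul]
      refine Finset.sum_congr rfl fun θ _ => ?_
      by_cases h : (θ a : F) = ((ζ : Fˣ) : F)
      · have h' : (⟨θ a, hroot θ a⟩ : rootsOfUnity (Nat.card A) F) = ζ := Subtype.ext (Units.ext h)
        rw [if_pos h, if_pos h']
      · have h' : ¬ (⟨θ a, hroot θ a⟩ : rootsOfUnity (Nat.card A) F) = ζ := by
          intro h2
          apply h
          rw [← h2]
        rw [if_neg h, if_neg h', Nat.cast_zero, zero_mul]
    rw [Finset.sum_congr rfl fun ζ _ => h1 ζ, Finset.sum_comm]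
    refine Finset.sum_congr rfl fun θ _ => ?_
    rw [Finset.sum_ite_eq Finset.univ, if_pos (Finset.mem_univ _)]
  have hn : ∀ ζ : rootsOfUnity (Nat.card A) F, n (ζ ^ k) = n ζ := by
    intro ζ
    have hζm : ((ζ : Fˣ)) ^ Nat.card A = 1 := (mem_rootsOfUnity _ _).1 ζ.2
    by_cases h1 : ((ζ : Fˣ)) ^ orderOf a = 1
    · have h2 : (((ζ : Fˣ) : F)) ^ orderOf a = 1 := by
        rw [← Units.val_pow_eq_pow_val, h1, Units.val_one]
      have h3 := hG a k (Nat.Coprime.coprime_dvd_right (orderOf_dvd_natCard a) hk) _ h2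
      show Module.finrank F (Module.End.eigenspace (ρ a) (((ζ ^ k : rootsOfUnity (Nat.card A) F) : Fˣ) : F)) = _
      have h4 : (((ζ ^ k : rootsOfUnity (Nat.card A) F) : Fˣ) : F) = ((ζ : Fˣ) : F) ^ k := by
        rw [← Units.val_pow_eq_pow_val]
        rfl
      rw [h4]
      exact h3
    · have hθ : ∀ (θ : A →* Fˣ) (z : Fˣ), (θ a : F) = (z : F) → z ^ orderOf a = 1 := by
        intro θ z h
        have h2 : θ a = z := Units.ext h
        rw [← h2, ← map_pow, pow_orderOf_eq_one, map_one]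
      have h0 : n ζ = 0 := by
        show Module.finrank F (Module.End.eigenspace (ρ a) ((ζ : Fˣ) : F)) = 0
        rw [hE]
        refine Finset.sum_eq_zero fun θ _ => if_neg fun h => h1 (hθ θ _ h)
      have h0' : n (ζ ^ k) = 0 := by
        show Module.finrank F (Module.End.eigenspace (ρ a) (((ζ ^ k : rootsOfUnity (Nat.card A) F) : Fˣ) : F)) = 0
        rw [hE]
        refine Finset.sum_eq_zero fun θ _ => if_neg fun h => h1 ?_
        have h2 : (((ζ : Fˣ)) ^ k) ^ orderOf a = 1 := hθ θ _ h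
        refine gcl_inj hk ?_ ?_
        · rw [← pow_mul, mul_comm, pow_mul, hζm, one_pow]
        · rw [← pow_mul, mul_comm, pow_mul, h2]
      rw [h0, h0']
  rw [key (fun ζ => ((ι ζ : ℂˣ) : ℂ)), key (fun ζ => ((ι ζ : ℂˣ) : ℂ) ^ k)]
  have hinj : Function.Injective (fun ζ : rootsOfUnity (Nat.card A) F => ζ ^ k) := by
    have h1 : Function.Injective (powMonoidHom k : rootsOfUnity (Nat.card A) F →* rootsOfUnity (Nat.card A) F) := by
      rw [injective_iff_map_eq_one]
      intro ζ hζ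
      refine gcl_inj hk ?_ hζ
      exact Subtype.ext ((mem_rootsOfUnity _ _).1 ζ.2)
    exact h1
  have hbij : Function.Bijective (fun ζ : rootsOfUnity (Nat.card A) F => ζ ^ k) :=
    Finite.injective_iff_bijective.1 hinj
  have h2 := Fintype.sum_bijective (fun ζ : rootsOfUnity (Nat.card A) F => ζ ^ k) hbij
    (fun ζ => (n ζ : ℂ) * ((ι ζ : ℂˣ) : ℂ) ^ k) (fun ζ => (n ζ : ℂ) * ((ι ζ : ℂˣ) : ℂ)) (by
      intro ζ
      rw [hn ζ, map_pow, Units.val_pow_eq_pow_val])
  exact h2.symm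

/-- PROOF. Let `m = |A|`, `Θ` as in `exists_wts`, `m θ = finrank (ws ρ θ)`, `ι` from `exists_lift`; all values `θ a` are in `rootsOfUnity m F`. For `a : A`: `∑ θ ∈ Θ, m θ * ι (θ a) = ∑ ζ ∈ μ_m, ι ζ * finrank (eigenspace (ρ a) ζ)` and, by `Gal` (`k` is coprime to `orderOf a`) and since `ζ ↦ ζ ^ k` is a bijection of `μ_m`,
this is equal to `∑ ζ, ι (ζ ^ k) * finrank (eigenspace (ρ a) (ζ ^ k)) = ∑ ζ, ι ζ ^ k * finrank (eigenspace (ρ a) ζ) = ∑ θ ∈ Θ, m θ * ι (θ a) ^ k`. So the characters `ι ∘ θ` (different for different `θ`) and `(ι ∘ θ) ^ k` satisfy a linear relation on `A`: by `linearIndependent_monoidHom` the coefficient of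
`ι ∘ θ ^ k` on the right, which is at least `m θ > 0`, is the coefficient on the left, so `θ ^ k ∈ Θ`. -/
theorem gal_closed [IsAlgClosed F] [FiniteDimensional F V] [Finite A] (hc : ∀ a b : A, a * b = b * a) (ρ : A →* Module.End F V)
    (hF : (Nat.card A : F) ≠ 0) (hG : Gal ρ) {θ : A →* Fˣ} (hθ : ws ρ θ ≠ ⊥) {k : ℕ} (hk : k.Coprime (Nat.card A)) :
    ws ρ (θ ^ k) ≠ ⊥ := by
  classical
  obtain ⟨Θ, hΘ, -, hE⟩ := exists_wts hc ρ hF
  have hm0 : 0 < Nat.card A := Nat.card_pos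
  obtain ⟨ι, hι⟩ := exists_lift F (Nat.card A) hm0
  have hroot : ∀ (θ : A →* Fˣ) (a : A), θ a ∈ rootsOfUnity (Nat.card A) F := by
    intro θ a
    rw [mem_rootsOfUnity, ← map_pow, pow_card_eq_one', map_one]
  let χ : (A →* Fˣ) → (A →* ℂ) := fun θ =>
    (Units.coeHom ℂ).comp (ι.comp (θ.codRestrict (rootsOfUnity (Nat.card A) F) (hroot θ)))
  have hχ : ∀ θ a, χ θ a = ((ι ⟨θ a, hroot θ a⟩ : ℂˣ) : ℂ) := fun _ _ => rfl
  have hχinj : Function.Injective χ := by
    intro θ θ' h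
    refine MonoidHom.ext fun a => ?_
    have h1 := DFunLike.congr_fun h a
    rw [hχ, hχ] at h1
    have h2 := hι (Units.ext h1)
    exact congrArg Subtype.val h2
  have hli : LinearIndependent ℂ (fun θ : A →* Fˣ => (χ θ : A → ℂ)) :=
    (linearIndependent_monoidHom A ℂ).comp χ hχinj
  rw [linearIndependent_iff'] at hli
  rw [← hΘ]
  by_contra hnot
  have hθΘ : θ ∈ Θ := (hΘ θ).2 hθ
  let g : (A →* Fˣ) → ℂ := fun θ' => (if θ' ∈ Θ then (Module.finrank F (ws ρ θ') : ℂ) else 0) -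
    ∑ η ∈ Θ, if η ^ k = θ' then (Module.finrank F (ws ρ η) : ℂ) else 0
  have h0 := hli (Θ ∪ Θ.image fun η => η ^ k) g (by
    funext a
    have h1 := gcl_sum ρ hG hk hroot ι Θ a (fun ζ => by rw [hE a ζ])
    rw [Finset.sum_apply, Pi.zero_apply]
    have h2 : ∀ θ' : A →* Fˣ, (g θ' • (χ θ' : A → ℂ)) a =
        (if θ' ∈ Θ then (Module.finrank F (ws ρ θ') : ℂ) * χ θ' a else 0) -
        ∑ η ∈ Θ, if η ^ k = θ' then (Module.finrank F (ws ρ η) : ℂ) * χ θ' a else 0 := by
      intro θ'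
      show g θ' * χ θ' a = _
      show ((if θ' ∈ Θ then (Module.finrank F (ws ρ θ') : ℂ) else 0) -
        ∑ η ∈ Θ, if η ^ k = θ' then (Module.finrank F (ws ρ η) : ℂ) else 0) * χ θ' a = _
      rw [sub_mul, ite_mul, zero_mul, Finset.sum_mul]
      congr 1
      refine Finset.sum_congr rfl fun η _ => ?_
      rw [ite_mul, zero_mul]
    rw [Finset.sum_congr rfl fun θ' _ => h2 θ', Finset.sum_sub_distrib, Finset.sum_comm]
    have h3 : ∑ θ' ∈ Θ ∪ Θ.image (fun η => η ^ k),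
        (if θ' ∈ Θ then (Module.finrank F (ws ρ θ') : ℂ) * χ θ' a else 0) =
        ∑ θ' ∈ Θ, (Module.finrank F (ws ρ θ') : ℂ) * χ θ' a := by
      rw [← Finset.sum_filter]
      refine Finset.sum_congr ?_ fun _ _ => rfl
      ext x
      simp only [Finset.mem_filter, Finset.mem_union]
      tauto
    have h4 : ∑ η ∈ Θ, ∑ θ' ∈ Θ ∪ Θ.image (fun η => η ^ k),
        (if η ^ k = θ' then (Module.finrank F (ws ρ η) : ℂ) * χ θ' a else 0) =
        ∑ η ∈ Θ, (Module.finrank F (ws ρ η) : ℂ) * χ η a ^ k := by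
      refine Finset.sum_congr rfl fun η hη => ?_
      rw [Finset.sum_ite_eq, if_pos (Finset.mem_union_right _ (Finset.mem_image_of_mem _ hη))]
      congr 1
      rw [hχ, hχ, ← Units.val_pow_eq_pow_val, ← map_pow]
      rfl
    rw [h3, h4, sub_eq_zero]
    exact h1) (θ ^ k) (Finset.mem_union_right _ (Finset.mem_image_of_mem _ hθΘ))
  have h5 : (∑ η ∈ Θ, if η ^ k = θ ^ k then Module.finrank F (ws ρ η) else 0) = 0 := by
    have h6 : g (θ ^ k) = - ((∑ η ∈ Θ, if η ^ k = θ ^ k then Module.finrank F (ws ρ η) else 0 : ℕ) : ℂ) := by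
      show ((if θ ^ k ∈ Θ then (Module.finrank F (ws ρ (θ ^ k)) : ℂ) else 0) -
        ∑ η ∈ Θ, if η ^ k = θ ^ k then (Module.finrank F (ws ρ η) : ℂ) else 0) = _
      rw [if_neg hnot, zero_sub, Nat.cast_sum]
      congr 1
      refine Finset.sum_congr rfl fun η _ => ?_
      rw [Nat.cast_ite, Nat.cast_zero]
    rw [h6, neg_eq_zero] at h0
    exact_mod_cast h0
  have h7 := (Finset.sum_eq_zero_iff.1 h5) θ hθΘ
  rw [if_pos rfl] at h7
  exact hθ (Submodule.finrank_eq_zero.1 h7)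
-- END gcl

-- BEGIN ker
/-- PROOF. `A / ker θ` is isomorphic to the range of `θ`, which is a cyclic group (a finite subgroup of `Fˣ`); its order is its exponent, and this is the order of `θ` in the group `A →* Fˣ`. -/
theorem card_ker [Finite A] (θ : A →* Fˣ) : Nat.card A = orderOf θ * Nat.card θ.ker := by
  have hfin : Finite θ.range := Finite.of_surjective θ.rangeRestrict θ.rangeRestrict_surjective
  have hcyc : IsCyclic θ.range := inferInstance
  have h1 : orderOf θ = Nat.card θ.range := by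
    refine Nat.dvd_antisymm ?_ ?_
    · refine orderOf_dvd_of_pow_eq_one (MonoidHom.ext fun a => ?_)
      have h2 : (⟨θ a, ⟨a, rfl⟩⟩ : θ.range) ^ Nat.card θ.range = 1 := pow_card_eq_one'
      have h3 := congrArg Subtype.val h2
      exact h3
    · rw [← IsCyclic.exponent_eq_card]
      refine Monoid.exponent_dvd_of_forall_pow_eq_one ?_
      rintro ⟨x, a, rfl⟩
      refine Subtype.ext ?_
      exact DFunLike.congr_fun (pow_orderOf_eq_one θ) a
  rw [h1, ← Subgroup.index_ker, Subgroup.index_mul_card]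
-- END ker

-- BEGIN opw
private theorem opw_lift {r E : ℕ} (hE : 0 < E) (h : r ∣ E) {j : ℕ} (hj : j.Coprime r) :
    ∃ k : ℕ, k.Coprime E ∧ k ≡ j [MOD r] := by
  have : NeZero E := ⟨hE.ne'⟩
  obtain ⟨w, hw⟩ := ZMod.unitsMap_surjective h (ZMod.unitOfCoprime j hj)
  refine ⟨(w : ZMod E).val, ZMod.val_coe_unit_coprime w, ?_⟩
  rw [← ZMod.natCast_eq_natCast_iff]
  have h1 := congrArg (fun u : (ZMod r)ˣ => (u : ZMod r)) hw
  simp only [ZMod.unitsMap_val, ZMod.coe_unitOfCoprime] at h1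
  rw [← h1, ZMod.natCast_val]

/-- PROOF. `r = orderOf θ ∣ E`. The `θ ^ j`, `j < r` coprime to `r`, are different; for each such `j` there is `k ≡ j` modulo `r` which is coprime to `E` (`ZMod.unitsMap_surjective` or `Nat.exists_..`), and `θ ^ k = θ ^ j`. -/
theorem card_pows {G : Type} [Group G] (θ : G) (E : ℕ) (hE : 0 < E) (h : orderOf θ ∣ E) (S : Finset G)
    (hS : ∀ k : ℕ, k.Coprime E → θ ^ k ∈ S) : ∃ T ⊆ S, T.card = Nat.totient (orderOf θ) ∧ ∀ x, x ∈ T ↔ ∃ k : ℕ, k.Coprime E ∧ x = θ ^ k := by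
  classical
  have hr : 0 < orderOf θ := Nat.pos_of_dvd_of_pos h hE
  have key : ∀ x, x ∈ ((Finset.range (orderOf θ)).filter (orderOf θ).Coprime).image (fun j => θ ^ j) ↔
      ∃ k : ℕ, k.Coprime E ∧ x = θ ^ k := by
    intro x
    rw [Finset.mem_image]
    constructor
    · rintro ⟨j, hj, rfl⟩
      obtain ⟨k, hk, hkj⟩ := opw_lift hE h (Finset.mem_filter.1 hj).2.symm
      exact ⟨k, hk, (pow_eq_pow_iff_modEq.2 hkj).symm⟩
    · rintro ⟨k, hk, rfl⟩
      refine ⟨k % orderOf θ, Finset.mem_filter.2 ⟨Finset.mem_range.2 (Nat.mod_lt _ hr), ?_⟩, pow_mod_orderOf θ k⟩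
      have h1 : k.Coprime (orderOf θ) := Nat.Coprime.coprime_dvd_right h hk
      rw [Nat.Coprime, Nat.gcd_comm, ← Nat.gcd_rec, Nat.gcd_comm]
      exact h1
  refine ⟨_, fun x hx => ?_, ?_, key⟩
  · obtain ⟨k, hk, rfl⟩ := (key x).1 hx
    exact hS k hk
  · rw [Finset.card_image_of_injOn, Nat.totient_eq_card_coprime]
    intro a ha b hb hab
    exact pow_injOn_Iio_orderOf (Set.mem_Iio.2 (Finset.mem_range.1 (Finset.mem_filter.1 (Finset.mem_coe.1 ha)).1))
      (Set.mem_Iio.2 (Finset.mem_range.1 (Finset.mem_filter.1 (Finset.mem_coe.1 hb)).1)) hab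
-- END opw

end

-- BEGIN acd
/-- PROOF. Induction on `Θ.card` for all `A`. If all `θ ∈ Θ` are trivial then `A` is trivial (`hsep`). Otherwise `θ ∈ Θ`, `θ ≠ 1`, `r = orderOf θ`, `A₁ = θ.ker`, `|A| = r * |A₁|` (`card_ker`); `T` from `card_pows` (`orderOf θ ∣ Nat.card A ∣ E`), `Θ₁` = the restrictions to `A₁` of the elements of `Θ \ T`: separates the points of `A₁`
(the elements of `T` are trivial on `A₁`), and is closed under `k`-th powers (if `θ' ^ k ∈ T`, take `l` with `k * l ≡ 1` modulo `E`: `θ' = (θ' ^ k) ^ l ∈ T`). `|A| ≤ r * 4 ^ (Θ.card - φ r) ≤ 4 ^ Θ.card` by `le_totient`. -/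
theorem card_le_of_closed {F : Type} [Field F] (E : ℕ) (hE : 0 < E) : ∀ (n : ℕ) (A : Type) [Group A] [Finite A], (∀ a b : A, a * b = b * a) →
    Nat.card A ∣ E → ∀ Θ : Finset (A →* Fˣ), Θ.card = n → (∀ a : A, (∀ θ ∈ Θ, θ a = 1) → a = 1) →
      (∀ θ ∈ Θ, ∀ k : ℕ, k.Coprime E → θ ^ k ∈ Θ) → Nat.card A ≤ 4 ^ n := by
  classical
  intro n
  induction n using Nat.strong_induction_on with
  | _ n ih =>
  intro A _ _ hc hAE Θ hn hsep hcl
  by_cases htriv : ∀ θ ∈ Θ, θ = 1
  · have h1 : Subsingleton A := ⟨fun a b => by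
      rw [hsep a (fun θ hθ => by rw [htriv θ hθ]; rfl), hsep b (fun θ hθ => by rw [htriv θ hθ]; rfl)]⟩
    rw [Nat.card_of_subsingleton (1 : A)]
    exact Nat.one_le_pow _ _ (by norm_num)
  · push Not at htriv
    obtain ⟨θ, hθ, hθ1⟩ := htriv
    have hker := card_ker θ
    have hrA : orderOf θ ∣ Nat.card A := ⟨_, hker⟩
    have hrE : orderOf θ ∣ E := hrA.trans hAE
    obtain ⟨T, hTΘ, hTc, hT⟩ := card_pows θ E hE hrE Θ (fun k hk => hcl θ hθ k hk)
    have hr0 : 0 < orderOf θ := Nat.pos_of_dvd_of_pos hrE hE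
    have hφ : 0 < Nat.totient (orderOf θ) := Nat.totient_pos.2 hr0
    let Θ₁ : Finset (θ.ker →* Fˣ) := (Θ \ T).image (fun χ => χ.comp θ.ker.subtype)
    have hc1 : Θ₁.card ≤ n - Nat.totient (orderOf θ) := by
      refine Finset.card_image_le.trans ?_
      rw [Finset.card_sdiff_of_subset hTΘ, hn, hTc]
    have hTn : Nat.totient (orderOf θ) ≤ n := by
      rw [← hTc, ← hn]
      exact Finset.card_le_card hTΘ
    have hlt : Θ₁.card < n := by omega
    have hTk : ∀ χ ∈ T, ∀ a : θ.ker, χ a = 1 := by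
      intro χ hχ a
      obtain ⟨k, _, rfl⟩ := (hT χ).1 hχ
      have h1 : θ (a : A) = 1 := a.2
      rw [MonoidHom.pow_apply, h1, one_pow]
    have hsep1 : ∀ a : θ.ker, (∀ χ ∈ Θ₁, χ a = 1) → a = 1 := by
      intro a ha
      have h1 : (a : A) = 1 := by
        apply hsep
        intro χ hχ
        by_cases h2 : χ ∈ T
        · exact hTk χ h2 a
        · exact ha _ (Finset.mem_image.2 ⟨χ, Finset.mem_sdiff.2 ⟨hχ, h2⟩, rfl⟩)
      exact Subtype.ext h1
    have hinvE : ∀ k : ℕ, k.Coprime E → ∃ l : ℕ, l.Coprime E ∧ (k * l) % E = 1 % E := by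
      intro k hk
      obtain ⟨l, hl⟩ : ∃ l : ℕ, (k * l) % E = 1 % E := by
        rcases Nat.lt_or_ge 1 E with h1 | h1
        · obtain ⟨l, _, hl⟩ := Nat.exists_mul_mod_eq_one_of_coprime hk h1
          exact ⟨l, by rw [hl, Nat.mod_eq_of_lt h1]⟩
        · have : E = 1 := by omega
          subst this
          exact ⟨0, by simp⟩
      refine ⟨l, ?_, hl⟩
      have h2 : Nat.gcd (k * l) E = 1 := by
        have h3 : Nat.gcd (k * l) E = Nat.gcd 1 E := Nat.ModEq.gcd_eq hl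
        rw [h3]
        exact Nat.gcd_one_left _
      exact Nat.Coprime.coprime_mul_left h2
    have hpowE : ∀ (χ : A →* Fˣ) (a : A), (χ a) ^ E = 1 := by
      intro χ a
      obtain ⟨c, hc'⟩ := hAE
      rw [hc', pow_mul, ← map_pow, pow_card_eq_one', map_one, one_pow]
    have hcl1 : ∀ χ ∈ Θ₁, ∀ k : ℕ, k.Coprime E → χ ^ k ∈ Θ₁ := by
      intro χ hχ k hk
      obtain ⟨ψ, hψ, rfl⟩ := Finset.mem_image.1 hχ
      obtain ⟨hψΘ, hψT⟩ := Finset.mem_sdiff.1 hψ
      refine Finset.mem_image.2 ⟨ψ ^ k, Finset.mem_sdiff.2 ⟨hcl ψ hψΘ k hk, ?_⟩, ?_⟩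
      · intro hmem
        apply hψT
        obtain ⟨j, hj, hj2⟩ := (hT _).1 hmem
        obtain ⟨l, hl, hkl⟩ := hinvE k hk
        rw [hT]
        refine ⟨j * l, Nat.Coprime.mul_left hj hl, ?_⟩
        refine MonoidHom.ext fun a => ?_
        have h3 : ψ a ^ k = θ a ^ j := by
          rw [← MonoidHom.pow_apply, hj2, MonoidHom.pow_apply]
        rw [MonoidHom.pow_apply, pow_mul, ← h3, ← pow_mul]
        have h4 : ψ a ^ (k * l) = ψ a ^ ((k * l) % E) := by
          conv_lhs => rw [← Nat.mod_add_div (k * l) E]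
          rw [pow_add, pow_mul, hpowE, one_pow, mul_one]
        have h5 : ψ a ^ 1 = ψ a ^ (1 % E) := by
          conv_lhs => rw [← Nat.mod_add_div 1 E]
          rw [pow_add, pow_mul, hpowE, one_pow, mul_one]
        rw [h4, hkl, ← h5, pow_one]
      · ext a
        rfl
    have hdvd : Nat.card θ.ker ∣ E := (Subgroup.card_subgroup_dvd_card θ.ker).trans hAE
    have h5 := ih Θ₁.card hlt θ.ker (fun a b => Subtype.ext (hc a b)) hdvd Θ₁ rfl hsep1 hcl1
    have h6 := le_totient (orderOf θ) hr0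
    rw [hker]
    calc orderOf θ * Nat.card θ.ker ≤ 4 ^ Nat.totient (orderOf θ) * 4 ^ (n - Nat.totient (orderOf θ)) :=
          Nat.mul_le_mul h6 (h5.trans (Nat.pow_le_pow_right (by norm_num) hc1))
      _ = 4 ^ n := by
          rw [← pow_add]
          congr 1
          omega
-- END acd

end Pool.Agent.Prb
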