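import Mathlib

/-!
# The primes dividing the order of a rational group with given nonabelian composition factors (MP_3a125c_al): definitions
-/

set_option autoImplicit false

namespace Pool.Agent.Prb

/-- Elements which generate the same cyclic subgroup are conjugate. -/
def Rat (G : Type*) [Group G] : Prop :=
  ∀ (x : G) (k : ℕ), k.Coprime (orderOf x) → ∃ g : G, g * x * g⁻¹ = x ^ k

/-- The prime divisors of the orders of the nonabelian composition factors are at most `N`. -/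
def Cf (N : ℕ) (G : Type*) [Group G] : Prop :=
  ∀ (K S L : Subgroup G) [K.Normal] [L.Normal], K ≤ S → S ≤ L → (∀ l ∈ L, ∀ s ∈ S, l * s * l⁻¹ ∈ S) →
    IsSimpleGroup (S ⧸ K.subgroupOf S) → (∃ a b : S ⧸ K.subgroupOf S, a * b ≠ b * a) →
    ∀ q : ℕ, q.Prime → q ∣ Nat.card (S ⧸ K.subgroupOf S) → q ≤ N

section

variable {F V Y : Type} [Field F] [AddCommGroup V] [Module F V] [Group Y]

/-- The multiplicities of the eigenvalues of all elements are invariant under the Galois group. -/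
def Gal (ρ : Y →* Module.End F V) : Prop :=
  ∀ (y : Y) (k : ℕ), k.Coprime (orderOf y) → ∀ ζ : F, ζ ^ orderOf y = 1 →
    Module.finrank F (Module.End.eigenspace (ρ y) (ζ ^ k)) = Module.finrank F (Module.End.eigenspace (ρ y) ζ)

/-- The weight space. -/
def ws (ρ : Y →* Module.End F V) (θ : Y →* Fˣ) : Submodule F V where
  carrier := {v | ∀ a : Y, ρ a v = (θ a : F) • v}
  add_mem' := by
    intro v w hv hw a
    rw [map_add, hv a, hw a, smul_add]
  zero_mem' := by
    intro a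
    rw [map_zero, smul_zero]
  smul_mem' := by
    intro c v hv a
    rw [map_smul, hv a, smul_comm]

theorem mem_ws {ρ : Y →* Module.End F V} {θ : Y →* Fˣ} {v : V} : v ∈ ws ρ θ ↔ ∀ a : Y, ρ a v = (θ a : F) • v := Iff.rfl

end

/-- `A` is a maximal abelian normal subgroup of `Y`, `D` is maximal among the normal subgroups of `Y` with `A ≤ D ≤ C(A)` and `⁅D, D⁆ ≤ A`. -/
structure AD {Y : Type} [Group Y] (A D : Subgroup Y) : Prop where
  nA : A.Normal
  cA : ∀ a ∈ A, ∀ b ∈ A, a * b = b * a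
  mA : ∀ B : Subgroup Y, B.Normal → (∀ a ∈ B, ∀ b ∈ B, a * b = b * a) → A ≤ B → B = A
  nD : D.Normal
  le : A ≤ D
  cD : ∀ x ∈ D, ∀ a ∈ A, x * a = a * x
  com : ∀ x ∈ D, ∀ y ∈ D, x * y * x⁻¹ * y⁻¹ ∈ A
  mD : ∀ E : Subgroup Y, E.Normal → D ≤ E → (∀ x ∈ E, ∀ a ∈ A, x * a = a * x) →
    (∀ x ∈ E, ∀ y ∈ E, x * y * x⁻¹ * y⁻¹ ∈ A) → E = D

end Pool.Agent.Prb
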