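import Pool.Agent.Prb.Prm
import Pool.Agent.Prb.Abl

/-!
# The order of a solvable linear group with Galois invariant multiplicities
-/

set_option autoImplicit false

namespace Pool.Agent.Prb

section

variable {Y : Type} [Group Y]

-- BEGIN adx
/-- PROOF. Maximal elements of finite sets of subgroups (`⊥` is abelian and normal; `A` itself is a candidate for `D`). -/
theorem exists_AD (Y : Type) [Group Y] [Finite Y] : ∃ A D : Subgroup Y, AD A D := by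
  obtain ⟨A, hA⟩ := (Set.toFinite {B : Subgroup Y | B.Normal ∧ ∀ a ∈ B, ∀ b ∈ B, a * b = b * a}).exists_maximal
    ⟨⊥, inferInstance, fun a ha b hb => by rw [Subgroup.mem_bot.1 ha, Subgroup.mem_bot.1 hb]⟩
  obtain ⟨⟨hAn, hAc⟩, hAm⟩ := hA
  obtain ⟨D, hD⟩ := (Set.toFinite {E : Subgroup Y | E.Normal ∧ A ≤ E ∧ (∀ x ∈ E, ∀ a ∈ A, x * a = a * x) ∧
    ∀ x ∈ E, ∀ y ∈ E, x * y * x⁻¹ * y⁻¹ ∈ A}).exists_maximal
    ⟨A, hAn, le_rfl, fun x hx a ha => hAc x hx a ha, fun x hx y hy =>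
      A.mul_mem (A.mul_mem (A.mul_mem hx hy) (A.inv_mem hx)) (A.inv_mem hy)⟩
  obtain ⟨⟨hDn, hDA, hDc, hDd⟩, hDm⟩ := hD
  exact ⟨A, D, { nA := hAn
                 cA := hAc
                 mA := fun B hB hBc hAB => le_antisymm (hAm ⟨hB, hBc⟩ hAB) hAB
                 nD := hDn
                 le := hDA
                 cD := hDc
                 com := hDd
                 mD := fun E hE hDE hEc hEd =>
                   le_antisymm (hDm ⟨hE, hDA.trans hDE, hEc, hEd⟩ hDE) hDE }⟩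
-- END adx

-- BEGIN zd
/-- PROOF. The center `Z` of `D` (as a subgroup of `Y`) is abelian, normal in `Y` and contains `A` (`cD`), so it is `A` (`mA`). -/
theorem AD.cen {A D : Subgroup Y} (h : AD A D) {x : Y} (hx : x ∈ D) (hc : ∀ y ∈ D, x * y = y * x) : x ∈ A := by
  let Z : Subgroup Y :=
    { carrier := {z | z ∈ D ∧ ∀ y ∈ D, z * y = y * z}
      mul_mem' := by
        rintro a b ⟨ha, ha'⟩ ⟨hb, hb'⟩
        refine ⟨D.mul_mem ha hb, fun y hy => ?_⟩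
        rw [mul_assoc, hb' y hy, ← mul_assoc, ha' y hy, mul_assoc]
      one_mem' := ⟨D.one_mem, fun y _ => by rw [one_mul, mul_one]⟩
      inv_mem' := by
        rintro a ⟨ha, ha'⟩
        refine ⟨D.inv_mem ha, fun y hy => ?_⟩
        rw [inv_mul_eq_iff_eq_mul, ← mul_assoc, ha' y hy, mul_assoc, mul_inv_cancel, mul_one] }
  have hmem : ∀ z, z ∈ Z ↔ z ∈ D ∧ ∀ y ∈ D, z * y = y * z := fun z => Iff.rfl
  have hZn : Z.Normal := by
    refine ⟨fun z hz g => ?_⟩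
    rw [hmem] at hz ⊢
    refine ⟨h.nD.conj_mem z hz.1 g, fun y hy => ?_⟩
    have h1 := hz.2 (g⁻¹ * y * g) (by simpa using h.nD.conj_mem y hy g⁻¹)
    calc g * z * g⁻¹ * y = g * (z * (g⁻¹ * y * g)) * g⁻¹ := by group
      _ = g * ((g⁻¹ * y * g) * z) * g⁻¹ := by rw [h1]
      _ = y * (g * z * g⁻¹) := by group
  have hZA : Z = A := h.mA Z hZn (fun a ha b hb => ((hmem a).1 ha).2 b ((hmem b).1 hb).1)
    (fun a ha => (hmem a).2 ⟨h.le ha, fun y hy => (h.cD y hy a ha).symm⟩)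
  rw [← hZA]
  exact (hmem x).2 ⟨hx, hc⟩
-- END zd

-- BEGIN ccd
/-- a normal subgroup `M` with `M = ⁅M, M⁆ ⊔ A` is in `A` -/
private theorem ccd_perf [Group.IsSolvable Y] {A M : Subgroup Y} [A.Normal] (hM : M ≤ ⁅M, M⁆ ⊔ A) : M ≤ A := by
  have h1 : M.map (QuotientGroup.mk' A) ≤ ⁅M.map (QuotientGroup.mk' A), M.map (QuotientGroup.mk' A)⁆ := by
    rw [← Subgroup.map_commutator]
    calc M.map (QuotientGroup.mk' A) ≤ (⁅M, M⁆ ⊔ A).map (QuotientGroup.mk' A) := Subgroup.map_mono hM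
      _ = ⁅M, M⁆.map (QuotientGroup.mk' A) ⊔ A.map (QuotientGroup.mk' A) := Subgroup.map_sup _ _ _
      _ ≤ ⁅M, M⁆.map (QuotientGroup.mk' A) := by
        refine sup_le le_rfl ?_
        rw [(Subgroup.map_eq_bot_iff _).2 (by rw [QuotientGroup.ker_mk'])]
        exact bot_le
  have h2 : ∀ n, M.map (QuotientGroup.mk' A) ≤ derivedSeries (Y ⧸ A) n := by
    intro n
    induction n with
    | zero => exact le_top
    | succ n ih => exact h1.trans (Subgroup.commutator_mono ih ih)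
  obtain ⟨n, hn⟩ := Group.IsSolvable.solvable (G := Y ⧸ A)
  have h3 := h2 n
  rw [hn] at h3
  have h4 := (Subgroup.map_eq_bot_iff _).1 (le_bot_iff.1 h3)
  rwa [QuotientGroup.ker_mk'] at h4

/-- PROOF. Let `E` be the subgroup of the elements which commute with `A` and `D` (`= C(D)`): normal in `Y`, `A ≤ E`. If `E ≠ A` let `M` be the last member of the sequence `E`, `⁅E, E⁆ ⊔ A`, `⁅.., ..⁆ ⊔ A` .. (derived series of `E / A`, or: derived series `E⁽ⁱ⁾ ⊔ A`) which is not `A`: normal in `Y`, `A < M ≤ E`,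
`⁅M, M⁆ ≤ A`. The commutators of elements of `D ⊔ M` (`= D M`, elements `d m`) are in `A`, and `D ⊔ M` commutes with `A`, so `D ⊔ M = D` (`mD`), `M ≤ D` commutes with `D`, so `M ≤ A` (`AD.cen`): contradiction. -/
theorem AD.cent [Finite Y] [Group.IsSolvable Y] {A D : Subgroup Y} (h : AD A D) {x : Y} (hA : ∀ a ∈ A, x * a = a * x)
    (hD : ∀ y ∈ D, x * y = y * x) : x ∈ A := by
  have hAn : A.Normal := h.nA
  have hDn : D.Normal := h.nD
  set E : Subgroup Y := Subgroup.centralizer (D : Set Y) with hE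
  have hEm : ∀ m, m ∈ E ↔ ∀ y ∈ D, m * y = y * m := by
    intro m
    rw [hE, Subgroup.mem_centralizer_iff]
    constructor
    · intro h1 y hy
      exact (h1 y hy).symm
    · intro h1 y hy
      exact (h1 y hy).symm
  have hEn : E.Normal := by
    constructor
    intro m hm c
    rw [hEm] at hm ⊢
    intro y hy
    have h1 := hm (c⁻¹ * y * c) (by simpa using hDn.conj_mem y hy c⁻¹)
    calc c * m * c⁻¹ * y = c * (m * (c⁻¹ * y * c)) * c⁻¹ := by group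
      _ = c * (c⁻¹ * y * c * m) * c⁻¹ := by rw [h1]
      _ = y * (c * m * c⁻¹) := by group
  have hAE : A ≤ E := by
    intro a ha
    rw [hEm]
    intro y hy
    exact (h.cD y hy a ha).symm
  by_contra hx
  have hxE : x ∈ E := (hEm x).2 hD
  -- a minimal normal subgroup strictly above `A` in `E`
  obtain ⟨M, hM⟩ : ∃ M, Minimal (fun M : Subgroup Y => M.Normal ∧ A ≤ M ∧ M ≤ E ∧ ¬ M ≤ A) M := by
    have hfin : {M : Subgroup Y | M.Normal ∧ A ≤ M ∧ M ≤ E ∧ ¬ M ≤ A}.Finite := Set.toFinite _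
    exact hfin.exists_minimal ⟨E, hEn, hAE, le_rfl, fun h1 => hx (h1 hxE)⟩
  obtain ⟨⟨hMn, hAM, hME, hMA⟩, hmin⟩ := hM
  have hcom : ⁅M, M⁆ ≤ A := by
    by_contra h1
    have h2 : ⁅M, M⁆ ⊔ A ≤ M := sup_le (Subgroup.commutator_le_left M M) hAM
    have h3 := hmin ⟨inferInstance, le_sup_right, h2.trans hME, fun h3 => h1 (le_sup_left.trans h3)⟩ h2
    exact hMA (ccd_perf h3)
  have hDM : D ⊔ M = D := by
    refine h.mD _ inferInstance le_sup_left ?_ ?_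
    · intro y hy a ha
      obtain ⟨d, hd, m, hm, rfl⟩ := Subgroup.mem_sup_of_normal_left.1 hy
      have h1 : m * a = a * m := (hEm m).1 (hME hm) a (h.le ha)
      rw [mul_assoc, h1, ← mul_assoc, h.cD d hd a ha, mul_assoc]
    · intro y hy z hz
      obtain ⟨d, hd, m, hm, rfl⟩ := Subgroup.mem_sup_of_normal_left.1 hy
      obtain ⟨e, he, n, hn, rfl⟩ := Subgroup.mem_sup_of_normal_left.1 hz
      have c1 : m * e = e * m := (hEm m).1 (hME hm) e he
      have c2 : n * d = d * n := (hEm n).1 (hME hn) d hd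
      have c3 : m * d = d * m := (hEm m).1 (hME hm) d hd
      have c4 : n * e = e * n := (hEm n).1 (hME hn) e he
      have h1 : d * m * (e * n) * (d * m)⁻¹ * (e * n)⁻¹ = (d * e * d⁻¹ * e⁻¹) * (m * n * m⁻¹ * n⁻¹) := by
        have k1 : Commute m e := c1
        have k2 : Commute n d := c2
        have k3 : Commute m d := c3
        have k4 : Commute n e := c4
        have k5 : Commute (m * n * m⁻¹ * n⁻¹) (d⁻¹ * e⁻¹) := by
          refine Commute.mul_left (Commute.mul_left (Commute.mul_left ?_ ?_) ?_) ?_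
          · exact Commute.mul_right k3.inv_right k1.inv_right
          · exact Commute.mul_right k2.inv_right k4.inv_right
          · exact Commute.mul_right k3.inv_inv k1.inv_inv
          · exact Commute.mul_right k2.inv_inv k4.inv_inv
        calc d * m * (e * n) * (d * m)⁻¹ * (e * n)⁻¹ = d * (m * e) * n * (m⁻¹ * d⁻¹) * (n⁻¹ * e⁻¹) := by group
          _ = d * (e * m) * n * (m⁻¹ * d⁻¹) * (n⁻¹ * e⁻¹) := by rw [c1]
          _ = d * e * m * n * m⁻¹ * (d⁻¹ * n⁻¹) * e⁻¹ := by group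
          _ = d * e * m * n * m⁻¹ * (n⁻¹ * d⁻¹) * e⁻¹ := by rw [(k2.inv_inv).eq]
          _ = d * e * ((m * n * m⁻¹ * n⁻¹) * (d⁻¹ * e⁻¹)) := by group
          _ = d * e * ((d⁻¹ * e⁻¹) * (m * n * m⁻¹ * n⁻¹)) := by rw [k5.eq]
          _ = (d * e * d⁻¹ * e⁻¹) * (m * n * m⁻¹ * n⁻¹) := by group
      rw [h1]
      exact A.mul_mem (h.com d hd e he) (hcom (Subgroup.commutator_mem_commutator hm hn))
  refine hMA fun m hm => ?_
  have hmD : m ∈ D := by
    rw [← hDM]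
    exact Subgroup.mem_sup_right hm
  exact h.cen hmD ((hEm m).1 (hME hm))
-- END ccd

-- BEGIN dst
private theorem dst_conj {c d z : Y} (h : c * d * c⁻¹ * d⁻¹ = z) : c * d * c⁻¹ = z * d := by
  rw [← h]
  group

private theorem dst_comm {A : Subgroup Y} {c : Y} (h : ∀ a ∈ A, c * a = a * c) : ∀ a ∈ A, c * a * c⁻¹ = a := by
  intro a ha
  rw [h a ha]
  group

private theorem dst_swap {A D : Subgroup Y} (hab : ∀ a ∈ A, ∀ b ∈ A, a * b = b * a) {c c' : Y}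
    (hA : ∀ a ∈ A, c * a = a * c) (hA' : ∀ a ∈ A, c' * a = a * c')
    (hD : ∀ d ∈ D, c * d * c⁻¹ * d⁻¹ ∈ A) (hD' : ∀ d ∈ D, c' * d * c'⁻¹ * d⁻¹ ∈ A) {d : Y} (hd : d ∈ D) :
    (c * c') * d * (c * c')⁻¹ = (c' * c) * d * (c' * c)⁻¹ := by
  have h1 := dst_conj (rfl : c * d * c⁻¹ * d⁻¹ = _)
  have h2 := dst_conj (rfl : c' * d * c'⁻¹ * d⁻¹ = _)
  have z1 := hD d hd
  have z2 := hD' d hd
  set z := c * d * c⁻¹ * d⁻¹ with hz
  set z' := c' * d * c'⁻¹ * d⁻¹ with hz'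
  clear_value z z'
  have e1 : (c * c') * d * (c * c')⁻¹ = (c * z' * c⁻¹) * (c * d * c⁻¹) := by
    calc (c * c') * d * (c * c')⁻¹ = c * (c' * d * c'⁻¹) * c⁻¹ := by group
      _ = c * (z' * d) * c⁻¹ := by rw [h2]
      _ = _ := by group
  have e2 : (c' * c) * d * (c' * c)⁻¹ = (c' * z * c'⁻¹) * (c' * d * c'⁻¹) := by
    calc (c' * c) * d * (c' * c)⁻¹ = c' * (c * d * c⁻¹) * c'⁻¹ := by group
      _ = c' * (z * d) * c'⁻¹ := by rw [h1]
      _ = _ := by group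
  rw [e1, e2, dst_comm hA z' z2, dst_comm hA' z z1, h1, h2, ← mul_assoc, ← mul_assoc, hab z' z2 z z1]

/-- PROOF. `D' = {c | c` commutes with `A` and `c * d * c⁻¹ * d⁻¹ ∈ A` for all `d ∈ D}` is a normal subgroup of `Y` containing `D`. For `c, c' ∈ D'` and `d ∈ D`: `c d c⁻¹ = z d`, `c' d c'⁻¹ = z' d` with `z, z' ∈ A` commuting with `c, c'`, so `c c' c⁻¹ c'⁻¹` commutes with `d`; it commutes with `A` too, so it is in `A` (`AD.cent`).
So `D' = D` (`mD`). -/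
theorem AD.star [Finite Y] [Group.IsSolvable Y] {A D : Subgroup Y} (h : AD A D) {c : Y} (hA : ∀ a ∈ A, c * a = a * c)
    (hD : ∀ d ∈ D, c * d * c⁻¹ * d⁻¹ ∈ A) : c ∈ D := by
  have hn := h.nA
  have hnD := h.nD
  let E : Subgroup Y :=
    { carrier := {c | (∀ a ∈ A, c * a = a * c) ∧ ∀ d ∈ D, c * d * c⁻¹ * d⁻¹ ∈ A}
      mul_mem' := by
        rintro c c' ⟨h1, h2⟩ ⟨h3, h4⟩
        refine ⟨fun a ha => ?_, fun d hd => ?_⟩
        · rw [mul_assoc, h3 a ha, ← mul_assoc, h1 a ha, mul_assoc]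
        · have e : c * c' * d * (c * c')⁻¹ * d⁻¹ = (c * (c' * d * c'⁻¹ * d⁻¹) * c⁻¹) * (c * d * c⁻¹ * d⁻¹) := by
            group
          rw [e, dst_comm h1 _ (h4 d hd)]
          exact A.mul_mem (h4 d hd) (h2 d hd)
      one_mem' := by
        refine ⟨fun a _ => by rw [one_mul, mul_one], fun d _ => ?_⟩
        have e : (1 : Y) * d * 1⁻¹ * d⁻¹ = 1 := by group
        rw [e]
        exact A.one_mem
      inv_mem' := by
        rintro c ⟨h1, h2⟩
        have h3 : ∀ a ∈ A, c⁻¹ * a = a * c⁻¹ := fun a ha => by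
          have := h1 a ha
          calc c⁻¹ * a = c⁻¹ * (a * c) * c⁻¹ := by group
            _ = c⁻¹ * (c * a) * c⁻¹ := by rw [this]
            _ = a * c⁻¹ := by group
        refine ⟨h3, fun d hd => ?_⟩
        have h4 := h2 d hd
        have e : c⁻¹ * d * c⁻¹⁻¹ * d⁻¹ = c⁻¹ * (c * d * c⁻¹ * d⁻¹)⁻¹ * c⁻¹⁻¹ := by group
        rw [e, dst_comm h3 _ (A.inv_mem h4)]
        exact A.inv_mem h4 }
  have hE : ∀ c, c ∈ E ↔ (∀ a ∈ A, c * a = a * c) ∧ ∀ d ∈ D, c * d * c⁻¹ * d⁻¹ ∈ A := fun c => Iff.rfl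
  have hEn : E.Normal := by
    refine ⟨fun c hc y => ?_⟩
    rw [hE] at hc ⊢
    refine ⟨fun a ha => ?_, fun d hd => ?_⟩
    · have h1 := hc.1 (y⁻¹ * a * y) (by simpa using hn.conj_mem a ha y⁻¹)
      calc y * c * y⁻¹ * a = y * (c * (y⁻¹ * a * y)) * y⁻¹ := by group
        _ = y * ((y⁻¹ * a * y) * c) * y⁻¹ := by rw [h1]
        _ = _ := by group
    · have h1 := hc.2 (y⁻¹ * d * y) (by simpa using hnD.conj_mem d hd y⁻¹)
      have e : y * c * y⁻¹ * d * (y * c * y⁻¹)⁻¹ * d⁻¹ =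
          y * (c * (y⁻¹ * d * y) * c⁻¹ * (y⁻¹ * d * y)⁻¹) * y⁻¹ := by group
      rw [e]
      exact hn.conj_mem _ h1 y
  have hDE : D ≤ E := fun x hx => (hE x).2 ⟨fun a ha => h.cD x hx a ha, fun d hd => h.com x hx d hd⟩
  have hcom : ∀ x ∈ E, ∀ y ∈ E, x * y * x⁻¹ * y⁻¹ ∈ A := by
    intro x hx y hy
    rw [hE] at hx hy
    refine h.cent (fun a ha => ?_) fun d hd => ?_
    · have e1 := dst_comm hx.1 a ha
      have e2 := dst_comm hy.1 a ha
      have e3 : x⁻¹ * a * x = a := by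
        nth_rw 1 [← e1]
        group
      have e4 : y⁻¹ * a * y = a := by
        nth_rw 1 [← e2]
        group
      have e5 : (x * y * x⁻¹ * y⁻¹) * a * (x * y * x⁻¹ * y⁻¹)⁻¹ = a := by
        calc (x * y * x⁻¹ * y⁻¹) * a * (x * y * x⁻¹ * y⁻¹)⁻¹ =
              x * (y * (x⁻¹ * (y⁻¹ * a * y) * x) * y⁻¹) * x⁻¹ := by group
          _ = a := by rw [e4, e3, e2, e1]
      calc x * y * x⁻¹ * y⁻¹ * a = ((x * y * x⁻¹ * y⁻¹) * a * (x * y * x⁻¹ * y⁻¹)⁻¹) * (x * y * x⁻¹ * y⁻¹) := by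
            group
        _ = _ := by rw [e5]
    · have hd' : (y * x)⁻¹ * d * (y * x) ∈ D := by simpa using hnD.conj_mem d hd (y * x)⁻¹
      have e1 := dst_swap h.cA hx.1 hy.1 hx.2 hy.2 hd'
      have e5 : (x * y * x⁻¹ * y⁻¹) * d * (x * y * x⁻¹ * y⁻¹)⁻¹ = d := by
        calc (x * y * x⁻¹ * y⁻¹) * d * (x * y * x⁻¹ * y⁻¹)⁻¹ =
              (x * y) * ((y * x)⁻¹ * d * (y * x)) * (x * y)⁻¹ := by group
          _ = (y * x) * ((y * x)⁻¹ * d * (y * x)) * (y * x)⁻¹ := e1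
          _ = d := by group
      calc x * y * x⁻¹ * y⁻¹ * d = ((x * y * x⁻¹ * y⁻¹) * d * (x * y * x⁻¹ * y⁻¹)⁻¹) * (x * y * x⁻¹ * y⁻¹) := by
            group
        _ = _ := by rw [e5]
  have hED : E = D := h.mD E hEn hDE (fun x hx => ((hE x).1 hx).1) hcom
  rw [← hED]
  exact (hE c).2 ⟨hA, hD⟩
-- END dst

-- BEGIN rdx
/-- PROOF. `x ↦ x y x⁻¹ y⁻¹` is multiplicative on `D` (the commutators are in `A`, which commutes with `D`). -/
theorem AD.exists_rd {A D : Subgroup Y} (h : AD A D) (κ : Subgroup Y) (hκ : κ ≤ A) :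
    ∃ M : Subgroup Y, ∀ x, x ∈ M ↔ x ∈ D ∧ ∀ y ∈ D, x * y * x⁻¹ * y⁻¹ ∈ κ := by
  refine ⟨⟨⟨⟨{x | x ∈ D ∧ ∀ y ∈ D, x * y * x⁻¹ * y⁻¹ ∈ κ}, ?_⟩, ?_⟩, ?_⟩, fun x => Iff.rfl⟩
  · intro x x' hx hx'
    refine ⟨D.mul_mem hx.1 hx'.1, fun y hy => ?_⟩
    have h1 := hx'.2 y hy
    have h2 := h.cD x hx.1 _ (hκ h1)
    have h3 : x * x' * y * (x * x')⁻¹ * y⁻¹ = (x' * y * x'⁻¹ * y⁻¹) * (x * y * x⁻¹ * y⁻¹) := by
      calc x * x' * y * (x * x')⁻¹ * y⁻¹ = (x * (x' * y * x'⁻¹ * y⁻¹)) * (y * x⁻¹ * y⁻¹) := by group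
        _ = ((x' * y * x'⁻¹ * y⁻¹) * x) * (y * x⁻¹ * y⁻¹) := by rw [h2]
        _ = _ := by group
    show x * x' * y * (x * x')⁻¹ * y⁻¹ ∈ κ
    rw [h3]
    exact κ.mul_mem h1 (hx.2 y hy)
  · refine ⟨D.one_mem, fun y _ => ?_⟩
    have h1 : (1 : Y) * y * (1 : Y)⁻¹ * y⁻¹ = 1 := by group
    rw [h1]
    exact κ.one_mem
  · intro x hx
    refine ⟨D.inv_mem hx.1, fun y hy => ?_⟩
    have h1 := hx.2 (x⁻¹ * y * x) (D.mul_mem (D.mul_mem (D.inv_mem hx.1) hy) hx.1)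
    have h2 : x⁻¹ * y * (x⁻¹)⁻¹ * y⁻¹ = (x * (x⁻¹ * y * x) * x⁻¹ * (x⁻¹ * y * x)⁻¹)⁻¹ := by group
    show x⁻¹ * y * (x⁻¹)⁻¹ * y⁻¹ ∈ κ
    rw [h2]
    exact κ.inv_mem h1
-- END rdx

-- BEGIN inv
/-- PROOF. `⁅c x c⁻¹, y⁆ = c ⁅x, c⁻¹ y c⁆ c⁻¹ = ⁅x, c⁻¹ y c⁆`. -/
theorem AD.rd_conj {A D : Subgroup Y} (h : AD A D) {κ M : Subgroup Y} (hκ : κ ≤ A)
    (hM : ∀ x, x ∈ M ↔ x ∈ D ∧ ∀ y ∈ D, x * y * x⁻¹ * y⁻¹ ∈ κ) {c : Y} (hc : ∀ a ∈ A, c * a = a * c) {x : Y} (hx : x ∈ M) :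
    c * x * c⁻¹ ∈ M := by
  have hxM := (hM x).1 hx
  refine (hM _).2 ⟨h.nD.conj_mem x hxM.1 c, fun y hy => ?_⟩
  have hy' : c⁻¹ * y * c ∈ D := by
    have h0 := h.nD.conj_mem y hy c⁻¹
    rwa [inv_inv] at h0
  have hz := hxM.2 _ hy'
  have h1 := hc _ (hκ hz)
  have h2 : c * x * c⁻¹ * y * (c * x * c⁻¹)⁻¹ * y⁻¹ =
      c * (x * (c⁻¹ * y * c) * x⁻¹ * (c⁻¹ * y * c)⁻¹) * c⁻¹ := by group
  rw [h2, h1, mul_inv_cancel_right]
  exact hz
-- END inv

-- BEGIN rip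
/-- PROOF. `A ≥ D ⊓ ⨅ θ ∈ Θ, M θ`; induction on `Θ` with `Subgroup.relIndex_inf_le` (or `Subgroup.relIndex_iInf_le` over the subtype). -/
theorem relIndex_le_prod [Finite Y] {ι : Type} (Θ : Finset ι) (A D : Subgroup Y) (M : ι → Subgroup Y)
    (h : ∀ x ∈ D, (∀ θ ∈ Θ, x ∈ M θ) → x ∈ A) : A.relIndex D ≤ ∏ θ ∈ Θ, (M θ).relIndex D := by
  have h1 : (Θ.inf M).relIndex D ≤ ∏ θ ∈ Θ, (M θ).relIndex D := by
    clear h
    induction Θ using Finset.cons_induction with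
    | empty => simp
    | cons a s ha ih =>
      rw [Finset.inf_cons, Finset.prod_cons]
      exact Subgroup.relIndex_inf_le.trans (Nat.mul_le_mul_left _ ih)
  refine le_trans ?_ h1
  have h2 : Θ.inf M ⊓ D ≤ A := by
    intro x hx
    obtain ⟨hx1, hx2⟩ := Subgroup.mem_inf.1 hx
    exact h x hx2 fun θ hθ => (Finset.inf_le hθ : Θ.inf M ≤ M θ) hx1
  rw [← Subgroup.inf_relIndex_right (Θ.inf M) D]
  exact Subgroup.relIndex_le_of_le_left h2 Subgroup.index_ne_zero_of_finite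
-- END rip

-- BEGIN cdb
private theorem cdb_step (C D M : Subgroup Y) (hDC : D ≤ C)
    (hM : ∀ c ∈ C, ∀ x ∈ M, c * x * c⁻¹ ∈ M) (S : Set Y) (hS : D = Subgroup.closure ((M : Set Y) ∪ S))
    (hSD : ∀ x ∈ S, x ∈ D) {c c' : Y} (hc : c ∈ C) (hc' : c' ∈ C) (hDn : ∀ d ∈ D, c * d * c⁻¹ ∈ D)
    (h : ∀ x ∈ S, (c * x * c⁻¹)⁻¹ * (c' * x * c'⁻¹) ∈ M) :
    ∀ d ∈ D, (c'⁻¹ * c) * d * (c'⁻¹ * c)⁻¹ * d⁻¹ ∈ M := by
  have he : c'⁻¹ * c ∈ C := C.mul_mem (C.inv_mem hc') hc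
  intro d hd
  rw [hS] at hd
  induction hd using Subgroup.closure_induction with
  | mem x hx =>
    rcases hx with hx | hx
    · exact M.mul_mem (hM _ he x hx) (M.inv_mem hx)
    · have h1 := M.inv_mem (h x hx)
      have hu : c * x * c⁻¹ ∈ C := hDC (hDn x (hSD x hx))
      have h2 := hM _ (C.inv_mem hc') _ (hM _ hu _ h1)
      have h3 : c'⁻¹ * (c * x * c⁻¹ * ((c * x * c⁻¹)⁻¹ * (c' * x * c'⁻¹))⁻¹ * (c * x * c⁻¹)⁻¹) * c'⁻¹⁻¹ =
          (c'⁻¹ * c) * x * (c'⁻¹ * c)⁻¹ * x⁻¹ := by group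
      rw [h3] at h2
      exact h2
  | one =>
    rw [mul_one, mul_inv_cancel, inv_one, mul_one]
    exact M.one_mem
  | mul x y hx hy h1 h2 =>
    rw [← hS] at hx
    have h3 := M.mul_mem h1 (hM _ (hDC hx) _ h2)
    have h4 : (c'⁻¹ * c) * x * (c'⁻¹ * c)⁻¹ * x⁻¹ * (x * ((c'⁻¹ * c) * y * (c'⁻¹ * c)⁻¹ * y⁻¹) * x⁻¹) =
        (c'⁻¹ * c) * (x * y) * (c'⁻¹ * c)⁻¹ * (x * y)⁻¹ := by group
    rw [h4] at h3
    exact h3
  | inv x hx h1 =>
    rw [← hS] at hx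
    have h3 := hM _ (C.inv_mem (hDC hx)) _ (M.inv_mem h1)
    have h4 : x⁻¹ * ((c'⁻¹ * c) * x * (c'⁻¹ * c)⁻¹ * x⁻¹)⁻¹ * x⁻¹⁻¹ =
        (c'⁻¹ * c) * x⁻¹ * (c'⁻¹ * c)⁻¹ * x⁻¹⁻¹ := by group
    rw [h4] at h3
    exact h3

/-- PROOF. For `θ ∈ Θ` let `s θ` be generators of `D` modulo `M θ` (`exists_gens`). The map `c ↦ (fun θ s => the coset (c * s * c⁻¹) M θ)` from `C` to the product over `θ ∈ Θ` of the functions from `s θ` to the left cosets of `M θ` in `D` has at most `∏ (index) ^ (log_2 index)` values, and if `c, c'` have the same image then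
`e = c'⁻¹ c` satisfies `e s e⁻¹ ∈ s M θ` for all the generators; the `d ∈ D` with `e d e⁻¹ d⁻¹ ∈ M θ` form a subgroup (`M θ` is normalized by `D` and by `e`) which contains `M θ` and `s θ`, so `D`; by `hk` `e ∈ D`. So each fibre is in a coset of `D`: `|C| ≤ |D| * ..`. -/
theorem cd_bound [Finite Y] {ι : Type} (Θ : Finset ι) (C D : Subgroup Y) (hDC : D ≤ C) (hD : ∀ c ∈ C, ∀ d ∈ D, c * d * c⁻¹ ∈ D)
    (M : ι → Subgroup Y) (hMD : ∀ θ ∈ Θ, M θ ≤ D) (hM : ∀ θ ∈ Θ, ∀ c ∈ C, ∀ x ∈ M θ, c * x * c⁻¹ ∈ M θ)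
    (hk : ∀ c ∈ C, (∀ θ ∈ Θ, ∀ d ∈ D, c * d * c⁻¹ * d⁻¹ ∈ M θ) → c ∈ D) :
    D.relIndex C ≤ ∏ θ ∈ Θ, (M θ).relIndex D ^ Nat.log 2 ((M θ).relIndex D) := by
  classical
  have hg : ∀ θ : {θ // θ ∈ Θ}, ∃ s : Finset Y, (∀ x ∈ s, x ∈ D) ∧
      D = Subgroup.closure ((M θ : Set Y) ∪ s) ∧ s.card ≤ Nat.log 2 ((M θ).relIndex D) :=
    fun θ => exists_gens (M θ) D (hMD θ θ.2)
  choose s hs1 hs2 hs3 using hg
  let T : Type := (θ : {θ // θ ∈ Θ}) → {x // x ∈ s θ} → (D ⧸ (M θ).subgroupOf D)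
  let F : C → T := fun c θ x => ((⟨(c : Y) * x * (c : Y)⁻¹, hD c c.2 x (hs1 θ x x.2)⟩ : D) : D ⧸ (M θ).subgroupOf D)
  have hinj : Function.Injective (fun q : C ⧸ D.subgroupOf C => F q.out) := by
    intro q q' hq
    have hq1 : ∀ θ : {θ // θ ∈ Θ}, ∀ x ∈ s θ,
        (((q.out : C) : Y) * x * ((q.out : C) : Y)⁻¹)⁻¹ * (((q'.out : C) : Y) * x * ((q'.out : C) : Y)⁻¹) ∈ M θ := by
      intro θ x hx
      have h1 := congrFun (congrFun hq θ) ⟨x, hx⟩
      have h2 := QuotientGroup.eq.1 h1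
      rw [Subgroup.mem_subgroupOf] at h2
      exact h2
    have h3 : ((q'.out : C) : Y)⁻¹ * ((q.out : C) : Y) ∈ D := by
      refine hk _ (C.mul_mem (C.inv_mem (q'.out : C).2) (q.out : C).2) (fun θ hθ => ?_)
      exact cdb_step C D (M θ) hDC (hM θ hθ) (s ⟨θ, hθ⟩ : Set Y) (hs2 ⟨θ, hθ⟩) (hs1 ⟨θ, hθ⟩) (q.out : C).2
        (q'.out : C).2 (fun d hd => hD _ (q.out : C).2 d hd) (hq1 ⟨θ, hθ⟩)
    have h4 : ((q'.out : C) : C ⧸ D.subgroupOf C) = ((q.out : C) : C ⧸ D.subgroupOf C) := by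
      rw [QuotientGroup.eq, Subgroup.mem_subgroupOf]
      exact h3
    rw [QuotientGroup.out_eq', QuotientGroup.out_eq'] at h4
    exact h4.symm
  have hle := Nat.card_le_card_of_injective _ hinj
  have hcT : Nat.card T = ∏ θ : {θ // θ ∈ Θ}, (M θ).relIndex D ^ (s θ).card := by
    show Nat.card ((θ : {θ // θ ∈ Θ}) → {x // x ∈ s θ} → (D ⧸ (M θ).subgroupOf D)) = _
    rw [Nat.card_pi]
    refine Finset.prod_congr rfl (fun θ _ => ?_)
    have h5 : Nat.card {x // x ∈ s θ} = (s θ).card :=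
      (Nat.card_eq_fintype_card (α := {x // x ∈ s θ})).trans (Fintype.card_coe _)
    rw [Nat.card_fun, h5]
    rfl
  rw [hcT] at hle
  refine le_trans hle ?_
  rw [← Finset.prod_coe_sort Θ (fun θ => (M θ).relIndex D ^ Nat.log 2 ((M θ).relIndex D))]
  refine Finset.prod_le_prod' (fun θ _ => ?_)
  refine Nat.pow_le_pow_right ?_ (hs3 θ)
  exact Nat.pos_of_ne_zero Subgroup.FiniteIndex.index_ne_zero
-- END cdb

end

section

variable {F V Y : Type} [Field F] [AddCommGroup V] [Module F V] [Group Y]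

-- BEGIN gsb
/-- PROOF. `Subgroup.orderOf_coe`. -/
theorem Gal.sub {ρ : Y →* Module.End F V} (h : Gal ρ) (A : Subgroup Y) : Gal (ρ.comp A.subtype) := by
  intro y k hk ζ hζ
  exact h (y : Y) k (by rwa [Subgroup.orderOf_coe]) ζ (by rwa [Subgroup.orderOf_coe])
-- END gsb

-- BEGIN lin
private theorem lin_core {R D : Type*} [Ring R] [Group D] (ρ : D →* R) (A K Z : Subgroup D)
    (hcen : ∀ a ∈ A, ∀ d : D, a * d = d * a) (hcom : ∀ d e : D, d * e * d⁻¹ * e⁻¹ ∈ A)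
    (hinv : ∀ a ∈ A, a ∉ K → ∀ c : R, c * (ρ a - 1) = 0 → c = 0)
    (hZ : ∀ d : D, (∀ e : D, d * e * d⁻¹ * e⁻¹ ∈ K) → d ∈ Z) :
    ∀ (n : ℕ) (T : Finset D), T.card = n → (∀ t ∈ T, ∀ t' ∈ T, t ≠ t' → t * t'⁻¹ ∉ Z) →
      ∀ c : D → R, (∀ t ∈ T, ∀ d, c t * ρ d = ρ d * c t) → ∑ t ∈ T, c t * ρ t = 0 → ∀ t ∈ T, c t = 0 := by
  classical
  have hui : ∀ (x : R) (d : D), x * ρ d = 0 → x = 0 := by
    intro x d h
    have : x * ρ d * ρ d⁻¹ = 0 := by rw [h, zero_mul]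
    rwa [mul_assoc, ← map_mul, mul_inv_cancel, map_one, mul_one] at this
  intro n
  induction n with
  | zero =>
    intro T hT _ c _ _ t ht
    rw [Finset.card_eq_zero] at hT
    rw [hT] at ht
    simp at ht
  | succ n ih =>
    intro T hT hTZ c hc hsum
    have key : ∀ t₁ ∈ T, ∀ t ∈ T, t ≠ t₁ → c t = 0 := by
      intro t₁ ht₁ t ht hne
      have hd : ∃ d : D, (d * t * d⁻¹ * t⁻¹) * (d * t₁ * d⁻¹ * t₁⁻¹)⁻¹ ∉ K := by
        by_contra hcon
        push Not at hcon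
        apply hTZ t ht t₁ ht₁ hne
        apply hZ
        intro e
        have hb := hcen _ (A.inv_mem (hcom e t₁))
        have h1 : e * (t * t₁⁻¹) * e⁻¹ * (t * t₁⁻¹)⁻¹ =
            (e * t * e⁻¹ * t⁻¹) * (t * (t₁⁻¹ * (e * t₁ * e⁻¹ * t₁⁻¹)⁻¹ * t₁) * t⁻¹) := by group
        have h2 : t₁⁻¹ * (e * t₁ * e⁻¹ * t₁⁻¹)⁻¹ * t₁ = (e * t₁ * e⁻¹ * t₁⁻¹)⁻¹ := by
          rw [← hb t₁⁻¹, inv_mul_cancel_right]
        have h3 : t * (e * t₁ * e⁻¹ * t₁⁻¹)⁻¹ * t⁻¹ = (e * t₁ * e⁻¹ * t₁⁻¹)⁻¹ := by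
          rw [← hb t, mul_inv_cancel_right]
        rw [h2, h3] at h1
        have h4 : (t * t₁⁻¹) * e * (t * t₁⁻¹)⁻¹ * e⁻¹ = (e * (t * t₁⁻¹) * e⁻¹ * (t * t₁⁻¹)⁻¹)⁻¹ := by group
        rw [h4, h1]
        exact K.inv_mem (hcon e)
      obtain ⟨d, hd⟩ := hd
      have h1 : ∑ s ∈ T, c s * ρ (d * s * d⁻¹ * s⁻¹) * ρ s = 0 := by
        have h0 : ρ d * (∑ s ∈ T, c s * ρ s) * ρ d⁻¹ = 0 := by rw [hsum, mul_zero, zero_mul]
        rw [Finset.mul_sum, Finset.sum_mul] at h0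
        rw [← h0]
        apply Finset.sum_congr rfl
        intro s hs
        have e1 : d * s * d⁻¹ * s⁻¹ * s = d * s * d⁻¹ := by group
        rw [mul_assoc (c s), ← map_mul, e1, map_mul, map_mul, ← mul_assoc, ← mul_assoc, hc s hs d, mul_assoc (ρ d)]
      have h2 : ∑ s ∈ T, c s * ρ (d * t₁ * d⁻¹ * t₁⁻¹) * ρ s = 0 := by
        have h0 : ρ (d * t₁ * d⁻¹ * t₁⁻¹) * (∑ s ∈ T, c s * ρ s) = 0 := by rw [hsum, mul_zero]
        rw [Finset.mul_sum] at h0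
        rw [← h0]
        apply Finset.sum_congr rfl
        intro s hs
        rw [hc s hs, mul_assoc]
      have h3 : ∑ s ∈ T, c s * (ρ (d * s * d⁻¹ * s⁻¹) - ρ (d * t₁ * d⁻¹ * t₁⁻¹)) * ρ s = 0 := by
        have e1 : ∀ s ∈ T, c s * (ρ (d * s * d⁻¹ * s⁻¹) - ρ (d * t₁ * d⁻¹ * t₁⁻¹)) * ρ s =
            c s * ρ (d * s * d⁻¹ * s⁻¹) * ρ s - c s * ρ (d * t₁ * d⁻¹ * t₁⁻¹) * ρ s := by
          intro s _
          rw [mul_sub, sub_mul]
        rw [Finset.sum_congr rfl e1, Finset.sum_sub_distrib, h1, h2, sub_zero]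
      have h4 : ∑ s ∈ T.erase t₁, c s * (ρ (d * s * d⁻¹ * s⁻¹) - ρ (d * t₁ * d⁻¹ * t₁⁻¹)) * ρ s = 0 := by
        rw [Finset.sum_erase, h3]
        rw [sub_self, mul_zero, zero_mul]
      have h5 := ih (T.erase t₁) (by rw [Finset.card_erase_of_mem ht₁, hT]; rfl)
        (fun u hu u' hu' huu => hTZ u (Finset.mem_of_mem_erase hu) u' (Finset.mem_of_mem_erase hu') huu)
        (fun s => c s * (ρ (d * s * d⁻¹ * s⁻¹) - ρ (d * t₁ * d⁻¹ * t₁⁻¹)))
        (by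
          intro s hs e
          have e1 : (ρ (d * s * d⁻¹ * s⁻¹) - ρ (d * t₁ * d⁻¹ * t₁⁻¹)) * ρ e =
              ρ e * (ρ (d * s * d⁻¹ * s⁻¹) - ρ (d * t₁ * d⁻¹ * t₁⁻¹)) := by
            rw [sub_mul, mul_sub, ← map_mul, ← map_mul, ← map_mul, ← map_mul, hcen _ (hcom d s) e,
              hcen _ (hcom d t₁) e]
          show c s * _ * ρ e = ρ e * (c s * _)
          rw [mul_assoc, e1, ← mul_assoc, hc s (Finset.mem_of_mem_erase hs) e, mul_assoc])
        h4 t (Finset.mem_erase.2 ⟨hne, ht⟩)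
      have h6 : c t * (ρ ((d * t * d⁻¹ * t⁻¹) * (d * t₁ * d⁻¹ * t₁⁻¹)⁻¹) - 1) * ρ (d * t₁ * d⁻¹ * t₁⁻¹) = 0 := by
        have e1 : (ρ ((d * t * d⁻¹ * t⁻¹) * (d * t₁ * d⁻¹ * t₁⁻¹)⁻¹) - 1) * ρ (d * t₁ * d⁻¹ * t₁⁻¹) =
            ρ (d * t * d⁻¹ * t⁻¹) - ρ (d * t₁ * d⁻¹ * t₁⁻¹) := by
          rw [sub_mul, one_mul, ← map_mul, inv_mul_cancel_right]
        rw [mul_assoc, e1]
        exact h5
      exact hinv _ (A.mul_mem (hcom d t) (A.inv_mem (hcom d t₁))) hd _ (hui _ _ h6)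
    intro t ht
    have h1 : ∑ s ∈ T, c s * ρ s = c t * ρ t := by
      apply Finset.sum_eq_single t
      · intro s hs hst
        rw [key t ht s hs hst, zero_mul]
      · intro h
        exact absurd ht h
    rw [h1] at hsum
    exact hui _ _ hsum

private theorem lin_vs {F D V : Type} [Field F] [Group D] [Finite D] [AddCommGroup V] [Module F V] [FiniteDimensional F V]
    [Nontrivial V] (ρ : D →* Module.End F V) (A K Z : Subgroup D)
    (hcen : ∀ a ∈ A, ∀ d : D, a * d = d * a) (hcom : ∀ d e : D, d * e * d⁻¹ * e⁻¹ ∈ A)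
    (hA : ∀ a ∈ A, a ∉ K → ∀ c : Module.End F V, c * (ρ a - 1) = 0 → c = 0)
    (hZ : ∀ d : D, (∀ e : D, d * e * d⁻¹ * e⁻¹ ∈ K) → d ∈ Z) :
    Z.index ≤ Module.finrank F V ^ 2 := by
  classical
  have core := lin_core ρ A K Z hcen hcom hA hZ
  -- representatives
  have hQ : Finite (D ⧸ Z) := inferInstance
  let _ : Fintype (D ⧸ Z) := Fintype.ofFinite _
  let τ : D ⧸ Z → D := fun q => (Quotient.out q)⁻¹
  have hτ : ∀ q q' : D ⧸ Z, q ≠ q' → τ q * (τ q')⁻¹ ∉ Z := by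
    intro q q' hne hmem
    apply hne
    have h1 : (Quotient.out q)⁻¹ * Quotient.out q' ∈ Z := by
      have : τ q * (τ q')⁻¹ = (Quotient.out q)⁻¹ * Quotient.out q' := by
        show (Quotient.out q)⁻¹ * ((Quotient.out q')⁻¹)⁻¹ = _
        rw [inv_inv]
      rwa [this] at hmem
    have h2 := QuotientGroup.eq.2 h1
    rwa [QuotientGroup.out_eq', QuotientGroup.out_eq'] at h2
  have hτi : Function.Injective τ := by
    intro q q' h
    by_contra hne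
    apply hτ q q' hne
    rw [h, mul_inv_cancel]
    exact Subgroup.one_mem _
  have hli : LinearIndependent F (fun q : D ⧸ Z => ρ (τ q)) := by
    rw [Fintype.linearIndependent_iff]
    intro g hg
    have h1 : ∀ t ∈ (Finset.univ : Finset (D ⧸ Z)).image τ,
        (algebraMap F (Module.End F V) (Function.extend τ g 0 t)) = 0 := by
      apply core _ _ rfl
      · intro t ht t' ht' hne
        rw [Finset.mem_image] at ht ht'
        obtain ⟨q, _, rfl⟩ := ht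
        obtain ⟨q', _, rfl⟩ := ht'
        exact hτ q q' (fun h => hne (by rw [h]))
      · intro t _ d
        exact Algebra.commutes _ _
      · rw [Finset.sum_image (fun a _ b _ h => hτi h), ← hg]
        apply Finset.sum_congr rfl
        intro q _
        rw [hτi.extend_apply, ← Algebra.smul_def]
    intro q
    have h2 := h1 (τ q) (Finset.mem_image_of_mem _ (Finset.mem_univ _))
    rw [hτi.extend_apply] at h2
    exact (map_eq_zero_iff _ (FaithfulSMul.algebraMap_injective F (Module.End F V))).1 h2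
  have h1 := hli.fintype_card_le_finrank
  have h2 : Z.index = Fintype.card (D ⧸ Z) := by
    rw [Subgroup.index, Nat.card_eq_fintype_card]
  have h3 : Module.finrank F (Module.End F V) = Module.finrank F V * Module.finrank F V :=
    Module.finrank_linearMap _ _ _ _
  rw [h2, sq, ← h3]
  exact h1

/-- PROOF. `W = ws (ρ.comp A.subtype) θ ≠ ⊥` is mapped to itself by `D` (`cD`), so there is `σ x : W →ₗ W`, invertible for `x ∈ D`, and `σ a = θ a • 1` for `a ∈ A`. CLAIM: if `x₁, .., x_s ∈ D` are in different cosets of `M` then the `σ xᵢ` are linearly independent. Take a relation `∑ cᵢ σ xᵢ = 0` with the smallest number of nonzero `cᵢ`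
(or induction on the number); if `c₁, c₂ ≠ 0` there is `y ∈ D` with `θ ⁅y, x₁⁆ ≠ θ ⁅y, x₂⁆` (otherwise `⁅x₁ x₂⁻¹, y⁆ ∈ ker θ` for all `y`, and `x₁ x₂⁻¹ ∈ M`). `σ y (σ xᵢ) (σ y)⁻¹ = θ ⁅y, xᵢ⁆ σ xᵢ`; conjugate the relation and subtract `θ ⁅y, x₁⁆` times it: shorter. A relation with one term is impossible. So the number of the
cosets is at most `finrank (W →ₗ W) = (finrank W) ^ 2`. -/
theorem AD.rd_index [Finite Y] [FiniteDimensional F V] {A D : Subgroup Y} (h : AD A D) (ρ : Y →* Module.End F V) (θ : A →* Fˣ)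
    (hθ : ws (ρ.comp A.subtype) θ ≠ ⊥) (M : Subgroup Y)
    (hM : ∀ x, x ∈ M ↔ x ∈ D ∧ ∀ y ∈ D, x * y * x⁻¹ * y⁻¹ ∈ θ.ker.map A.subtype) :
    M.relIndex D ≤ Module.finrank F (ws (ρ.comp A.subtype) θ) ^ 2 := by
  classical
  have hW : ∀ d ∈ D, ∀ w ∈ ws (ρ.comp A.subtype) θ, ρ d w ∈ ws (ρ.comp A.subtype) θ := by
    intro d hd w hw a
    show ρ (a : Y) (ρ d w) = (θ a : F) • ρ d w
    have h1 : ρ (a : Y) (ρ d w) = ρ d (ρ (a : Y) w) := by
      rw [← Module.End.mul_apply, ← map_mul, ← h.cD d hd a a.2, map_mul, Module.End.mul_apply]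
    have h2 : ρ (a : Y) w = (θ a : F) • w := hw a
    rw [h1, h2, map_smul]
  have hnt : Nontrivial (ws (ρ.comp A.subtype) θ) := (Submodule.nontrivial_iff_ne_bot).2 hθ
  let σ : D →* Module.End F (ws (ρ.comp A.subtype) θ) :=
    { toFun := fun d => (ρ d).restrict (hW d d.2)
      map_one' := by
        apply LinearMap.ext
        intro w
        apply Subtype.ext
        show ρ ((1 : D) : Y) w = w
        rw [Subgroup.coe_one, map_one, Module.End.one_apply]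
      map_mul' := fun d e => by
        apply LinearMap.ext
        intro w
        apply Subtype.ext
        show ρ ((d * e : D) : Y) w = ρ d (ρ e w)
        rw [Subgroup.coe_mul, map_mul, Module.End.mul_apply] }
  have h1 := lin_vs σ (A.subgroupOf D) ((θ.ker.map A.subtype).subgroupOf D) (M.subgroupOf D)
    (by
      intro a ha d
      exact Subtype.ext (h.cD d d.2 a (Subgroup.mem_subgroupOf.1 ha)).symm)
    (by
      intro d e
      exact Subgroup.mem_subgroupOf.2 (h.com d d.2 e e.2))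
    (by
      intro a ha haK c hc
      have haA : (a : Y) ∈ A := Subgroup.mem_subgroupOf.1 ha
      have h2 : ((θ ⟨a, haA⟩ : Fˣ) : F) - 1 ≠ 0 := by
        intro h3
        apply haK
        refine Subgroup.mem_subgroupOf.2 (Subgroup.mem_map.2 ⟨⟨a, haA⟩, ?_, rfl⟩)
        rw [MonoidHom.mem_ker]
        exact Units.ext (sub_eq_zero.1 h3)
      have h3 : σ a - 1 = algebraMap F _ (((θ ⟨a, haA⟩ : Fˣ) : F) - 1) := by
        apply LinearMap.ext
        intro w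
        apply Subtype.ext
        have h4 : ρ (a : Y) (w : V) = ((θ ⟨a, haA⟩ : Fˣ) : F) • (w : V) := w.2 ⟨a, haA⟩
        show ρ (a : Y) w - w = (((θ ⟨a, haA⟩ : Fˣ) : F) - 1) • (w : V)
        rw [h4, sub_smul, one_smul]
      rw [h3, ← Algebra.commutes, ← Algebra.smul_def] at hc
      exact (smul_eq_zero.1 hc).resolve_left h2)
    (by
      intro d hd
      rw [Subgroup.mem_subgroupOf, hM]
      exact ⟨d.2, fun e he => Subgroup.mem_subgroupOf.1 (hd ⟨e, he⟩)⟩)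
  exact h1
-- END lin

-- BEGIN yci
private theorem yci_ne {A : Subgroup Y} (hA : A.Normal) (ρ : Y →* Module.End F V) (θ θ' : A →* Fˣ) (y : Y)
    (h : ∀ a b : A, (b : Y) = y⁻¹ * a * y → θ' a = θ b) (hθ : ws (ρ.comp A.subtype) θ ≠ ⊥) :
    ws (ρ.comp A.subtype) θ' ≠ ⊥ := by
  obtain ⟨v, hv, hv0⟩ := Submodule.exists_mem_ne_zero_of_ne_bot hθ
  refine (Submodule.ne_bot_iff _).2 ⟨ρ y v, ?_, ?_⟩
  · rw [mem_ws]
    intro a
    have hb : y⁻¹ * (a : Y) * y ∈ A := by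
      have h1 := hA.conj_mem a a.2 y⁻¹
      rwa [inv_inv] at h1
    have h1 := mem_ws.1 hv ⟨y⁻¹ * (a : Y) * y, hb⟩
    rw [h a ⟨y⁻¹ * (a : Y) * y, hb⟩ rfl]
    have h2 : ρ (a : Y) (ρ y v) = ρ y (ρ (y⁻¹ * (a : Y) * y) v) := by
      rw [← Module.End.mul_apply, ← Module.End.mul_apply, ← map_mul, ← map_mul]
      congr 2
      group
    show ρ (a : Y) (ρ y v) = _
    rw [h2]
    have h3 : ρ (y⁻¹ * (a : Y) * y) v = (θ ⟨y⁻¹ * (a : Y) * y, hb⟩ : F) • v := h1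
    rw [h3, map_smul]
  · intro h0
    apply hv0
    have h1 : ρ y⁻¹ (ρ y v) = v := by
      rw [← Module.End.mul_apply, ← map_mul, inv_mul_cancel, map_one, Module.End.one_apply]
    rw [← h1, h0, map_zero]

/-- PROOF. `Y` acts on the characters `θ` of `A` by `(y • θ) a = θ (y⁻¹ a y)` (`A` is normal) and preserves `Θ` (`ρ y` maps `ws θ` onto `ws (y • θ)`); the kernel of the action on `Θ` is the centralizer of `A` (`hsep` for `y⁻¹ a y a⁻¹`). `perm_bound` for `Y ⧸ C` and `Θ`. -/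
theorem yc_index [Finite Y] [Group.IsSolvable Y] {A : Subgroup Y} (hA : A.Normal) (ρ : Y →* Module.End F V)
    (Θ : Finset (A →* Fˣ)) (hΘ : ∀ θ, θ ∈ Θ ↔ ws (ρ.comp A.subtype) θ ≠ ⊥) (hsep : ∀ a : A, (∀ θ ∈ Θ, θ a = 1) → a = 1)
    (hne : Θ.Nonempty) : (Subgroup.centralizer (A : Set Y)).index ≤ 16 ^ (Θ.card - 1) := by
  classical
  have hc : ∀ (y : Y) (a : A), y⁻¹ * (a : Y) * y ∈ A := by
    intro y a
    have h1 := hA.conj_mem a a.2 y⁻¹
    rwa [inv_inv] at h1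
  let tw : Y → (A →* Fˣ) → (A →* Fˣ) := fun y θ =>
    { toFun := fun a => θ ⟨y⁻¹ * (a : Y) * y, hc y a⟩
      map_one' := by
        have h1 : (⟨y⁻¹ * ((1 : A) : Y) * y, hc y 1⟩ : A) = 1 := by
          apply Subtype.ext
          show y⁻¹ * (1 : Y) * y = 1
          group
        rw [h1, map_one]
      map_mul' := by
        intro a b
        rw [← map_mul]
        congr 1
        apply Subtype.ext
        show y⁻¹ * ((a : Y) * b) * y = (y⁻¹ * a * y) * (y⁻¹ * b * y)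
        group }
  have htw : ∀ (y : Y) (θ : A →* Fˣ) (a : A), tw y θ a = θ ⟨y⁻¹ * (a : Y) * y, hc y a⟩ := fun _ _ _ => rfl
  have hmem : ∀ (y : Y) (θ : A →* Fˣ), θ ∈ Θ → tw y θ ∈ Θ := by
    intro y θ hθ
    rw [hΘ] at hθ ⊢
    refine yci_ne hA ρ θ (tw y θ) y (fun a b hb => ?_) hθ
    rw [htw]
    congr 1
    exact Subtype.ext hb.symm
  letI act : MulAction Y {θ // θ ∈ Θ} :=
    { smul := fun y θ => ⟨tw y θ.1, hmem y θ.1 θ.2⟩
      one_smul := by
        intro θ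
        apply Subtype.ext
        apply MonoidHom.ext
        intro a
        show tw 1 θ.1 a = θ.1 a
        rw [htw]
        congr 1
        apply Subtype.ext
        show (1 : Y)⁻¹ * a * 1 = a
        group
      mul_smul := by
        intro y z θ
        apply Subtype.ext
        apply MonoidHom.ext
        intro a
        show tw (y * z) θ.1 a = tw y (tw z θ.1) a
        rw [htw, htw, htw]
        congr 1
        apply Subtype.ext
        show (y * z)⁻¹ * (a : Y) * (y * z) = z⁻¹ * (y⁻¹ * a * y) * z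
        group }
  have hsm : ∀ (y : Y) (θ : {θ // θ ∈ Θ}), (y • θ).1 = tw y θ.1 := fun _ _ => rfl
  let φ : Y →* Equiv.Perm {θ // θ ∈ Θ} := MulAction.toPermHom Y {θ // θ ∈ Θ}
  have hker : φ.ker ≤ Subgroup.centralizer (A : Set Y) := by
    intro y hy
    rw [MonoidHom.mem_ker] at hy
    rw [Subgroup.mem_centralizer_iff]
    intro a ha
    have h1 : (⟨y⁻¹ * a * y, hc y ⟨a, ha⟩⟩ : A) * ⟨a, ha⟩⁻¹ = 1 := by
      apply hsep
      intro θ hθ
      have h2 : y • (⟨θ, hθ⟩ : {θ // θ ∈ Θ}) = ⟨θ, hθ⟩ := by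
        have h3 := congrArg (fun (p : Equiv.Perm {θ // θ ∈ Θ}) => p ⟨θ, hθ⟩) hy
        exact h3
      have h4 : tw y θ = θ := by
        rw [← hsm y ⟨θ, hθ⟩, h2]
      have h5 : θ ⟨y⁻¹ * a * y, hc y ⟨a, ha⟩⟩ = θ ⟨a, ha⟩ := by
        rw [← htw y θ ⟨a, ha⟩, h4]
      rw [map_mul, h5, map_inv, mul_inv_cancel]
    have h2 : y⁻¹ * a * y * a⁻¹ = 1 := congrArg (fun b : A => (b : Y)) h1
    have h3 : y⁻¹ * a * y = a := by
      rw [mul_inv_eq_one] at h2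
      exact h2
    calc a * y = y * (y⁻¹ * a * y) := by group
      _ = y * a := by rw [h3]
  have h1 : (Subgroup.centralizer (A : Set Y)).index ≤ φ.ker.index :=
    Nat.le_of_dvd (Nat.pos_of_ne_zero Subgroup.index_ne_zero_of_finite) (Subgroup.index_dvd_of_le hker)
  refine h1.trans ?_
  rw [Subgroup.index_ker]
  haveI : Group.IsSolvable φ.range := solvable_of_surjective φ.rangeRestrict_surjective
  have h2 : Nat.card {θ // θ ∈ Θ} = Θ.card := by
    rw [Nat.card_eq_fintype_card, Fintype.card_coe]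
  exact perm_bound Θ.card φ.range {θ // θ ∈ Θ} h2 hne.card_pos
-- END yci

-- BEGIN ord
theorem ord_card {Z : Type} [Group Z] {H K : Subgroup Z} (h : H ≤ K) : H.relIndex K * Nat.card H = Nat.card K := by
  have h1 := (H.subgroupOf K).card_mul_index
  rw [Nat.card_congr (Subgroup.subgroupOfEquivOfLe h).toEquiv, mul_comm] at h1
  exact h1

/-- THE ORDER BOUND. PROOF. If `finrank V = 0` then `Y` is trivial (`hinj`). `A`, `D` from `exists_AD`, `C = centralizer A`, `Θ` from `exists_wts` for `ρ.comp A.subtype` (`|A| ∣ |Y|`, so `|A| ≠ 0` in `F`), `t = Θ.card ≤ n = finrank V` (each `ws θ` has dimension at least one), `hsep` by `ws_faithful`, `hinj`.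
`|A| ≤ 4 ^ t` (`card_le_of_closed` with `E = |A|`, `gal_closed`, `Gal.sub`). `M θ` from `AD.exists_rd` with `κ = θ.ker.map A.subtype`, `|D : M θ| ≤ (finrank (ws θ)) ^ 2` (`AD.rd_index`). `|D : A| ≤ ∏ |D : M θ| ≤ ∏ 4 ^ finrank (ws θ) = 4 ^ n` (`relIndex_le_prod`: if `x` is in all `M θ` then the `⁅x, y⁆ ∈ A` are
in all kernels, so `1`, and `x ∈ A` by `AD.cen`; `sq_le`). `|C : D| ≤ ∏ 64 ^ finrank (ws θ) = 64 ^ n` (`cd_bound`, `aut_pow`, `AD.rd_conj`, `AD.star`). `|Y : C| ≤ 16 ^ (t - 1)` (`yc_index`; `Θ` is not empty since `n > 0`). Together `4 * 4 * 64 * 16 = 2 ^ 14`. -/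
theorem order_bound [IsAlgClosed F] [FiniteDimensional F V] [Finite Y] [Group.IsSolvable Y] (ρ : Y →* Module.End F V)
    (hinj : Function.Injective ρ) (hF : (Nat.card Y : F) ≠ 0) (hG : Gal ρ) : Nat.card Y ≤ (2 ^ 14) ^ Module.finrank F V := by
  classical
  rcases Nat.eq_zero_or_pos (Module.finrank F V) with h0 | hpos
  · have h1 : Subsingleton V := Module.finrank_zero_iff.1 h0
    have h2 : Subsingleton Y := ⟨fun a b => hinj (LinearMap.ext fun v => Subsingleton.elim _ _)⟩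
    rw [h0, pow_zero, Nat.card_of_subsingleton (1 : Y)]
  obtain ⟨A, D, h⟩ := exists_AD Y
  have hAc : ∀ a b : A, a * b = b * a := fun a b => Subtype.ext (h.cA a a.2 b b.2)
  have hFA : (Nat.card A : F) ≠ 0 := by
    intro hz
    apply hF
    obtain ⟨c, hc⟩ := Subgroup.card_subgroup_dvd_card A
    rw [hc, Nat.cast_mul, hz, zero_mul]
  obtain ⟨Θ, hΘ, hsum, -⟩ := exists_wts hAc (ρ.comp A.subtype) hFA
  have hsep : ∀ a : A, (∀ θ ∈ Θ, θ a = 1) → a = 1 := by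
    intro a ha
    have h1 := ws_faithful hAc (ρ.comp A.subtype) hFA a (fun θ hθ => ha θ ((hΘ θ).2 hθ))
    have h2 : (a : Y) = 1 := hinj (by rw [map_one]; exact h1)
    exact Subtype.ext h2
  have hone : ∀ θ ∈ Θ, 1 ≤ Module.finrank F (ws (ρ.comp A.subtype) θ) := by
    intro θ hθ
    have h1 := (hΘ θ).1 hθ
    rw [Nat.one_le_iff_ne_zero]
    intro h2
    exact h1 (Submodule.finrank_eq_zero.1 h2)
  have ht : Θ.card ≤ Module.finrank F V := by
    rw [← hsum, Finset.card_eq_sum_ones]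
    exact Finset.sum_le_sum hone
  have hne : Θ.Nonempty := by
    by_contra hcon
    rw [Finset.not_nonempty_iff_eq_empty] at hcon
    rw [hcon, Finset.sum_empty] at hsum
    omega
  have hA : Nat.card A ≤ 4 ^ Θ.card :=
    card_le_of_closed (F := F) (Nat.card A) Nat.card_pos Θ.card A hAc dvd_rfl Θ rfl hsep
      (fun θ hθ k hk => (hΘ _).2 (gal_closed hAc _ hFA (hG.sub A) ((hΘ θ).1 hθ) hk))
  have hκ : ∀ θ : A →* Fˣ, θ.ker.map A.subtype ≤ A := by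
    rintro θ x ⟨a, _, rfl⟩
    exact a.2
  choose M hM using fun θ : A →* Fˣ => h.exists_rd (θ.ker.map A.subtype) (hκ θ)
  have hall : ∀ x ∈ D, (∀ θ ∈ Θ, x ∈ M θ) → x ∈ A := by
    intro x hx hxM
    apply h.cen hx
    intro y hy
    have hc := h.com x hx y hy
    have h1 : (⟨x * y * x⁻¹ * y⁻¹, hc⟩ : A) = 1 := by
      apply hsep
      intro θ hθ
      obtain ⟨a, ha, hax⟩ := ((hM θ x).1 (hxM θ hθ)).2 y hy
      have h2 : (⟨x * y * x⁻¹ * y⁻¹, hc⟩ : A) = a := Subtype.ext hax.symm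
      rw [h2]
      exact ha
    have h2 : x * y * x⁻¹ * y⁻¹ = 1 := congrArg Subtype.val h1
    rw [mul_inv_eq_one, mul_inv_eq_iff_eq_mul] at h2
    exact h2
  have hMi : ∀ θ ∈ Θ, (M θ).relIndex D ≤ Module.finrank F (ws (ρ.comp A.subtype) θ) ^ 2 :=
    fun θ hθ => h.rd_index ρ θ ((hΘ θ).1 hθ) (M θ) (hM θ)
  have hDA : A.relIndex D ≤ 4 ^ Module.finrank F V := by
    refine (relIndex_le_prod Θ A D M hall).trans ?_
    rw [← hsum, ← Finset.prod_pow_eq_pow_sum]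
    exact Finset.prod_le_prod' fun θ hθ => (hMi θ hθ).trans (sq_le _)
  have hcen : ∀ c ∈ Subgroup.centralizer (A : Set Y), ∀ a ∈ A, c * a = a * c :=
    fun c hc a ha => (Subgroup.mem_centralizer_iff.1 hc a ha).symm
  have hDC : D ≤ Subgroup.centralizer (A : Set Y) :=
    fun x hx => Subgroup.mem_centralizer_iff.2 fun a ha => (h.cD x hx a ha).symm
  have hCD : D.relIndex (Subgroup.centralizer (A : Set Y)) ≤ 64 ^ Module.finrank F V := by
    refine (cd_bound Θ _ D hDC (fun c _ d hd => h.nD.conj_mem d hd c) M (fun θ _ x hx => ((hM θ x).1 hx).1)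
      (fun θ _ c hc x hx => h.rd_conj (hκ θ) (hM θ) (hcen c hc) hx) ?_).trans ?_
    · intro c hc hcM
      refine h.star (hcen c hc) fun d hd => hall _ ?_ fun θ hθ => hcM θ hθ d hd
      exact D.mul_mem (h.nD.conj_mem d hd c) (D.inv_mem hd)
    · rw [← hsum, ← Finset.prod_pow_eq_pow_sum]
      refine Finset.prod_le_prod' fun θ hθ => ?_
      refine aut_pow _ _ ?_ (hMi θ hθ)
      exact Nat.pos_of_ne_zero Subgroup.index_ne_zero_of_finite
  have hYC := yc_index h.nA ρ Θ hΘ hsep hne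
  have e1 := Subgroup.card_mul_index (Subgroup.centralizer (A : Set Y))
  have e2 := ord_card hDC
  have e3 := ord_card h.le
  have h16 : 16 ^ (Θ.card - 1) ≤ 16 ^ Module.finrank F V := Nat.pow_le_pow_right (by norm_num) (by omega)
  have h4 : 4 ^ Θ.card ≤ 4 ^ Module.finrank F V := Nat.pow_le_pow_right (by norm_num) ht
  rw [← e1, ← e2, ← e3]
  calc D.relIndex (Subgroup.centralizer (A : Set Y)) * (A.relIndex D * Nat.card A) * (Subgroup.centralizer (A : Set Y)).index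
      ≤ 64 ^ Module.finrank F V * (4 ^ Module.finrank F V * 4 ^ Module.finrank F V) * 16 ^ Module.finrank F V :=
        Nat.mul_le_mul (Nat.mul_le_mul hCD (Nat.mul_le_mul hDA (hA.trans h4))) (hYC.trans h16)
    _ = (2 ^ 14) ^ Module.finrank F V := by
        rw [← mul_pow, ← mul_pow, ← mul_pow]
        norm_num
-- END ord

end

end Pool.Agent.Prb
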