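import Pool.Agent.Prb.Defs

/-!
# Numbers and generators
-/

set_option autoImplicit false

namespace Pool.Agent.Prb

-- BEGIN tot
private theorem tot_two (x : ℕ) : 2 * x ^ 2 ≤ 4 ^ x := by
  induction x with
  | zero => norm_num
  | succ x ih =>
    rcases Nat.eq_zero_or_pos x with rfl | hx
    · norm_num
    · rw [pow_succ 4 x]
      nlinarith

private theorem tot_sq (r : ℕ) : r ≤ 2 * Nat.totient r ^ 2 ∧ (Odd r → r ≤ Nat.totient r ^ 2) := by
  induction r using Nat.recOnPosPrimePosCoprime with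
  | prime_pow p k hp hk =>
    obtain ⟨j, rfl⟩ : ∃ j, k = j + 1 := ⟨k - 1, by omega⟩
    rw [Nat.totient_prime_pow hp hk, Nat.add_sub_cancel]
    have hpos : 0 < p ^ j := Nat.pow_pos hp.pos
    rcases hp.eq_two_or_odd' with rfl | ho
    · constructor
      · rw [show (2 : ℕ) - 1 = 1 from rfl, mul_one, pow_succ]
        nlinarith
      · intro h
        exact absurd h (by
          rw [Nat.not_odd_iff_even]
          exact ⟨2 ^ j, by ring⟩)
    · have h3 : 3 ≤ p := by
        rcases hp.two_le.lt_or_eq with h | h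
        · exact h
        · rw [← h] at ho
          exact absurd ho (by decide)
      obtain ⟨m, rfl⟩ : ∃ m, p = m + 1 := ⟨p - 1, by omega⟩
      have hk1 : (m + 1) ^ (j + 1) ≤ ((m + 1) ^ j * (m + 1 - 1)) ^ 2 := by
        rw [Nat.add_sub_cancel, pow_succ, mul_pow]
        have h1 : m + 1 ≤ m ^ 2 := by nlinarith
        have h2 : (m + 1) ^ j ≤ ((m + 1) ^ j) ^ 2 := by nlinarith
        exact Nat.mul_le_mul h2 h1
      exact ⟨hk1.trans (Nat.le_mul_of_pos_left _ (by norm_num)), fun _ => hk1⟩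
  | zero => exact ⟨by norm_num, fun h => absurd h (by decide)⟩
  | one => exact ⟨by norm_num, fun _ => by norm_num⟩
  | coprime a b ha hb hab iha ihb =>
    rw [Nat.totient_mul hab]
    have hmul : ∀ {x y u v : ℕ}, x ≤ u → y ≤ v → x * y ≤ u * v := fun h h' => Nat.mul_le_mul h h'
    constructor
    · rcases Nat.even_or_odd a with h1 | h1
      · have h2 : Odd b := by
          rw [← Nat.not_even_iff_odd]
          intro h2
          have h3 := Nat.dvd_gcd h1.two_dvd h2.two_dvd
          rw [Nat.Coprime] at hab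
          rw [hab] at h3
          omega
        calc a * b ≤ (2 * Nat.totient a ^ 2) * Nat.totient b ^ 2 := hmul iha.1 (ihb.2 h2)
          _ = _ := by ring
      · calc a * b ≤ Nat.totient a ^ 2 * (2 * Nat.totient b ^ 2) := hmul (iha.2 h1) ihb.1
          _ = _ := by ring
    · intro h
      rw [Nat.odd_mul] at h
      calc a * b ≤ Nat.totient a ^ 2 * Nat.totient b ^ 2 := hmul (iha.2 h.1) (ihb.2 h.2)
        _ = _ := by ring

/-- PROOF. `r ≤ 2 * φ r ^ 2` by multiplicativity (`Nat.recOnPosPrimePosCoprime`, `Nat.totient_mul`, `Nat.totient_prime_pow`; for an odd prime power `q ^ k ≤ φ (q ^ k) ^ 2`, for `q = 2` `2 ^ k ≤ 2 * φ (2 ^ k) ^ 2`; prove both `r ≤ 2 φ(r)²` and, for odd `r`, `r ≤ φ(r)²`,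
or write `r = 2 ^ a * s`), and `2 * x ^ 2 ≤ 4 ^ x`. -/
theorem le_totient (r : ℕ) (hr : 0 < r) : r ≤ 4 ^ Nat.totient r :=
  (tot_sq r).1.trans (tot_two _)
-- END tot

-- BEGIN sq
/-- PROOF. `d < 2 ^ d`. -/
theorem sq_le (d : ℕ) : d ^ 2 ≤ 4 ^ d := by
  have h1 : d ≤ 2 ^ d := Nat.lt_two_pow_self.le
  calc d ^ 2 ≤ (2 ^ d) ^ 2 := Nat.pow_le_pow_left h1 2
    _ = 4 ^ d := by rw [← pow_mul, mul_comm, pow_mul]; norm_num
-- END sq

-- BEGIN apw
private theorem apw_big (a : ℕ) (ha : 4 ≤ a) : (2 * a + 2) * (2 * a + 1) ≤ 6 * 2 ^ a := by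
  induction a, ha using Nat.le_induction with
  | base => norm_num
  | succ n hn ih =>
    rw [pow_succ]
    nlinarith [ih, hn, Nat.mul_le_mul hn hn]

private theorem apw_num (d L : ℕ) (h : 2 ^ L ≤ d ^ 2) : (L + 1) * L ≤ 6 * d := by
  rcases Nat.lt_or_ge L 8 with hL | hL
  · by_contra hc
    push Not at hc
    interval_cases L
    · omega
    · have : d ≤ 0 := by omega
      nlinarith
    · have : d ≤ 0 := by omega
      nlinarith
    · have : d ≤ 1 := by omega
      nlinarith
    · have : d ≤ 3 := by omega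
      nlinarith
    · have : d ≤ 4 := by omega
      nlinarith
    · have : d ≤ 6 := by omega
      nlinarith
    · have : d ≤ 9 := by omega
      nlinarith
  · obtain ⟨a, ha⟩ : ∃ a, L = 2 * a ∨ L = 2 * a + 1 := ⟨L / 2, by omega⟩
    have ha4 : 4 ≤ a := by omega
    have hd : 2 ^ a ≤ d := by
      by_contra hc
      push Not at hc
      have h1 : d ^ 2 < (2 ^ a) ^ 2 := Nat.pow_lt_pow_left hc (by norm_num)
      have h2 : (2 ^ a) ^ 2 ≤ 2 ^ L := by
        rw [← pow_mul]
        exact Nat.pow_le_pow_right (by norm_num) (by omega)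
      omega
    have h3 : (L + 1) * L ≤ (2 * a + 2) * (2 * a + 1) :=
      Nat.mul_le_mul (by omega) (by omega)
    have h4 := apw_big a ha4
    omega

/-- PROOF. `L = Nat.log 2 x`: `x < 2 ^ (L + 1)`, so `x ^ L ≤ 2 ^ ((L + 1) * L)`, and `2 ^ L ≤ x ≤ d ^ 2`; it remains `(L + 1) * L ≤ 6 * d`: `L ≤ 7` and `d ≤ 11` by cases (`interval_cases`), for large `d`: `(L + 1) ^ 2 ≤ 6 * 2 ^ (L / 2) ≤ 6 d` or so. -/
theorem aut_pow (d x : ℕ) (hx : 0 < x) (h : x ≤ d ^ 2) : x ^ Nat.log 2 x ≤ 64 ^ d := by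
  have h1 : x ≤ 2 ^ (Nat.log 2 x + 1) := (Nat.lt_pow_succ_log_self (by norm_num) x).le
  have h2 : 2 ^ Nat.log 2 x ≤ d ^ 2 := le_trans (Nat.pow_log_le_self 2 hx.ne') h
  have h3 := apw_num d (Nat.log 2 x) h2
  calc x ^ Nat.log 2 x ≤ (2 ^ (Nat.log 2 x + 1)) ^ Nat.log 2 x := Nat.pow_le_pow_left h1 _
    _ = 2 ^ ((Nat.log 2 x + 1) * Nat.log 2 x) := by rw [← pow_mul]
    _ ≤ 2 ^ (6 * d) := Nat.pow_le_pow_right (by norm_num) h3
    _ = 64 ^ d := by rw [pow_mul]; norm_num
-- END apw

-- BEGIN bpw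
private theorem bpw_num (L : ℕ) (hL : 1 ≤ L) : (L + 1) * (L + 1) + 4 ≤ 4 * 2 ^ L := by
  induction L, hL using Nat.le_induction with
  | base => norm_num
  | succ n hn ih =>
    rw [pow_succ]
    nlinarith [ih, hn, Nat.mul_le_mul hn hn]

/-- PROOF. `L = Nat.log 2 b`: `b ^ (L + 1) ≤ 2 ^ ((L + 1) ^ 2)`; for `L ≥ 1`: `(L + 1) ^ 2 ≤ 4 * (2 ^ L - 1) ≤ 4 * (b - 1)`; `b = 1` is clear. -/
theorem blk_pow (b : ℕ) (hb : 1 ≤ b) : b * b ^ Nat.log 2 b ≤ 16 ^ (b - 1) := by
  rcases Nat.eq_or_lt_of_le hb with h1 | h1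
  · subst h1
    norm_num
  · have hL : 1 ≤ Nat.log 2 b := Nat.log_pos (by norm_num) h1
    have h2 : b ≤ 2 ^ (Nat.log 2 b + 1) := (Nat.lt_pow_succ_log_self (by norm_num) b).le
    have h3 : 2 ^ Nat.log 2 b ≤ b := Nat.pow_log_le_self 2 (by omega)
    have h4 := bpw_num (Nat.log 2 b) hL
    calc b * b ^ Nat.log 2 b = b ^ (Nat.log 2 b + 1) := by rw [pow_succ, mul_comm]
      _ ≤ (2 ^ (Nat.log 2 b + 1)) ^ (Nat.log 2 b + 1) := Nat.pow_le_pow_left h2 _
      _ = 2 ^ ((Nat.log 2 b + 1) * (Nat.log 2 b + 1)) := by rw [← pow_mul]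
      _ ≤ 2 ^ (4 * (b - 1)) := Nat.pow_le_pow_right (by norm_num) (by omega)
      _ = 16 ^ (b - 1) := by rw [pow_mul]; norm_num
-- END bpw

-- BEGIN gen
/-- Generators modulo a subgroup. PROOF. Take `s ⊆ D` with `2 ^ s.card * M ≤ |closure (M ∪ s)|` in the sense `2 ^ s.card ≤ M.relIndex (closure (M ∪ s))` and `s.card` maximal (`s.card ≤ log_2 |D|`); if `closure (M ∪ s) < D` add an element of `D` outside: the index of a proper
subgroup is at least `2` (`Subgroup.relIndex_mul_relIndex`). -/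
theorem exists_gens {Y : Type} [Group Y] [Finite Y] (M D : Subgroup Y) (h : M ≤ D) :
    ∃ s : Finset Y, (∀ x ∈ s, x ∈ D) ∧ D = Subgroup.closure ((M : Set Y) ∪ s) ∧ s.card ≤ Nat.log 2 (M.relIndex D) := by
  classical
  obtain ⟨n, hn⟩ : ∃ n, M.relIndex D = n := ⟨_, rfl⟩
  induction n using Nat.strong_induction_on generalizing M with
  | _ n ih =>
    by_cases hD : D ≤ M
    · have hMD : M = D := le_antisymm h hD
      refine ⟨∅, by simp, ?_, by simp⟩
      rw [hMD]
      simp
    · obtain ⟨x, hxD, hxM⟩ := SetLike.not_le_iff_exists.1 hD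
      have hM' : M ≤ Subgroup.closure ((M : Set Y) ∪ {x}) := fun y hy =>
        Subgroup.subset_closure (Or.inl hy)
      have hxM' : x ∈ Subgroup.closure ((M : Set Y) ∪ {x}) := Subgroup.subset_closure (Or.inr rfl)
      have hM'D : Subgroup.closure ((M : Set Y) ∪ {x}) ≤ D := by
        rw [Subgroup.closure_le]
        rintro y (hy | hy)
        · exact h hy
        · rw [Set.mem_singleton_iff.1 hy]; exact hxD
      have hmul := Subgroup.relIndex_mul_relIndex M (Subgroup.closure ((M : Set Y) ∪ {x})) D hM' hM'D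
      have h1 : M.relIndex (Subgroup.closure ((M : Set Y) ∪ {x})) ≠ 1 := by
        rw [Ne, Subgroup.relIndex_eq_one]
        exact fun hh => hxM (hh hxM')
      have h0 : M.relIndex (Subgroup.closure ((M : Set Y) ∪ {x})) ≠ 0 :=
        Subgroup.index_ne_zero_of_finite
      have h0' : (Subgroup.closure ((M : Set Y) ∪ {x})).relIndex D ≠ 0 :=
        Subgroup.index_ne_zero_of_finite
      have h2 : 2 ≤ M.relIndex (Subgroup.closure ((M : Set Y) ∪ {x})) := by omega
      have h3 : (Subgroup.closure ((M : Set Y) ∪ {x})).relIndex D * 2 ≤ M.relIndex D := by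
        rw [← hmul, mul_comm]
        exact Nat.mul_le_mul_right _ h2
      obtain ⟨s, hs, hsD, hsc⟩ := ih _ (by omega) (Subgroup.closure ((M : Set Y) ∪ {x})) hM'D rfl
      refine ⟨insert x s, ?_, ?_, ?_⟩
      · intro y hy
        rcases Finset.mem_insert.1 hy with hy | hy
        · rw [hy]; exact hxD
        · exact hs y hy
      · apply le_antisymm
        · have hle : Subgroup.closure ((Subgroup.closure ((M : Set Y) ∪ {x}) : Set Y) ∪ s) ≤
              Subgroup.closure ((M : Set Y) ∪ (insert x s : Finset Y)) := by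
            rw [Subgroup.closure_le]
            rintro y (hy | hy)
            · have hle2 : Subgroup.closure ((M : Set Y) ∪ {x}) ≤
                  Subgroup.closure ((M : Set Y) ∪ (insert x s : Finset Y)) := by
                rw [Subgroup.closure_le]
                rintro z (hz | hz)
                · exact Subgroup.subset_closure (Or.inl hz)
                · rw [Set.mem_singleton_iff.1 hz]
                  exact Subgroup.subset_closure (Or.inr (Finset.mem_coe.2 (Finset.mem_insert_self x s)))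
              exact hle2 hy
            · exact Subgroup.subset_closure
                (Or.inr (Finset.mem_coe.2 (Finset.mem_insert_of_mem (Finset.mem_coe.1 hy))))
          exact hsD.le.trans hle
        · rw [Subgroup.closure_le]
          rintro y (hy | hy)
          · exact h hy
          · rcases Finset.mem_insert.1 (Finset.mem_coe.1 hy) with hy | hy
            · rw [hy]; exact hxD
            · exact hs y hy
      · refine (Finset.card_insert_le x s).trans ?_
        have h4 : Nat.log 2 ((Subgroup.closure ((M : Set Y) ∪ {x})).relIndex D * 2) =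
            Nat.log 2 ((Subgroup.closure ((M : Set Y) ∪ {x})).relIndex D) + 1 :=
          Nat.log_mul_base one_lt_two h0'
        have h5 := Nat.log_mono_right (b := 2) h3
        omega
-- END gen

end Pool.Agent.Prb
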