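import Pool.Agent.Prb.Num

/-!
# The order of a solvable permutation group
-/

set_option autoImplicit false

namespace Pool.Agent.Prb

-- BEGIN blk
/-- PROOF. `b = |Δ|`, `δ ∈ Δ`. `m ↦ m • δ` is injective on `M` (if `m • δ = δ` then `m` fixes all `m' • δ`, so `m = 1` by faithfulness), so `|M| ≤ b`. Let `s` be generators of `M` (`exists_gens ⊥ M`, `s.card ≤ log_2 |M|`). The map `l ↦ (l • δ, fun m : s => l * m * l⁻¹)` from `L` to
`Δ × (s → M)` is injective: if two elements have the same image then `e = l'⁻¹ l` fixes `δ` and commutes with `s`, so with `M`, so it fixes all the `m • δ`, and `e = 1`. So `|L| ≤ b * b ^ log_2 b`; `blk_pow`. -/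
theorem block_bound {L Δ : Type} [Group L] [Finite L] [Finite Δ] [Nonempty Δ] [MulAction L Δ] [FaithfulSMul L Δ] (M : Subgroup L)
    (hM : M.Normal) (hc : ∀ a ∈ M, ∀ b ∈ M, a * b = b * a) (ht : ∀ x y : Δ, ∃ m ∈ M, m • x = y) :
    Nat.card L ≤ 16 ^ (Nat.card Δ - 1) := by
  classical
  obtain ⟨δ⟩ := ‹Nonempty Δ›
  -- an element commuting with `M` and fixing `δ` is trivial
  have hfix : ∀ e : L, (∀ m ∈ M, e * m = m * e) → e • δ = δ → e = 1 := by
    intro e he hδ
    refine FaithfulSMul.eq_of_smul_eq_smul (α := Δ) fun x => ?_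
    obtain ⟨m, hm, rfl⟩ := ht δ x
    rw [one_smul, ← mul_smul, he m hm, mul_smul, hδ]
  have hinj : ∀ a ∈ M, ∀ b ∈ M, a • δ = b • δ → a = b := by
    intro a ha b hb hab
    have h1 : b⁻¹ * a = 1 := by
      refine hfix _ (fun m hm => hc _ (M.mul_mem (M.inv_mem hb) ha) _ hm) ?_
      rw [mul_smul, hab, inv_smul_smul]
    exact (inv_mul_eq_one.1 h1).symm
  have hMb : Nat.card M ≤ Nat.card Δ :=
    Nat.card_le_card_of_injective (fun m : M => (m : L) • δ) fun a b hab =>
      Subtype.ext (hinj _ a.2 _ b.2 hab)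
  obtain ⟨s, hsM, hsc, hcard⟩ := exists_gens (⊥ : Subgroup L) M bot_le
  rw [Subgroup.relIndex_bot_left] at hcard
  have hPhi : Function.Injective
      (fun l : L => ((l • δ, fun m : s => (l * (m : L) * l⁻¹) • δ) : Δ × (s → Δ))) := by
    intro l l' hl
    have h1 : l • δ = l' • δ := congrArg Prod.fst hl
    have h2 : ∀ m ∈ s, l * m * l⁻¹ = l' * m * l'⁻¹ := by
      intro m hm
      exact hinj _ (hM.conj_mem _ (hsM m hm) _) _ (hM.conj_mem _ (hsM m hm) _)
        (congrFun (congrArg Prod.snd hl) ⟨m, hm⟩)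
    have h3 : ∀ m ∈ M, (l'⁻¹ * l) * m = m * (l'⁻¹ * l) := by
      have hcl : M ≤ Subgroup.centralizer {l'⁻¹ * l} := by
        rw [hsc, Subgroup.closure_le]
        rintro m (hm | hm)
        · rw [Subgroup.coe_bot, Set.mem_singleton_iff] at hm
          rw [hm]
          exact Subgroup.one_mem _
        · have h4 := h2 m (Finset.mem_coe.1 hm)
          rw [SetLike.mem_coe, Subgroup.mem_centralizer_iff]
          intro g hg
          rw [Set.mem_singleton_iff.1 hg]
          have h5 : l * m = l' * m * l'⁻¹ * l := by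
            rw [← h4]; group
          calc l'⁻¹ * l * m = l'⁻¹ * (l * m) := by rw [mul_assoc]
            _ = l'⁻¹ * (l' * m * l'⁻¹ * l) := by rw [h5]
            _ = m * (l'⁻¹ * l) := by group
      intro m hm
      exact Subgroup.mem_centralizer_iff.1 (hcl hm) _ rfl
    have h6 : l'⁻¹ * l = 1 := by
      refine hfix _ h3 ?_
      rw [mul_smul, h1, inv_smul_smul]
    exact (inv_mul_eq_one.1 h6).symm
  have hb : 1 ≤ Nat.card Δ := Nat.card_pos_iff.2 ⟨⟨δ⟩, inferInstance⟩
  refine le_trans ?_ (blk_pow (Nat.card Δ) hb)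
  refine (Nat.card_le_card_of_injective _ hPhi).trans ?_
  rw [Nat.card_prod, Nat.card_fun]
  refine Nat.mul_le_mul_left _ ?_
  refine Nat.pow_le_pow_right hb ?_
  rw [Nat.card_eq_fintype_card, Fintype.card_coe]
  exact hcard.trans (Nat.log_mono_right hMb)
-- END blk

-- BEGIN orb
/-- PROOF. `P = fixingSubgroup L Δ` is normal (`hΔ`; `L` is finite, so `l • Δ = Δ`), `Q = L ⧸ P` acts faithfully on `Δ`; the image of `M` in `Q` is normal, abelian and transitive on `Δ`: `block_bound`. -/
theorem orb_bound {L Ω : Type} [Group L] [Finite L] [Finite Ω] [MulAction L Ω] (Δ : Set Ω) (hne : Δ.Nonempty)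
    (hΔ : ∀ (l : L), ∀ ω ∈ Δ, l • ω ∈ Δ) (M : Subgroup L) (hM : M.Normal) (hc : ∀ a ∈ M, ∀ b ∈ M, a * b = b * a)
    (ht : ∀ x ∈ Δ, ∀ y ∈ Δ, ∃ m ∈ M, m • x = y) : (fixingSubgroup L Δ).index ≤ 16 ^ (Nat.card Δ - 1) := by
  classical
  letI act : MulAction L Δ :=
    { smul := fun l x => ⟨l • (x : Ω), hΔ l x x.2⟩
      one_smul := fun x => Subtype.ext (one_smul L (x : Ω))
      mul_smul := fun a b x => Subtype.ext (mul_smul a b (x : Ω)) }
  let φ : L →* Equiv.Perm Δ := MulAction.toPermHom L Δ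
  have hφ : ∀ (l : L) (x : Δ), ((φ l x : Δ) : Ω) = l • (x : Ω) := fun _ _ => rfl
  have hker : φ.ker = fixingSubgroup L Δ := by
    ext l
    rw [MonoidHom.mem_ker, mem_fixingSubgroup_iff]
    constructor
    · intro h y hy
      have h1 := hφ l ⟨y, hy⟩
      rw [h] at h1
      exact h1.symm
    · intro h
      refine Equiv.ext fun x => Subtype.ext ?_
      rw [hφ]
      exact h x x.2
  have : Nonempty Δ := hne.to_subtype
  have h1 := block_bound (L := φ.range) (Δ := Δ) (M.map φ.rangeRestrict)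
    (hM.map _ φ.rangeRestrict_surjective) ?_ ?_
  · rw [← hker, Subgroup.index_ker]
    exact h1
  · rintro _ ⟨a, ha, rfl⟩ _ ⟨b, hb, rfl⟩
    rw [← map_mul, ← map_mul, hc a ha b hb]
  · intro x y
    obtain ⟨m, hm, hxy⟩ := ht x x.2 y y.2
    refine ⟨φ.rangeRestrict m, ⟨m, hm, rfl⟩, Subtype.ext ?_⟩
    exact hxy
-- END orb

-- BEGIN prd
/-- PROOF. The intersection of the `fixingSubgroup L (f ⁻¹' {b})` is `⊥` (faithful), `Subgroup.index_iInf_le`, `Subgroup.index_bot`. -/
theorem prod_bound {L Ω B : Type} [Group L] [Finite L] [MulAction L Ω] [FaithfulSMul L Ω] [Fintype B] (f : Ω → B) :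
    Nat.card L ≤ ∏ b : B, (fixingSubgroup L (f ⁻¹' {b})).index := by
  have h : (⨅ b : B, fixingSubgroup L (f ⁻¹' {b})) = ⊥ := by
    rw [eq_bot_iff]
    intro g hg
    rw [Subgroup.mem_iInf] at hg
    rw [Subgroup.mem_bot]
    apply FaithfulSMul.eq_of_smul_eq_smul (α := Ω)
    intro x
    have := (mem_fixingSubgroup_iff L).1 (hg (f x)) x rfl
    rw [this, one_smul]
  have h2 := Subgroup.index_iInf_le (fun b : B => fixingSubgroup L (f ⁻¹' {b}))
  rw [h, Subgroup.index_bot] at h2
  exact h2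
-- END prd

-- BEGIN abn
/-- PROOF. The last nontrivial term of the derived series. -/
theorem exists_abn (K : Type) [Group K] [Finite K] [Group.IsSolvable K] [Nontrivial K] :
    ∃ M : Subgroup K, M.Normal ∧ M ≠ ⊥ ∧ ∀ a ∈ M, ∀ b ∈ M, a * b = b * a := by
  classical
  have h : ∃ n, derivedSeries K n = ⊥ := Group.IsSolvable.solvable
  have h1 := Nat.find_spec h
  have h0 : Nat.find h ≠ 0 := by
    intro h0
    rw [h0, derivedSeries_zero] at h1
    exact top_ne_bot h1
  obtain ⟨m, hm⟩ := Nat.exists_eq_succ_of_ne_zero h0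
  refine ⟨derivedSeries K m, inferInstance, ?_, ?_⟩
  · intro hb
    have := Nat.find_min' h hb
    omega
  · intro a ha b hb
    rw [hm, Nat.succ_eq_add_one, derivedSeries_succ] at h1
    have h2 := Subgroup.commutator_mem_commutator ha hb
    rw [h1, Subgroup.mem_bot] at h2
    exact commutatorElement_eq_one_iff_mul_comm.1 h2
-- END abn

-- BEGIN prm
private theorem prm_fib {Ω B : Type} [Finite Ω] [Fintype B] (f : Ω → B) (hf : Function.Surjective f) :
    (∑ b : B, (Nat.card (f ⁻¹' {b} : Set Ω) - 1)) + Fintype.card B = Nat.card Ω := by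
  have h1 : ∀ b : B, 1 ≤ Nat.card (f ⁻¹' {b} : Set Ω) := by
    intro b
    obtain ⟨ω, hω⟩ := hf b
    haveI : Nonempty (f ⁻¹' {b} : Set Ω) := ⟨⟨ω, hω⟩⟩
    exact Nat.card_pos
  have h2 : Nat.card Ω = ∑ b : B, Nat.card (f ⁻¹' {b} : Set Ω) := by
    rw [← Nat.card_sigma]
    exact Nat.card_congr (Equiv.sigmaFiberEquiv f).symm
  rw [h2, ← Finset.card_univ, Finset.card_eq_sum_ones, ← Finset.sum_add_distrib]
  exact Finset.sum_congr rfl fun b _ => by have := h1 b; omega

/-- THE ORDER OF A SOLVABLE PERMUTATION GROUP. PROOF. Strong induction on `|Ω|`, for all `K`. If `K` is trivial: clear. Otherwise `M` from `exists_abn`; `B` = the set of the orbits of `M` on `Ω` (`MulAction.orbitRel.Quotient M Ω`), `|B| < |Ω|` (`M ≠ ⊥` moves a point), `|B| ≥ 1`. `K` acts on `B` (`M` is normal);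
let `L` be the kernel of this action, `M ≤ L`. `K ⧸ L` is solvable and faithful on `B`: `|K ⧸ L| ≤ 16 ^ (|B| - 1)` by induction. `L` acts on `Ω`, preserves each orbit of `M`: `prod_bound` (for `L` and the quotient map `f`) and `orb_bound` (with `M.subgroupOf L`) give
`|L| ≤ ∏ b, 16 ^ (|f⁻¹ b| - 1) = 16 ^ (|Ω| - |B|)`. -/
theorem perm_bound : ∀ (t : ℕ) (K Ω : Type) [Group K] [Finite K] [Group.IsSolvable K] [Finite Ω] [MulAction K Ω] [FaithfulSMul K Ω],
    Nat.card Ω = t → 0 < t → Nat.card K ≤ 16 ^ (t - 1) := by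
  classical
  intro t
  induction t using Nat.strong_induction_on with
  | _ t ih =>
  intro K Ω _ _ _ _ _ _ hΩ ht
  rcases subsingleton_or_nontrivial K with h | h
  · exact (Finite.card_le_one_iff_subsingleton.mpr h).trans (Nat.one_le_pow _ _ (by norm_num))
  obtain ⟨M, hM, hne, hab⟩ := exists_abn K
  letI s : Setoid Ω := MulAction.orbitRel M Ω
  have hrel : ∀ a b : Ω, a ≈ b ↔ ∃ m ∈ M, m • b = a := by
    intro a b
    constructor
    · intro hab'
      obtain ⟨m, hm⟩ := MulAction.orbitRel_apply.mp hab'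
      exact ⟨m.1, m.2, hm⟩
    · rintro ⟨m, hm, e⟩
      exact MulAction.orbitRel_apply.mpr ⟨⟨m, hm⟩, e⟩
  have hresp : ∀ k : K, ∀ a b : Ω, a ≈ b → k • a ≈ k • b := by
    intro k a b hab'
    obtain ⟨m, hm, e⟩ := (hrel a b).mp hab'
    refine (hrel _ _).mpr ⟨k * m * k⁻¹, hM.conj_mem m hm k, ?_⟩
    rw [← e, smul_smul, inv_mul_cancel_right, mul_smul]
  let B := Quotient s
  letI act : MulAction K B :=
    { smul := fun k => Quotient.map (fun ω => k • ω) (hresp k)
      one_smul := by
        intro b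
        induction b using Quotient.inductionOn with
        | h ω => exact congrArg _ (one_smul K ω)
      mul_smul := by
        intro k k' b
        induction b using Quotient.inductionOn with
        | h ω => exact congrArg _ (mul_smul k k' ω) }
  have hact : ∀ (k : K) (ω : Ω), k • (⟦ω⟧ : B) = ⟦k • ω⟧ := fun k ω => rfl
  let f : Ω → B := fun ω => ⟦ω⟧
  have hf : Function.Surjective f := Quotient.mk_surjective
  haveI : Finite B := Finite.of_surjective f hf
  letI : Fintype B := Fintype.ofFinite B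
  let φ : K →* Equiv.Perm B := MulAction.toPermHom K B
  let L : Subgroup K := φ.ker
  have hL : ∀ k : K, k ∈ L ↔ ∀ b : B, k • b = b := by
    intro k
    rw [MonoidHom.mem_ker]
    constructor
    · intro hk b
      have := congrArg (fun e : Equiv.Perm B => e b) hk
      exact this
    · intro hk
      ext b
      exact hk b
  have hML : M ≤ L := by
    intro m hm
    rw [hL]
    intro b
    obtain ⟨ω, rfl⟩ := hf b
    exact Quotient.sound ((hrel _ _).mpr ⟨m, hm, rfl⟩)
  -- the number of orbits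
  have hBΩ : Fintype.card B < t := by
    letI : Fintype Ω := Fintype.ofFinite Ω
    rw [← hΩ, Nat.card_eq_fintype_card]
    refine Fintype.card_lt_of_surjective_not_injective f hf ?_
    intro hinj
    obtain ⟨m, hm, hm1⟩ := (Subgroup.bot_or_exists_ne_one M).resolve_left hne
    apply hm1
    refine eq_of_smul_eq_smul (α := Ω) fun ω => ?_
    rw [one_smul]
    exact hinj (Quotient.sound ((hrel _ _).mpr ⟨m, hm, rfl⟩))
  have hBpos : 0 < Fintype.card B := by
    haveI : Nonempty Ω := by
      by_contra hcon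
      rw [not_nonempty_iff] at hcon
      rw [Nat.card_of_isEmpty] at hΩ
      omega
    haveI : Nonempty B := ⟨f (Classical.arbitrary Ω)⟩
    exact Fintype.card_pos
  -- the group on the orbits
  haveI : Group.IsSolvable φ.range := Group.isSolvable_of_surjective φ.rangeRestrict_surjective
  have h1 : Nat.card φ.range ≤ 16 ^ (Fintype.card B - 1) :=
    ih (Fintype.card B) hBΩ φ.range B Nat.card_eq_fintype_card hBpos
  -- the kernel
  have h2 : Nat.card L ≤ 16 ^ (∑ b : B, (Nat.card (f ⁻¹' {b} : Set Ω) - 1)) := by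
    refine (prod_bound (L := L) f).trans ?_
    rw [← Finset.prod_pow_eq_pow_sum]
    refine Finset.prod_le_prod' fun b _ => ?_
    refine orb_bound (L := L) (f ⁻¹' {b}) ?_ ?_ (M.subgroupOf L) ?_ ?_ ?_
    · obtain ⟨ω, hω⟩ := hf b
      exact ⟨ω, hω⟩
    · rintro ⟨l, hl⟩ ω hω
      have e : f (l • ω) = l • f ω := rfl
      change f (l • ω) = b
      rw [e, (hL l).mp hl]
      exact hω
    · exact hM.subgroupOf L
    · intro a ha c hc
      exact Subtype.ext (hab a.1 (Subgroup.mem_subgroupOf.mp ha) c.1 (Subgroup.mem_subgroupOf.mp hc))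
    · intro x hx y hy
      have e : f y = f x := by
        have hx' : f x = b := hx
        have hy' : f y = b := hy
        rw [hx', hy']
      obtain ⟨m, hm, hme⟩ := (hrel y x).mp (Quotient.exact e)
      exact ⟨⟨m, hML hm⟩, Subgroup.mem_subgroupOf.mpr hm, hme⟩
  have h3 := prm_fib f hf
  rw [hΩ] at h3
  calc Nat.card K = Nat.card L * L.index := (Subgroup.card_mul_index L).symm
    _ = Nat.card L * Nat.card φ.range := by rw [Subgroup.index_ker]
    _ ≤ 16 ^ (∑ b : B, (Nat.card (f ⁻¹' {b} : Set Ω) - 1)) * 16 ^ (Fintype.card B - 1) :=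
      Nat.mul_le_mul h2 h1
    _ = 16 ^ (t - 1) := by
      rw [← pow_add]
      congr 1
      omega
-- END prm

end Pool.Agent.Prb
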